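import Mathlib

/-!
An argument principle for functions holomorphic off a compact set that can be covered by well
separated small discs.
-/

open Set Metric Filter Topology Complex MeasureTheory

namespace Pool.Agent.Lib.MP_2a3b48_an

/-- The Cauchy integral over a circle. -/
noncomputable def cauchyInt (l : ℂ → ℂ) (c : ℂ) (s : ℝ) (z : ℂ) : ℂ :=
  (2 * Real.pi * I : ℂ)⁻¹ • circleIntegral (fun ζ => (ζ - z)⁻¹ • l ζ) c s

theorem differentiableAt_cauchyInt {l : ℂ → ℂ} {c : ℂ} {s : ℝ} (hs : 0 < s)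
    (hl : ContinuousOn l (sphere c s)) {z₀ : ℂ} (hz₀ : ‖z₀ - c‖ ≠ s) :
    DifferentiableAt ℂ (cauchyInt l c s) z₀ := by
  obtain ⟨M, hM⟩ := (isCompact_sphere c s).exists_bound_of_continuousOn hl
  set δ := |‖z₀ - c‖ - s| / 2 with hδ
  have hδpos : 0 < δ := by
    have := abs_pos.2 (sub_ne_zero.2 hz₀)
    positivity
  have hfar : ∀ x ∈ ball z₀ δ, ∀ θ : ℝ, δ ≤ ‖circleMap c s θ - x‖ := by
    intro x hx θ
    have h1 : ‖circleMap c s θ - c‖ = s := by
      have := circleMap_mem_sphere c hs.le θ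
      rwa [mem_sphere, dist_eq_norm] at this
    have h2 : |‖z₀ - c‖ - ‖circleMap c s θ - c‖| ≤ ‖(z₀ - c) - (circleMap c s θ - c)‖ :=
      abs_norm_sub_norm_le _ _
    rw [h1] at h2
    have h3 : ‖(z₀ - c) - (circleMap c s θ - c)‖ ≤ ‖z₀ - x‖ + ‖circleMap c s θ - x‖ := by
      calc _ = ‖(z₀ - x) - (circleMap c s θ - x)‖ := by ring_nf
        _ ≤ _ := norm_sub_le _ _
    rw [mem_ball, dist_comm, dist_eq_norm] at hx
    linarith
  have hne : ∀ x ∈ ball z₀ δ, ∀ θ : ℝ, circleMap c s θ - x ≠ 0 := fun x hx θ =>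
    norm_pos_iff.1 (hδpos.trans_le (hfar x hx θ))
  have hlc : Continuous fun θ : ℝ => l (circleMap c s θ) :=
    hl.comp_continuous (continuous_circleMap c s) fun θ => circleMap_mem_sphere c hs.le θ
  have hdc : Continuous fun θ : ℝ => deriv (circleMap c s) θ := by
    simp only [deriv_circleMap]
    fun_prop
  have hinv : ∀ x ∈ ball z₀ δ, Continuous fun θ : ℝ => (circleMap c s θ - x)⁻¹ := fun x hx =>
    ((continuous_circleMap c s).sub continuous_const).inv₀ (hne x hx)
  let F : ℂ → ℝ → ℂ := fun x θ =>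
    deriv (circleMap c s) θ • ((circleMap c s θ - x)⁻¹ • l (circleMap c s θ))
  let F' : ℂ → ℝ → ℂ := fun x θ =>
    deriv (circleMap c s) θ • (((circleMap c s θ - x)⁻¹ ^ 2) • l (circleMap c s θ))
  have hF : ∀ x ∈ ball z₀ δ, Continuous (F x) := fun x hx => hdc.smul ((hinv x hx).smul hlc)
  have hF' : ∀ x ∈ ball z₀ δ, Continuous (F' x) := fun x hx =>
    hdc.smul (((hinv x hx).pow 2).smul hlc)
  have h1 : ∀ᶠ x in 𝓝 z₀,
      AEStronglyMeasurable (F x) (volume.restrict (uIoc (0 : ℝ) (2 * Real.pi))) := by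
    filter_upwards [ball_mem_nhds z₀ hδpos] with x hx
    exact (hF x hx).aestronglyMeasurable
  have h2 : IntervalIntegrable (F z₀) volume 0 (2 * Real.pi) :=
    (hF z₀ (mem_ball_self hδpos)).intervalIntegrable _ _
  have h3 : AEStronglyMeasurable (F' z₀) (volume.restrict (uIoc (0 : ℝ) (2 * Real.pi))) :=
    (hF' z₀ (mem_ball_self hδpos)).aestronglyMeasurable
  have h4 : ∀ θ : ℝ, ∀ x ∈ ball z₀ δ, ‖F' x θ‖ ≤ s * (δ⁻¹ ^ 2 * M) := by
    intro θ x hx
    simp only [F']
    rw [norm_smul, norm_smul, norm_pow, norm_inv, deriv_circleMap, norm_mul, norm_I, mul_one,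
      norm_circleMap_zero, abs_of_pos hs]
    have := hM _ (circleMap_mem_sphere c hs.le θ)
    have h0 : 0 ≤ M := (norm_nonneg _).trans this
    have := hfar x hx θ
    gcongr
  have h5 : IntervalIntegrable (fun _ : ℝ => s * (δ⁻¹ ^ 2 * M)) volume 0 (2 * Real.pi) :=
    continuous_const.intervalIntegrable _ _
  have h6 : ∀ θ : ℝ, ∀ x ∈ ball z₀ δ, HasDerivAt (fun x => F x θ) (F' x θ) x := by
    intro θ x hx
    have h7 : HasDerivAt (fun x => (circleMap c s θ - x)⁻¹) ((circleMap c s θ - x)⁻¹ ^ 2) x := by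
      have h8 : HasDerivAt (fun x => circleMap c s θ - x) (-1) x :=
        (hasDerivAt_id x).const_sub (circleMap c s θ)
      have h9 := h8.fun_inv (hne x hx θ)
      rw [neg_neg, one_div, ← inv_pow] at h9
      exact h9
    exact (h7.smul_const (l (circleMap c s θ))).fun_const_smul (deriv (circleMap c s) θ)
  have key := (intervalIntegral.hasDerivAt_integral_of_dominated_loc_of_deriv_le
    (ball_mem_nhds z₀ hδpos) h1 h2 h3 (Eventually.of_forall fun θ _ => h4 θ) h5
    (Eventually.of_forall fun θ _ => h6 θ)).2.differentiableAt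
  exact key.fun_const_smul (2 * Real.pi * I : ℂ)⁻¹

theorem norm_cauchyInt_le {l : ℂ → ℂ} {c : ℂ} {s δ M : ℝ} (hs : 0 < s) (hδ : 0 < δ)
    (hM : ∀ ζ ∈ sphere c s, ‖l ζ‖ ≤ M) {z : ℂ} (hz : δ ≤ |‖z - c‖ - s|) :
    ‖cauchyInt l c s z‖ ≤ s * (δ⁻¹ * M) := by
  refine circleIntegral.norm_two_pi_i_inv_smul_integral_le_of_norm_le_const hs.le fun ζ hζ => ?_
  have h1 : ‖ζ - c‖ = s := by rwa [mem_sphere, dist_eq_norm] at hζ
  have h2 : |‖z - c‖ - ‖ζ - c‖| ≤ ‖(z - c) - (ζ - c)‖ := abs_norm_sub_norm_le _ _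
  rw [h1, show (z - c) - (ζ - c) = -(ζ - z) by ring, norm_neg] at h2
  rw [norm_smul, norm_inv]
  have := hM ζ hζ
  have h0 : 0 ≤ M := (norm_nonneg _).trans this
  gcongr
  linarith

/-- Cauchy's integral formula for an annulus. -/
theorem laurent {l : ℂ → ℂ} {c : ℂ} {s r : ℝ} (hs : 0 < s) {U : Set ℂ} (hU : IsOpen U)
    (hl : DifferentiableOn ℂ l U) (hsub : closedBall c r \ ball c s ⊆ U) {z : ℂ}
    (hz₁ : s < ‖z - c‖) (hz₂ : ‖z - c‖ < r) :
    l z = cauchyInt l c r z - cauchyInt l c s z := by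
  have hsr : s ≤ r := by linarith
  have hzU : z ∈ U := hsub ⟨by rw [mem_closedBall, dist_eq_norm]; exact hz₂.le,
    by rw [mem_ball, dist_eq_norm]; exact not_lt.2 hz₁.le⟩
  have hd : DifferentiableOn ℂ (dslope l z) U :=
    (differentiableOn_dslope (hU.mem_nhds hzU)).2 hl
  have h1 := circleIntegral_eq_of_differentiable_on_annulus_off_countable hs hsr countable_empty
    (hd.continuousOn.mono hsub) (fun w hw => hd.differentiableAt (hU.mem_nhds (hsub
      ⟨ball_subset_closedBall hw.1.1, fun h => hw.1.2 (ball_subset_closedBall h)⟩)))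
  have hsplit : ∀ t : ℝ, s ≤ t → t ≤ r → ‖z - c‖ ≠ t →
      circleIntegral (dslope l z) c t = circleIntegral (fun ζ => (ζ - z)⁻¹ • l ζ) c t -
        (circleIntegral (fun ζ => (ζ - z)⁻¹) c t) • l z := by
    intro t ht₁ ht₂ ht
    have ht0 : 0 ≤ t := by linarith
    have hne : ∀ ζ ∈ sphere c t, ζ ≠ z := by
      rintro ζ hζ rfl
      exact ht (by rwa [mem_sphere, dist_eq_norm] at hζ)
    have hsph : sphere c t ⊆ U := fun ζ hζ => hsub
      ⟨by rw [mem_closedBall, mem_sphere.1 hζ]; exact ht₂,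
        by rw [mem_ball, mem_sphere.1 hζ]; exact not_lt.2 ht₁⟩
    have hinv : ContinuousOn (fun ζ => (ζ - z)⁻¹) (sphere c t) :=
      (continuousOn_id.sub continuousOn_const).inv₀ fun ζ hζ => sub_ne_zero.2 (hne ζ hζ)
    have hi1 : CircleIntegrable (fun ζ => (ζ - z)⁻¹ • l ζ) c t :=
      (hinv.smul (hl.continuousOn.mono hsph)).circleIntegrable ht0
    have hi2 : CircleIntegrable (fun ζ => (ζ - z)⁻¹ • l z) c t :=
      (hinv.smul continuousOn_const).circleIntegrable ht0
    rw [← circleIntegral.integral_smul_const, ← circleIntegral.integral_sub hi1 hi2]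
    refine circleIntegral.integral_congr ht0 fun ζ hζ => ?_
    rw [dslope_of_ne _ (hne ζ hζ), slope_def_module, smul_sub]
  have h2 : circleIntegral (fun ζ => (ζ - z)⁻¹) c r = 2 * Real.pi * I :=
    circleIntegral.integral_sub_inv_of_mem_ball (by rwa [mem_ball, dist_eq_norm])
  have h3 : circleIntegral (fun ζ => (ζ - z)⁻¹) c s = 0 := by
    have hne : ∀ ζ ∈ closedBall c s, ζ - z ≠ 0 := by
      intro ζ hζ h0
      rw [sub_eq_zero.1 h0, mem_closedBall, dist_eq_norm] at hζ
      linarith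
    exact circleIntegral_eq_zero_of_differentiable_on_off_countable hs.le countable_empty
      ((continuousOn_id.sub continuousOn_const).inv₀ hne) fun ζ hζ =>
      (differentiableAt_id.sub_const z).inv (hne ζ (ball_subset_closedBall hζ.1))
  change circleIntegral (dslope l z) c r = circleIntegral (dslope l z) c s at h1
  rw [hsplit r hsr le_rfl hz₂.ne, hsplit s le_rfl hsr hz₁.ne', h2, h3] at h1
  have hpi : (2 * Real.pi * I : ℂ) ≠ 0 := two_pi_I_ne_zero
  unfold cauchyInt
  generalize circleIntegral (fun ζ => (ζ - z)⁻¹ • l ζ) c r = A at h1 ⊢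
  generalize circleIntegral (fun ζ => (ζ - z)⁻¹ • l ζ) c s = B at h1 ⊢
  simp only [smul_eq_mul, zero_mul, sub_zero] at h1 ⊢
  field_simp
  linear_combination -h1

theorem ne_zero_of_discs {s : ℝ} (hs : 0 < s) (C : Finset ℂ) :
    (∀ c ∈ C, ∀ c' ∈ C, c ≠ c' → 10 * s ≤ ‖c - c'‖) → ∀ h : ℂ → ℂ,
      (∀ z, (∀ c ∈ C, s < ‖z - c‖) → DifferentiableAt ℂ h z) → (∃ M, ∀ z, ‖h z‖ ≤ M) →
      (∀ c ∈ C, ∃ l : ℂ → ℂ, (∀ z ∈ ball c (5 * s), h z = exp (l z)) ∧
        DifferentiableOn ℂ l (ball c (5 * s) \ closedBall c s)) →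
      (∃ z, h z ≠ 0) → ∀ z, h z ≠ 0 := by
  classical
  induction C using Finset.induction_on with
  | empty =>
    rintro - h hd ⟨M, hM⟩ - ⟨w, hw⟩ z
    have hdiff : Differentiable ℂ h := fun z => hd z (by simp)
    have hb : Bornology.IsBounded (range h) :=
      isBounded_iff_forall_norm_le.2 ⟨M, by rintro _ ⟨z, rfl⟩; exact hM z⟩
    rwa [hdiff.apply_eq_apply_of_bounded hb z w]
  | insert c C hcC ih =>
    rintro hsep h hd ⟨M, hM⟩ hlog ⟨w, hw⟩
    obtain ⟨l, hl, hld⟩ := hlog c (Finset.mem_insert_self _ _)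
    have hU : IsOpen (ball c (5 * s) \ closedBall c s) := isOpen_ball.sdiff isClosed_closedBall
    have hsph : ∀ t, s < t → t < 5 * s → ContinuousOn l (sphere c t) := fun t h1 h2 =>
      hld.continuousOn.mono fun ζ hζ => ⟨by rw [mem_ball, mem_sphere.1 hζ]; exact h2,
        by rw [mem_closedBall, mem_sphere.1 hζ]; exact not_le.2 h1⟩
    have hl2 := hsph (2 * s) (by linarith) (by linarith)
    have hl4 := hsph (4 * s) (by linarith) (by linarith)
    obtain ⟨M₂, hM₂⟩ := (isCompact_sphere c (2 * s)).exists_bound_of_continuousOn hl2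
    obtain ⟨M₄, hM₄⟩ := (isCompact_sphere c (4 * s)).exists_bound_of_continuousOn hl4
    let h' : ℂ → ℂ := fun z => if ‖z - c‖ < 3 * s then exp (cauchyInt l c (4 * s) z)
      else h z * exp (cauchyInt l c (2 * s) z)
    have hin : ∀ z, ‖z - c‖ < 4 * s → h' z = exp (cauchyInt l c (4 * s) z) := by
      intro z hz
      simp only [h']
      split_ifs with h3
      · rfl
      · have := laurent (l := l) (c := c) (s := 2 * s) (r := 4 * s) (by linarith) hU hld
          (fun ζ hζ => ⟨by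
            have := mem_closedBall.1 hζ.1
            rw [mem_ball]; linarith, by
            have := hζ.2
            rw [mem_ball, not_lt] at this
            rw [mem_closedBall, not_le]; linarith⟩) (z := z) (by linarith) hz
        rw [hl z (by rw [mem_ball, dist_eq_norm]; linarith), this, ← exp_add]
        congr 1
        ring
    have hout : ∀ z, 3 * s ≤ ‖z - c‖ → h' z = h z * exp (cauchyInt l c (2 * s) z) := by
      intro z hz
      simp only [h', not_lt.2 hz, if_false]
    have hzero : ∀ z, h' z ≠ 0 ↔ h z ≠ 0 := by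
      intro z
      rcases lt_or_ge ‖z - c‖ (3 * s) with hz | hz
      · rw [hin z (by linarith), hl z (by rw [mem_ball, dist_eq_norm]; linarith)]
        simp [exp_ne_zero]
      · rw [hout z hz]
        simp [exp_ne_zero]
    have hnc : Continuous fun z : ℂ => ‖z - c‖ := by fun_prop
    intro z
    rw [← hzero]
    refine ih (fun a ha b hb => hsep a (Finset.mem_insert_of_mem ha) b
      (Finset.mem_insert_of_mem hb)) h' (fun z hz => ?_) ?_ (fun c' hc' => ?_)
      ⟨w, (hzero w).2 hw⟩ z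
    · rcases lt_or_ge ‖z - c‖ (4 * s) with h4 | h4
      · have hev : h' =ᶠ[𝓝 z] fun z => exp (cauchyInt l c (4 * s) z) := by
          filter_upwards [(isOpen_lt hnc continuous_const).mem_nhds h4] with y hy using hin y hy
        rw [hev.differentiableAt_iff]
        exact (differentiableAt_cauchyInt (by linarith) hl4 h4.ne).cexp
      · have h3 : 3 * s < ‖z - c‖ := by linarith
        have hev : h' =ᶠ[𝓝 z] fun z => h z * exp (cauchyInt l c (2 * s) z) := by
          filter_upwards [(isOpen_lt continuous_const hnc).mem_nhds h3] with y hy using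
            hout y (le_of_lt hy)
        rw [hev.differentiableAt_iff]
        refine (hd z fun c' hc' => ?_).mul
          (differentiableAt_cauchyInt (by linarith) hl2 (by linarith)).cexp
        rcases Finset.mem_insert.1 hc' with rfl | hc'
        · linarith
        · exact hz c' hc'
    · refine ⟨max (Real.exp (4 * s * (s⁻¹ * M₄))) (M * Real.exp (2 * s * (s⁻¹ * M₂))),
        fun z => ?_⟩
      rcases lt_or_ge ‖z - c‖ (3 * s) with hz | hz
      · rw [hin z (by linarith)]
        refine le_max_of_le_left ((norm_exp_le_exp_norm _).trans (Real.exp_le_exp.2 ?_))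
        exact norm_cauchyInt_le (by linarith) hs hM₄ (by rw [le_abs]; right; linarith)
      · rw [hout z hz, norm_mul]
        refine le_max_of_le_right (mul_le_mul (hM z)
          ((norm_exp_le_exp_norm _).trans (Real.exp_le_exp.2 ?_)) (norm_nonneg _)
          ((norm_nonneg _).trans (hM z)))
        exact norm_cauchyInt_le (by linarith) hs hM₂ (by rw [le_abs]; left; linarith)
    · obtain ⟨l', hl', hld'⟩ := hlog c' (Finset.mem_insert_of_mem hc')
      have hcc' : 10 * s ≤ ‖c' - c‖ := hsep c' (Finset.mem_insert_of_mem hc') c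
        (Finset.mem_insert_self _ _) (by rintro rfl; exact hcC hc')
      have hfar : ∀ z ∈ ball c' (5 * s), 5 * s < ‖z - c‖ := by
        intro z hz
        rw [mem_ball, dist_eq_norm] at hz
        have : ‖c' - c‖ ≤ ‖z - c‖ + ‖z - c'‖ := by
          calc _ = ‖(z - c) - (z - c')‖ := by ring_nf
            _ ≤ _ := norm_sub_le _ _
        linarith
      refine ⟨fun z => l' z + cauchyInt l c (2 * s) z, fun z hz => ?_, fun z hz => ?_⟩
      · rw [hout z (by linarith [hfar z hz]), hl' z hz, exp_add]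
      · exact (hld' z hz).add (differentiableAt_cauchyInt (by linarith) hl2
          (by linarith [hfar z hz.1])).differentiableWithinAt

/-- `E` can be covered by finitely many well separated discs of arbitrarily small radius. -/
def WellCovered (E : Set ℂ) : Prop :=
  ∀ ε > 0, ∃ s : ℝ, 0 < s ∧ s ≤ ε ∧ ∃ C : Finset ℂ, (∀ z ∈ E, ∃ c ∈ C, ‖z - c‖ ≤ s) ∧
    ∀ c ∈ C, ∀ c' ∈ C, c ≠ c' → 10 * s ≤ ‖c - c'‖

/-- The argument principle. -/
theorem ne_zero_of_ne_zero_on {E : Set ℂ} (hE : IsCompact E) (hne : E.Nonempty)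
    (hcov : WellCovered E) {h : ℂ → ℂ} (hc : Continuous h) (hb : ∃ M, ∀ z, ‖h z‖ ≤ M)
    (hd : ∀ z, z ∉ E → DifferentiableAt ℂ h z) (h0 : ∀ z ∈ E, h z ≠ 0) : ∀ z, h z ≠ 0 := by
  classical
  obtain ⟨δ, hδ, hδ'⟩ := hE.exists_forall_le' (f := fun z => ‖h z‖) (a := 0)
    hc.norm.continuousOn fun z hz => norm_pos_iff.2 (h0 z hz)
  have huc : UniformContinuousOn h (cthickening 1 E) :=
    (hE.cthickening (r := 1)).uniformContinuousOn_of_continuous hc.continuousOn
  obtain ⟨ε, hε, hε'⟩ := Metric.uniformContinuousOn_iff.1 huc δ hδ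
  obtain ⟨s, hs, hsε, C, hC, hsep⟩ := hcov (min ε 1 / 6) (by positivity)
  have hs1 : 6 * s ≤ ε := by linarith [min_le_left ε 1]
  have hs2 : 6 * s ≤ 1 := by linarith [min_le_right ε 1]
  let C' := C.filter fun c => ∃ e ∈ E, ‖e - c‖ ≤ s
  have hnotE : ∀ z, (∀ c ∈ C', s < ‖z - c‖) → z ∉ E := by
    intro z hz hzE
    obtain ⟨c, hc, hzc⟩ := hC z hzE
    exact absurd hzc (not_le.2 (hz c (Finset.mem_filter.2 ⟨hc, z, hzE, hzc⟩)))
  obtain ⟨e₀, he₀⟩ := hne
  refine ne_zero_of_discs hs C' (fun c hc c' hc' => hsep c (Finset.mem_filter.1 hc).1 c'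
    (Finset.mem_filter.1 hc').1) h (fun z hz => hd z (hnotE z hz)) hb (fun c hc => ?_)
    ⟨e₀, h0 e₀ he₀⟩
  obtain ⟨hcC, e, he, hec⟩ := Finset.mem_filter.1 hc
  have hhe := h0 e he
  have hslit : ∀ z ∈ ball c (5 * s), h z / h e ∈ slitPlane := by
    intro z hz
    rw [mem_ball, dist_eq_norm] at hz
    have hze : dist z e < 6 * s := by
      rw [dist_eq_norm]
      calc ‖z - e‖ = ‖(z - c) - (e - c)‖ := by ring_nf
        _ ≤ ‖z - c‖ + ‖e - c‖ := norm_sub_le _ _
        _ < 6 * s := by linarith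
    have h1 := hε' z (mem_cthickening_of_dist_le z e 1 E he (by linarith)) e
      (self_subset_cthickening E he) (by linarith)
    rw [dist_eq_norm] at h1
    have h2 : h z / h e = 1 + (h z - h e) / h e := by field_simp; ring
    rw [h2]
    refine mem_slitPlane_of_norm_lt_one ?_
    rw [norm_div, div_lt_one (norm_pos_iff.2 hhe)]
    exact h1.trans_le (hδ' e he)
  refine ⟨fun z => log (h z / h e) + log (h e), fun z hz => ?_, fun z hz => ?_⟩
  · rw [exp_add, exp_log (slitPlane_ne_zero (hslit z hz)), exp_log hhe]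
    field_simp
  · have hzE : z ∉ E := by
      intro hzE
      obtain ⟨c', hc', hzc'⟩ := hC z hzE
      have h1 := hz.1
      have h2 := hz.2
      rw [mem_ball, dist_eq_norm] at h1
      rw [mem_closedBall, dist_eq_norm, not_le] at h2
      have hcc' : c ≠ c' := by
        rintro rfl
        linarith
      have h3 := hsep c hcC c' hc' hcc'
      have : ‖c - c'‖ ≤ ‖z - c'‖ + ‖z - c‖ := by
        calc _ = ‖(z - c') - (z - c)‖ := by ring_nf
          _ ≤ _ := norm_sub_le _ _
      linarith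
    exact ((((hd z hzE).div_const _).clog (hslit z hz.1)).add_const _).differentiableWithinAt

end Pool.Agent.Lib.MP_2a3b48_an
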