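import Mathlib

/-!
Polynomial hull, rational hull and Cantor sets in `ℂ^N`.
-/

namespace Pool.Agent.Lib.MP_2a3b48_an

/-- The polynomial hull of `X`: points `z` with `|p z| ≤ max_X |p|` for all polynomials `p`. -/
def polyHull {N : ℕ} (X : Set (Fin N → ℂ)) : Set (Fin N → ℂ) :=
  {z | ∀ p : MvPolynomial (Fin N) ℂ,
    ‖MvPolynomial.eval z p‖ ≤ sSup ((fun x => ‖MvPolynomial.eval x p‖) '' X)}

/-- The rational hull of `X`: points `z` with `p z ∈ p(X)` for all polynomials `p`. -/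
def ratHull {N : ℕ} (X : Set (Fin N → ℂ)) : Set (Fin N → ℂ) :=
  {z | ∀ p : MvPolynomial (Fin N) ℂ,
    MvPolynomial.eval z p ∈ (fun x => MvPolynomial.eval x p) '' X}

/-- A Cantor set: nonempty, compact, totally disconnected, without isolated points. -/
def IsCantorSet {N : ℕ} (X : Set (Fin N → ℂ)) : Prop :=
  X.Nonempty ∧ IsCompact X ∧ IsTotallyDisconnected X ∧
    ∀ x ∈ X, ∀ U ∈ nhds x, ∃ y ∈ U ∩ X, y ≠ x

end Pool.Agent.Lib.MP_2a3b48_an
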