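import Mathlib
import Pool.Agent.Lib.MP_2a3b48_an.ArgPrinciple

/-!
A self-similar Cantor set `E ⊆ ℂ` of dimension `4/3` and the Cauchy transform of its natural
measure, constructed as the limit of a contracting iteration.
-/

open Set Metric Filter Topology Complex

namespace Pool.Agent.Lib.MP_2a3b48_an

/-- The digits. -/
noncomputable def dig (b : ℕ) (p : ℕ × ℕ) : ℂ := b * (p.1 + p.2 * I)

/-- The index set of digits. -/
def digs (K : ℕ) : Finset (ℕ × ℕ) := Finset.range K ×ˢ Finset.range K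

/-- The weight. -/
noncomputable def wt (z : ℂ) : ℝ := 1 / max 1 ‖z‖ ^ 2

/-- The transfer operator. -/
noncomputable def Lop (b K : ℕ) (h : ℂ → ℂ) (z : ℂ) : ℂ :=
  (b ^ 3 / K ^ 2) * ∑ p ∈ digs K, h (b ^ 3 * z - dig b p)

/-- The approximations to the Cantor set. -/
def En (b K : ℕ) : ℕ → Set ℂ
  | 0 => closedBall 0 1
  | n + 1 => {z | ∃ p ∈ digs K, b ^ 3 * z - dig b p ∈ En b K n}

/-- The truncated Cauchy kernel. -/
noncomputable def ker (z : ℂ) : ℂ := (starRingEnd ℂ) z * wt z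

/-- The approximations to the Cauchy transform. -/
noncomputable def fn (b K : ℕ) : ℕ → ℂ → ℂ
  | 0 => ker
  | n + 1 => Lop b K (fn b K n)

theorem wt_pos (z : ℂ) : 0 < wt z := by
  unfold wt
  have : 0 < max 1 ‖z‖ := lt_max_of_lt_left one_pos
  positivity

theorem wt_le_one (z : ℂ) : wt z ≤ 1 := by
  unfold wt
  rw [div_le_one (by have : 0 < max 1 ‖z‖ := lt_max_of_lt_left one_pos; positivity)]
  exact one_le_pow₀ (le_max_left _ _)

theorem wt_of_one_le {z : ℂ} (hz : 1 ≤ ‖z‖) : wt z = 1 / ‖z‖ ^ 2 := by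
  unfold wt
  rw [max_eq_right hz]

theorem wt_le_of_le {z : ℂ} {r : ℝ} (hr : 0 < r) (hz : r ≤ ‖z‖) : wt z ≤ 1 / r ^ 2 := by
  unfold wt
  gcongr
  exact le_max_of_le_right hz

theorem le_wt_of_le_two {z : ℂ} (hz : ‖z‖ ≤ 2) : 1 / 4 ≤ wt z := by
  unfold wt
  have h1 : max 1 ‖z‖ ≤ 2 := max_le (by norm_num) hz
  have h0 : 0 < max 1 ‖z‖ := lt_max_of_lt_left one_pos
  rw [div_le_div_iff₀ (by norm_num) (by positivity)]
  nlinarith

theorem continuous_wt : Continuous wt := by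
  unfold wt
  refine continuous_const.div (by fun_prop) fun z => ?_
  have : 0 < max 1 ‖z‖ := lt_max_of_lt_left one_pos
  positivity

theorem continuous_ker : Continuous ker :=
  continuous_conj.mul (continuous_ofReal.comp continuous_wt)

theorem ker_of_one_le {z : ℂ} (hz : 1 ≤ ‖z‖) : ker z = z⁻¹ := by
  have h0 : z ≠ 0 := norm_pos_iff.1 (by linarith)
  unfold ker
  rw [wt_of_one_le hz, inv_def, normSq_eq_norm_sq]
  push_cast
  ring

theorem norm_ker_le (z : ℂ) : ‖ker z‖ ≤ 1 := by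
  rcases le_total 1 ‖z‖ with hz | hz
  · rw [ker_of_one_le hz, norm_inv]
    exact inv_le_one_of_one_le₀ hz
  · unfold ker
    rw [norm_mul, Complex.norm_conj, Complex.norm_real, Real.norm_of_nonneg (wt_pos z).le]
    exact mul_le_one₀ hz (wt_pos z).le (wt_le_one z)

theorem card_near (K : ℕ) {b : ℕ} (hb : 0 < b) (x : ℝ) (m : ℕ) :
    ((Finset.range K).filter fun k : ℕ => |x - b * k| < m * b).card ≤ 2 * m := by
  have hb' : (0 : ℝ) < b := by exact_mod_cast hb
  have h := Finset.card_le_card_of_injOn (s := (Finset.range K).filter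
    fun k : ℕ => |x - b * k| < m * b) (t := Finset.Ioc (⌊x / b⌋ - m) (⌊x / b⌋ + m))
    (fun k => (k : ℤ)) (fun k hk => by
      have hk' := (Finset.mem_filter.1 hk).2
      rw [abs_lt] at hk'
      have h1 := Int.floor_le (x / b)
      have h2 := Int.lt_floor_add_one (x / b)
      rw [le_div_iff₀ hb'] at h1
      rw [div_lt_iff₀ hb'] at h2
      simp only [Finset.coe_Ioc, mem_Ioc]
      constructor
      · have : ((⌊x / b⌋ - m : ℤ) : ℝ) < ((k : ℤ) : ℝ) := by
          push_cast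
          nlinarith
        exact_mod_cast this
      · have : ((k : ℤ) : ℝ) < ((⌊x / b⌋ + m + 1 : ℤ) : ℝ) := by
          push_cast
          nlinarith
        have : (k : ℤ) < ⌊x / b⌋ + m + 1 := by exact_mod_cast this
        omega) (fun k _ l _ h => Nat.cast_injective (R := ℤ) h)
  rw [Int.card_Ioc] at h
  omega

theorem dig_re (b : ℕ) (p : ℕ × ℕ) : (dig b p).re = b * p.1 := by simp [dig]

theorem dig_im (b : ℕ) (p : ℕ × ℕ) : (dig b p).im = b * p.2 := by simp [dig]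

theorem card_near_dig (K : ℕ) {b : ℕ} (hb : 0 < b) (t : ℂ) (m : ℕ) :
    ((digs K).filter fun p => ‖t - dig b p‖ < m * b).card ≤ 2 * m * (2 * m) := by
  have hsub : ((digs K).filter fun p => ‖t - dig b p‖ < m * b) ⊆
      ((Finset.range K).filter fun k : ℕ => |t.re - b * k| < m * b) ×ˢ
        ((Finset.range K).filter fun k : ℕ => |t.im - b * k| < m * b) := by
    intro p hp
    obtain ⟨hp1, hp2⟩ := Finset.mem_filter.1 hp
    obtain ⟨hp3, hp4⟩ := Finset.mem_product.1 hp1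
    refine Finset.mem_product.2 ⟨Finset.mem_filter.2 ⟨hp3, ?_⟩, Finset.mem_filter.2 ⟨hp4, ?_⟩⟩
    · have := abs_re_le_norm (t - dig b p)
      rw [sub_re, dig_re] at this
      linarith
    · have := abs_im_le_norm (t - dig b p)
      rw [sub_im, dig_im] at this
      linarith
  refine (Finset.card_le_card hsub).trans ?_
  rw [Finset.card_product]
  exact Nat.mul_le_mul (card_near K hb _ m) (card_near K hb _ m)

theorem card_digs (K : ℕ) : (digs K).card = K ^ 2 := by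
  simp [digs, sq]

section

variable {b K : ℕ} (hb : 1000 ≤ b) (hK : 2 * K = b ^ 2)
include hb hK

theorem K_eq : (K : ℝ) = b ^ 2 / 2 := by
  have : ((2 * K : ℕ) : ℝ) = ((b ^ 2 : ℕ) : ℝ) := by rw [hK]
  push_cast at this
  have _ := hb
  linarith

theorem sum_wt_le (t : ℂ) : ∑ p ∈ digs K, wt (t - dig b p) ≤ 9 := by
  have hb' : (1000 : ℝ) ≤ b := by exact_mod_cast hb
  have hK' := K_eq hb hK
  have hpt : ∀ p ∈ digs K, wt (t - dig b p) ≤
      (if ‖t - dig b p‖ < (1 : ℕ) * b then (1 : ℝ) else 0) +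
        (if ‖t - dig b p‖ < b * b then 1 / (b : ℝ) ^ 2 else 0) + 1 / ((b : ℝ) * b) ^ 2 := by
    intro p _
    have h1 : (0 : ℝ) ≤ 1 / ((b : ℝ) * b) ^ 2 := by positivity
    have h2 : (0 : ℝ) ≤ 1 / (b : ℝ) ^ 2 := by positivity
    split_ifs with h3 h4 h4
    · linarith [wt_le_one (t - dig b p)]
    · linarith [wt_le_one (t - dig b p)]
    · have := wt_le_of_le (z := t - dig b p) (r := b) (by linarith) (by simpa using h3)
      linarith
    · have := wt_le_of_le (z := t - dig b p) (r := b * b) (by positivity) (not_lt.1 h4)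
      linarith
  refine (Finset.sum_le_sum hpt).trans ?_
  rw [Finset.sum_add_distrib, Finset.sum_add_distrib, ← Finset.sum_filter, ← Finset.sum_filter,
    Finset.sum_const, Finset.sum_const, Finset.sum_const, card_digs, nsmul_eq_mul, nsmul_eq_mul,
    nsmul_eq_mul]
  have h1 : ((((digs K).filter fun p => ‖t - dig b p‖ < (1 : ℕ) * b).card : ℕ) : ℝ) ≤ 4 := by
    exact_mod_cast card_near_dig K (by omega : 0 < b) t 1
  have h2 : ((((digs K).filter fun p => ‖t - dig b p‖ < b * b).card : ℕ) : ℝ) ≤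
      2 * b * (2 * b) := by
    exact_mod_cast card_near_dig K (by omega : 0 < b) t b
  have h3 : ((((digs K).filter fun p => ‖t - dig b p‖ < b * b).card : ℕ) : ℝ) *
      (1 / (b : ℝ) ^ 2) ≤ 4 := by
    calc _ ≤ 2 * b * (2 * b) * (1 / (b : ℝ) ^ 2) := by gcongr
      _ = 4 := by field_simp; ring
  have h4 : ((K ^ 2 : ℕ) : ℝ) * (1 / ((b : ℝ) * b) ^ 2) = 1 / 4 := by
    push_cast
    rw [hK']
    field_simp
    ring
  rw [mul_one]
  calc _ ≤ (4 : ℝ) + 4 + 1 / 4 := add_le_add (add_le_add h1 h3) h4.le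
    _ ≤ 9 := by norm_num

theorem norm_dig_le {p : ℕ × ℕ} (hp : p ∈ digs K) : ‖dig b p‖ ≤ b ^ 3 - 2 * b := by
  obtain ⟨hp1, hp2⟩ := Finset.mem_product.1 hp
  have h1 : ((p.1 + 1 : ℕ) : ℝ) ≤ K := by exact_mod_cast Finset.mem_range.1 hp1
  have h2 : ((p.2 + 1 : ℕ) : ℝ) ≤ K := by exact_mod_cast Finset.mem_range.1 hp2
  push_cast at h1 h2
  have hK' := K_eq hb hK
  have hb0 : (0 : ℝ) ≤ b := by positivity
  refine (norm_le_abs_re_add_abs_im _).trans ?_
  rw [dig_re, dig_im, abs_of_nonneg (by positivity), abs_of_nonneg (by positivity)]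
  nlinarith

theorem norm_coef : ‖((b : ℂ) ^ 3 / K ^ 2)‖ = 4 / b := by
  have hb' : (1000 : ℝ) ≤ b := by exact_mod_cast hb
  rw [norm_div, norm_pow, norm_pow, Complex.norm_natCast, Complex.norm_natCast, K_eq hb hK]
  field_simp
  ring

theorem norm_sub_dig_ge {z : ℂ} (hz : 2 ≤ ‖z‖) {p : ℕ × ℕ} (hp : p ∈ digs K) :
    (b : ℝ) ^ 3 * ‖z‖ / 2 ≤ ‖b ^ 3 * z - dig b p‖ := by
  have hb' : (1000 : ℝ) ≤ b := by exact_mod_cast hb
  have h1 := norm_sub_norm_le ((b : ℂ) ^ 3 * z) (dig b p)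
  rw [norm_mul, norm_pow, Complex.norm_natCast] at h1
  have h2 := norm_dig_le hb hK hp
  have h3 : (0 : ℝ) < b ^ 3 := by positivity
  nlinarith

theorem norm_Lop_le {h : ℂ → ℂ} {A : ℝ} (hA : ∀ z, ‖h z‖ ≤ A * wt z) (z : ℂ) :
    ‖Lop b K h z‖ ≤ A / 2 * wt z := by
  have hb' : (1000 : ℝ) ≤ b := by exact_mod_cast hb
  have hA0 : 0 ≤ A := by
    have := (norm_nonneg _).trans (hA 0)
    exact nonneg_of_mul_nonneg_left this (wt_pos 0)
  unfold Lop
  rw [norm_mul, norm_coef hb hK]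
  have h1 : ‖∑ p ∈ digs K, h (b ^ 3 * z - dig b p)‖ ≤
      A * ∑ p ∈ digs K, wt (b ^ 3 * z - dig b p) := by
    rw [Finset.mul_sum]
    exact norm_sum_le_of_le _ fun p _ => hA _
  rcases le_total ‖z‖ 2 with hz | hz
  · have h2 := sum_wt_le hb hK (b ^ 3 * z)
    have h3 := le_wt_of_le_two hz
    calc _ ≤ 4 / (b : ℝ) * (A * 9) := by gcongr; exact h1.trans (by gcongr)
      _ ≤ 4 / 1000 * (A * 9) := by gcongr
      _ ≤ A / 2 * (1 / 4) := by linarith
      _ ≤ _ := by gcongr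
  · have h2 : ∑ p ∈ digs K, wt (b ^ 3 * z - dig b p) ≤
        K ^ 2 * (1 / ((b : ℝ) ^ 3 * ‖z‖ / 2) ^ 2) := by
      have := Finset.sum_le_card_nsmul (digs K) (fun p => wt (b ^ 3 * z - dig b p))
        (1 / ((b : ℝ) ^ 3 * ‖z‖ / 2) ^ 2) fun p hp =>
          wt_le_of_le (by positivity) (norm_sub_dig_ge hb hK hz hp)
      rwa [card_digs, nsmul_eq_mul, Nat.cast_pow] at this
    rw [wt_of_one_le (by linarith)]
    have hb3 : (8 : ℝ) ≤ b ^ 3 := by
      calc (8 : ℝ) ≤ 1000 ^ 3 := by norm_num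
        _ ≤ _ := by gcongr
    calc _ ≤ 4 / (b : ℝ) * (A * (K ^ 2 * (1 / ((b : ℝ) ^ 3 * ‖z‖ / 2) ^ 2))) := by
          gcongr; exact h1.trans (by gcongr)
      _ = A * (4 / (b : ℝ) ^ 3) * (1 / ‖z‖ ^ 2) := by
          rw [K_eq hb hK]
          field_simp
      _ ≤ A * (4 / 8) * (1 / ‖z‖ ^ 2) := by gcongr
      _ = _ := by ring

theorem norm_Lop_ker_sub_le (z : ℂ) :
    ‖Lop b K ker z - ker z‖ ≤ 4 * (b ^ 3 + 1) * wt z := by
  have hb' : (1000 : ℝ) ≤ b := by exact_mod_cast hb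
  have hK' := K_eq hb hK
  have hb3 : (1 : ℝ) ≤ b ^ 3 := one_le_pow₀ (by linarith)
  have hKpos : (0 : ℝ) < K := by rw [hK']; positivity
  rcases le_total ‖z‖ 2 with hz | hz
  · have h1 : ‖Lop b K ker z‖ ≤ b ^ 3 := by
      unfold Lop
      rw [norm_mul, norm_coef hb hK]
      have := norm_sum_le_of_le (digs K) (f := fun p => ker (b ^ 3 * z - dig b p))
        (n := fun _ => (1 : ℝ)) fun p _ => norm_ker_le _
      rw [Finset.sum_const, card_digs, nsmul_eq_mul, Nat.cast_pow, mul_one] at this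
      calc _ ≤ 4 / (b : ℝ) * K ^ 2 := by gcongr
        _ = _ := by rw [hK']; field_simp; ring
    have h2 := le_wt_of_le_two hz
    have h3 := norm_sub_le (Lop b K ker z) (ker z)
    have h4 := norm_ker_le z
    nlinarith
  · have hz0 : z ≠ 0 := norm_pos_iff.1 (by linarith)
    have hKC : (K : ℂ) ≠ 0 := by exact_mod_cast hKpos.ne'
    have h1 : Lop b K ker z - ker z = (1 / K ^ 2) *
        ∑ p ∈ digs K, (dig b p / (z * (b ^ 3 * z - dig b p))) := by
      unfold Lop
      rw [ker_of_one_le (by linarith : 1 ≤ ‖z‖)]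
      have h2 : z⁻¹ = (1 / K ^ 2) * ∑ p ∈ digs K, z⁻¹ := by
        rw [Finset.sum_const, card_digs, nsmul_eq_mul]
        push_cast
        field_simp
      rw [h2, Finset.mul_sum, Finset.mul_sum, Finset.mul_sum, ← Finset.sum_sub_distrib]
      refine Finset.sum_congr rfl fun p hp => ?_
      have h3 := norm_sub_dig_ge hb hK hz hp
      have h4 : 1 ≤ ‖b ^ 3 * z - dig b p‖ := by nlinarith
      have h5 : b ^ 3 * z - dig b p ≠ 0 := norm_pos_iff.1 (by linarith)
      rw [ker_of_one_le h4]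
      field_simp
      ring
    rw [h1, norm_mul, wt_of_one_le (by linarith)]
    have h6 := norm_sum_le_of_le (digs K)
      (f := fun p => dig b p / (z * (b ^ 3 * z - dig b p)))
      (n := fun _ => 2 / ‖z‖ ^ 2) fun p hp => by
        rw [norm_div, norm_mul]
        have h3 := norm_sub_dig_ge hb hK hz hp
        have h4 := norm_dig_le hb hK hp
        calc _ ≤ (b : ℝ) ^ 3 / (‖z‖ * ((b : ℝ) ^ 3 * ‖z‖ / 2)) := by gcongr; linarith
          _ = _ := by field_simp
    rw [Finset.sum_const, card_digs, nsmul_eq_mul, Nat.cast_pow] at h6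
    rw [norm_div, norm_one, norm_pow, Complex.norm_natCast]
    calc _ ≤ 1 / (K : ℝ) ^ 2 * (K ^ 2 * (2 / ‖z‖ ^ 2)) := by gcongr
      _ = 2 * (1 / ‖z‖ ^ 2) := by field_simp
      _ ≤ _ := by gcongr; linarith

theorem norm_fn_succ_sub_le : ∀ (n : ℕ) (z : ℂ),
    ‖fn b K (n + 1) z - fn b K n z‖ ≤ 4 * (b ^ 3 + 1) / 2 ^ n * wt z
  | 0, z => by simpa [fn] using norm_Lop_ker_sub_le hb hK z
  | n + 1, z => by
    have h := norm_Lop_le hb hK (h := fun z => fn b K (n + 1) z - fn b K n z)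
      (norm_fn_succ_sub_le n) z
    have h2 : Lop b K (fun z => fn b K (n + 1) z - fn b K n z) z =
        fn b K (n + 1 + 1) z - fn b K (n + 1) z := by
      simp only [fn, Lop, Finset.sum_sub_distrib]
      ring
    rw [h2] at h
    refine h.trans (le_of_eq ?_)
    field_simp
    ring

theorem En_succ_subset : ∀ n, En b K (n + 1) ⊆ En b K n
  | 0 => by
    rintro z ⟨p, hp, hz⟩
    have hb' : (1000 : ℝ) ≤ b := by exact_mod_cast hb
    simp only [En, mem_closedBall, dist_zero_right] at hz ⊢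
    have h1 := norm_sub_norm_le ((b : ℂ) ^ 3 * z) (dig b p)
    rw [norm_mul, norm_pow, Complex.norm_natCast] at h1
    have h2 := norm_dig_le hb hK hp
    have h3 : (0 : ℝ) < b ^ 3 := by positivity
    by_contra h4
    push Not at h4
    nlinarith
  | n + 1 => by
    rintro z ⟨p, hp, hz⟩
    exact ⟨p, hp, En_succ_subset n hz⟩

theorem En_antitone : Antitone (En b K) := antitone_nat_of_succ_le (En_succ_subset hb hK)

theorem zero_mem_En : ∀ n, (0 : ℂ) ∈ En b K n
  | 0 => by simp [En]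
  | n + 1 => by
    have hK0 : 0 < K := by
      have : 0 < b ^ 2 := by positivity
      omega
    refine ⟨(0, 0), by simp [digs, hK0], ?_⟩
    simpa [dig] using zero_mem_En n

/-- The difference sets. -/
theorem mul_mem_sub {n : ℕ} {t z z' w w' : ℂ} (hz : z ∈ En b K (n + 1)) (hz' : z' ∈ En b K (n + 1))
    (hw : w ∈ En b K 1) (hw' : w' ∈ En b K 1) (ht : t = z - z') (ht' : b ^ 2 * t = w - w') :
    ∃ u ∈ En b K n, ∃ u' ∈ En b K n, b ^ 3 * t = u - u' := by
  obtain ⟨p, -, hu⟩ := hz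
  obtain ⟨p', -, hu'⟩ := hz'
  obtain ⟨q, hq, hy⟩ := hw
  obtain ⟨q', hq', hy'⟩ := hw'
  have hb' : (1000 : ℝ) ≤ b := by exact_mod_cast hb
  have hK' := K_eq hb hK
  refine ⟨_, hu, _, hu', ?_⟩
  set u := (b : ℂ) ^ 3 * z - dig b p with hu_def
  set u' := (b : ℂ) ^ 3 * z' - dig b p' with hu'_def
  set y := (b : ℂ) ^ 3 * w - dig b q with hy_def
  set y' := (b : ℂ) ^ 3 * w' - dig b q' with hy'_def
  have hun : ‖u‖ ≤ 1 := by simpa [En] using En_antitone hb hK (Nat.zero_le n) hu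
  have hun' : ‖u'‖ ≤ 1 := by simpa [En] using En_antitone hb hK (Nat.zero_le n) hu'
  have hyn : ‖y‖ ≤ 1 := by simpa [En] using hy
  have hyn' : ‖y'‖ ≤ 1 := by simpa [En] using hy'
  have key : (b : ℂ) ^ 2 * (dig b p - dig b p') =
      (dig b q - dig b q') + (y - y') - (b : ℂ) ^ 2 * (u - u') := by
    rw [hu_def, hu'_def, hy_def, hy'_def]
    linear_combination (b : ℂ) ^ 3 * ht' - (b : ℂ) ^ 5 * ht
  obtain ⟨hq1, hq2⟩ := Finset.mem_product.1 hq
  obtain ⟨hq1', hq2'⟩ := Finset.mem_product.1 hq'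
  have aux : ∀ (k k' l l' : ℕ) (e f : ℝ), l < K → l' < K → |e| ≤ 2 → |f| ≤ 2 →
      (b : ℝ) ^ 2 * (b * k - b * k') = (b * l - b * l') + e - b ^ 2 * f → k = k' := by
    intro k k' l l' e f hl hl' he hf h
    have hl1 : (l : ℝ) < K := by exact_mod_cast hl
    have hl1' : (l' : ℝ) < K := by exact_mod_cast hl'
    have hl0 : (0 : ℝ) ≤ l := by positivity
    have hl0' : (0 : ℝ) ≤ l' := by positivity
    rw [abs_le] at he hf
    have hb2 : (0 : ℝ) < b ^ 2 := by positivity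
    have hb2' : (1000 : ℝ) ^ 2 ≤ b ^ 2 := by gcongr
    have hb3 : 1000 * (b : ℝ) ^ 2 ≤ b ^ 3 := by nlinarith
    have h1 : (b : ℝ) * l ≤ b ^ 3 / 2 := by nlinarith
    have h1' : (b : ℝ) * l' ≤ b ^ 3 / 2 := by nlinarith
    have h2 : 0 ≤ (b : ℝ) * l := by positivity
    have h2' : 0 ≤ (b : ℝ) * l' := by positivity
    rcases lt_trichotomy k k' with hk | hk | hk
    · have : (k : ℝ) + 1 ≤ k' := by exact_mod_cast hk
      nlinarith
    · exact hk
    · have : (k' : ℝ) + 1 ≤ k := by exact_mod_cast hk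
      nlinarith
  have hyy : ‖y - y'‖ ≤ 2 := by linarith [norm_sub_le y y']
  have huu : ‖u - u'‖ ≤ 2 := by linarith [norm_sub_le u u']
  have hb2 : ((b : ℂ) ^ 2) = (((b : ℝ) ^ 2 : ℝ) : ℂ) := by push_cast; rfl
  have h1 : p.1 = p'.1 := by
    refine aux _ _ q.1 q'.1 (y - y').re (u - u').re (Finset.mem_range.1 hq1)
      (Finset.mem_range.1 hq1') ((abs_re_le_norm _).trans hyy) ((abs_re_le_norm _).trans huu) ?_
    have := congrArg re key
    rw [hb2, sub_re, add_re, re_ofReal_mul, re_ofReal_mul, sub_re, sub_re, dig_re, dig_re,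
      dig_re, dig_re] at this
    exact this
  have h2 : p.2 = p'.2 := by
    refine aux _ _ q.2 q'.2 (y - y').im (u - u').im (Finset.mem_range.1 hq2)
      (Finset.mem_range.1 hq2') ((abs_im_le_norm _).trans hyy) ((abs_im_le_norm _).trans huu) ?_
    have := congrArg im key
    rw [hb2, sub_im, add_im, im_ofReal_mul, im_ofReal_mul, sub_im, sub_im, dig_im, dig_im,
      dig_im, dig_im] at this
    exact this
  have hp : p = p' := Prod.ext h1 h2
  rw [hu_def, hu'_def, hp, ht]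
  ring

theorem norm_le_of_sub : ∀ (n : ℕ) (t : ℂ), (∃ z ∈ En b K n, ∃ z' ∈ En b K n, t = z - z') →
    (∃ z ∈ En b K n, ∃ z' ∈ En b K n, b * t = z - z') →
    (∃ z ∈ En b K n, ∃ z' ∈ En b K n, b ^ 2 * t = z - z') → (b : ℝ) ^ n * ‖t‖ ≤ 2
  | 0, t => by
    rintro ⟨z, hz, z', hz', rfl⟩ - -
    simp only [En, mem_closedBall, dist_zero_right] at hz hz'
    rw [pow_zero, one_mul]
    linarith [norm_sub_le z z']
  | n + 1, t => by
    rintro ⟨z, hz, z', hz', h⟩ ⟨w, hw, w', hw', h'⟩ ⟨y, hy, y', hy', h''⟩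
    have hsub := En_succ_subset hb hK n
    have hsub1 : En b K (n + 1) ⊆ En b K 1 := En_antitone hb hK (by omega)
    have := norm_le_of_sub n (b * t) ⟨w, hsub hw, w', hsub hw', h'⟩
      ⟨y, hsub hy, y', hsub hy', by rw [← h'']; ring⟩ (by
        obtain ⟨u, hu, u', hu', h3⟩ := mul_mem_sub hb hK hz hz' (hsub1 hy) (hsub1 hy') h h''
        exact ⟨u, hu, u', hu', by rw [← h3]; ring⟩)
    rw [norm_mul, Complex.norm_natCast] at this
    rw [pow_succ, mul_assoc]
    exact this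

omit hK in
theorem exists_centers (n : ℕ) : ∃ C : Finset ℂ,
    (∀ z ∈ En b K n, ∃ c ∈ C, ‖z - c‖ ≤ 1 / ((b : ℝ) ^ 3) ^ n) ∧
      ∀ c ∈ C, ∃ k l : ℤ, c * ((b : ℂ) ^ 3) ^ n = b * (k + l * I) := by
  classical
  have hb' : (1000 : ℝ) ≤ b := by exact_mod_cast hb
  have hbC : (b : ℂ) ≠ 0 := by exact_mod_cast (by omega : b ≠ 0)
  induction n with
  | zero =>
    refine ⟨{0}, fun z hz => ⟨0, by simp, by simpa [En] using hz⟩, fun c hc => ⟨0, 0, ?_⟩⟩
    simp [Finset.mem_singleton.1 hc]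
  | succ n ih =>
    obtain ⟨C, hC, hC'⟩ := ih
    refine ⟨(digs K ×ˢ C).image fun q => (q.2 + dig b q.1) / b ^ 3, ?_, ?_⟩
    · rintro z ⟨p, hp, hz⟩
      obtain ⟨c, hc, hzc⟩ := hC _ hz
      refine ⟨_, Finset.mem_image.2 ⟨(p, c), Finset.mem_product.2 ⟨hp, hc⟩, rfl⟩, ?_⟩
      have : z - (c + dig b p) / b ^ 3 = (b ^ 3 * z - dig b p - c) / b ^ 3 := by
        field_simp
        ring
      simp only
      rw [this, norm_div, norm_pow, Complex.norm_natCast, div_le_iff₀ (by positivity)]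
      refine hzc.trans (le_of_eq ?_)
      field_simp
      ring
    · intro c hc
      obtain ⟨⟨p, c'⟩, hq, rfl⟩ := Finset.mem_image.1 hc
      obtain ⟨k, l, hkl⟩ := hC' c' (Finset.mem_product.1 hq).2
      refine ⟨k + p.1 * (b ^ 3) ^ n, l + p.2 * (b ^ 3) ^ n, ?_⟩
      have : (c' + dig b p) / b ^ 3 * ((b : ℂ) ^ 3) ^ (n + 1) =
          c' * ((b : ℂ) ^ 3) ^ n + dig b p * ((b : ℂ) ^ 3) ^ n := by
        field_simp
        ring
      simp only
      rw [this, hkl, dig]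
      push_cast
      ring

omit hK in
theorem wellCovered : WellCovered (⋂ n, En b K n) := by
  intro ε hε
  have hb' : (1000 : ℝ) ≤ b := by exact_mod_cast hb
  have hb3 : (1 : ℝ) < b ^ 3 := one_lt_pow₀ (by linarith) (by norm_num)
  obtain ⟨n, hn⟩ := pow_unbounded_of_one_lt (1 / ε) hb3
  obtain ⟨C, hC, hC'⟩ := exists_centers (K := K) hb n
  have hpos : (0 : ℝ) < ((b : ℝ) ^ 3) ^ n := by positivity
  refine ⟨1 / ((b : ℝ) ^ 3) ^ n, by positivity, ?_, C,
    fun z hz => hC z (mem_iInter.1 hz n), fun c hc c' hc' hne => ?_⟩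
  · rw [div_le_iff₀ hpos]
    rw [div_lt_iff₀ hε] at hn
    linarith
  · obtain ⟨k, l, hkl⟩ := hC' c hc
    obtain ⟨k', l', hkl'⟩ := hC' c' hc'
    have h1 : (c - c') * ((b : ℂ) ^ 3) ^ n = b * (((k - k' : ℤ) : ℂ) + ((l - l' : ℤ) : ℂ) * I) := by
      rw [sub_mul, hkl, hkl']
      push_cast
      ring
    have h2 : 1 ≤ ‖((k - k' : ℤ) : ℂ) + ((l - l' : ℤ) : ℂ) * I‖ := by
      by_cases hk : k - k' = 0
      · have hl : l - l' ≠ 0 := by
          intro hl
          rw [hk, hl] at h1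
          have hbC : (b : ℂ) ≠ 0 := by exact_mod_cast (by omega : b ≠ 0)
          simp [hbC, sub_ne_zero.2 hne] at h1
        refine le_trans ?_ (abs_im_le_norm _)
        have : (1 : ℝ) ≤ |((l - l' : ℤ) : ℝ)| := by exact_mod_cast Int.one_le_abs hl
        simpa using this
      · refine le_trans ?_ (abs_re_le_norm _)
        have : (1 : ℝ) ≤ |((k - k' : ℤ) : ℝ)| := by exact_mod_cast Int.one_le_abs hk
        simpa using this
    have h3 := congrArg norm h1
    rw [norm_mul, norm_mul, norm_pow, norm_pow, Complex.norm_natCast] at h3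
    rw [← mul_div_assoc, div_le_iff₀ hpos, h3]
    nlinarith

end

theorem isClosed_En (b K : ℕ) : ∀ n, IsClosed (En b K n)
  | 0 => isClosed_closedBall
  | n + 1 => by
    have : En b K (n + 1) = ⋃ p ∈ digs K, (fun z => (b : ℂ) ^ 3 * z - dig b p) ⁻¹' En b K n := by
      ext z
      simp [En]
    rw [this]
    exact isClosed_biUnion_finset fun p _ => (isClosed_En b K n).preimage (by fun_prop)

theorem continuous_fn (b K : ℕ) : ∀ n, Continuous (fn b K n)
  | 0 => continuous_ker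
  | n + 1 => by
    have := continuous_fn b K n
    change Continuous (Lop b K (fn b K n))
    unfold Lop
    fun_prop

theorem differentiableAt_fn (b K : ℕ) : ∀ (n : ℕ) (z : ℂ), z ∉ En b K n →
    DifferentiableAt ℂ (fn b K n) z
  | 0, z => fun hz => by
    have hz' : 1 < ‖z‖ := by simpa [En] using hz
    have hev : ker =ᶠ[𝓝 z] fun z => z⁻¹ := by
      filter_upwards [(isOpen_lt continuous_const continuous_norm).mem_nhds hz'] with y hy using
        ker_of_one_le (le_of_lt hy)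
    change DifferentiableAt ℂ ker z
    rw [hev.differentiableAt_iff]
    exact differentiableAt_inv (norm_pos_iff.1 (by linarith))
  | n + 1, z => fun hz => by
    change DifferentiableAt ℂ (Lop b K (fn b K n)) z
    unfold Lop
    refine DifferentiableAt.const_mul (DifferentiableAt.fun_sum fun p hp => ?_) _
    exact (differentiableAt_fn b K n _ fun h => hz ⟨p, hp, h⟩).comp z (by fun_prop)

theorem WellCovered.isTotallyDisconnected {E : Set ℂ} (hE : WellCovered E) :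
    IsTotallyDisconnected E := by
  intro Γ hΓE hΓ x hx y hy
  have key : ∀ ε > 0, ‖y - x‖ ≤ 2 * ε := by
    intro ε hε
    obtain ⟨s, hs, hsε, C, hC, hsep⟩ := hE ε hε
    obtain ⟨c, hc, hxc⟩ := hC x (hΓE hx)
    have hyc : ‖y - c‖ ≤ s := by
      by_contra h
      push Not at h
      have hfar : ∀ v ∈ Γ, s < ‖v - c‖ → 9 * s ≤ ‖v - c‖ := by
        intro v hv hvc
        obtain ⟨c', hc', hvc'⟩ := hC v (hΓE hv)
        have hne : c ≠ c' := by
          rintro rfl
          linarith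
        have h1 := hsep c hc c' hc' hne
        have : ‖c - c'‖ ≤ ‖v - c'‖ + ‖v - c‖ := by
          calc _ = ‖(v - c') - (v - c)‖ := by ring_nf
            _ ≤ _ := norm_sub_le _ _
        linarith
      have hiv := hΓ.intermediate_value hx hy (f := fun v => ‖v - c‖) (by fun_prop)
      obtain ⟨v, hv, hvs⟩ := hiv (show 2 * s ∈ Icc _ _ from
        ⟨by linarith, by linarith [hfar y hy h]⟩)
      simp only at hvs
      have := hfar v hv (by linarith)
      linarith
    calc ‖y - x‖ = ‖(y - c) - (x - c)‖ := by ring_nf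
      _ ≤ ‖y - c‖ + ‖x - c‖ := norm_sub_le _ _
      _ ≤ 2 * ε := by linarith
  have : ‖y - x‖ ≤ 0 := le_of_forall_pos_le_add fun ε hε => by
    linarith [key (ε / 2) (by positivity)]
  exact (sub_eq_zero.1 (norm_le_zero_iff.1 this)).symm

/-- The Cantor set and its Cauchy transform. -/
theorem exists_rudin : ∃ (E : Set ℂ) (f : ℂ → ℂ) (b A : ℝ), 1 ≤ b ∧ 0 < A ∧
    IsCompact E ∧ E.Nonempty ∧ WellCovered E ∧ E ⊆ closedBall 0 1 ∧ Continuous f ∧
    (∀ z, z ∉ E → DifferentiableAt ℂ f z) ∧ (∀ z, ‖f z‖ ≤ A) ∧ (∀ z, ‖z * f z‖ ≤ A) ∧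
    (∀ z, 1 ≤ ‖z‖ → ‖z * f z - 1‖ ≤ A / ‖z‖) ∧
    ∀ t : ℂ, (∃ z ∈ E, ∃ z' ∈ E, t = z - z') → (∃ z ∈ E, ∃ z' ∈ E, b * t = z - z') →
      (∃ z ∈ E, ∃ z' ∈ E, b ^ 2 * t = z - z') → t = 0 := by
  obtain ⟨b, K, hb, hK⟩ : ∃ b K : ℕ, 1000 ≤ b ∧ 2 * K = b ^ 2 := ⟨1000, 500000, le_rfl, by norm_num⟩
  have hb' : (1000 : ℝ) ≤ b := by exact_mod_cast hb
  set A₀ : ℝ := 8 * (b ^ 3 + 1) with hA₀
  have hA₀pos : 0 < A₀ := by positivity
  have hgeo : ∀ z n, dist (fn b K n z) (fn b K (n + 1) z) ≤ A₀ * wt z / 2 / 2 ^ n := by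
    intro z n
    rw [dist_comm, dist_eq_norm]
    refine (norm_fn_succ_sub_le hb hK n z).trans (le_of_eq ?_)
    rw [hA₀]
    ring
  choose f hf using fun z => cauchySeq_tendsto_of_complete
    (cauchySeq_of_le_geometric_two (hgeo z))
  have hdist : ∀ z n, dist (fn b K n z) (f z) ≤ A₀ * wt z / 2 ^ n := fun z n =>
    dist_le_of_le_geometric_two_of_tendsto (hgeo z) (hf z) n
  have hunif : TendstoUniformly (fn b K) f atTop := by
    rw [Metric.tendstoUniformly_iff]
    intro ε hε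
    have h1 : Tendsto (fun n : ℕ => A₀ * (1 / 2) ^ n) atTop (𝓝 (A₀ * 0)) :=
      (tendsto_pow_atTop_nhds_zero_of_lt_one (by norm_num) (by norm_num)).const_mul A₀
    rw [mul_zero] at h1
    filter_upwards [h1.eventually (gt_mem_nhds hε)] with n hn z
    rw [dist_comm]
    refine (hdist z n).trans_lt (lt_of_le_of_lt ?_ hn)
    have := wt_le_one z
    rw [one_div, inv_pow, ← div_eq_mul_inv]
    gcongr
    nlinarith
  have hker : ∀ z, ‖f z - ker z‖ ≤ A₀ * wt z := by
    intro z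
    have := hdist z 0
    rwa [dist_comm, dist_eq_norm, pow_zero, div_one] at this
  have hfb : ∀ z, ‖f z‖ ≤ A₀ + 1 := by
    intro z
    have h1 := norm_le_norm_sub_add (f z) (ker z)
    have h2 := hker z
    have h3 := norm_ker_le z
    have h4 := wt_le_one z
    nlinarith
  have hzf : ∀ z, 1 ≤ ‖z‖ → ‖z * f z - 1‖ ≤ A₀ / ‖z‖ := by
    intro z hz
    have hz0 : z ≠ 0 := norm_pos_iff.1 (by linarith)
    have h1 : z * f z - 1 = z * (f z - ker z) := by
      rw [ker_of_one_le hz]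
      field_simp
    rw [h1, norm_mul]
    calc _ ≤ ‖z‖ * (A₀ * wt z) := by gcongr; exact hker z
      _ = _ := by rw [wt_of_one_le hz]; field_simp
  have hsub : (⋂ n, En b K n) ⊆ closedBall 0 1 := iInter_subset (En b K) 0
  refine ⟨⋂ n, En b K n, f, b, A₀ + 1, by linarith, by linarith,
    (isCompact_closedBall 0 1).of_isClosed_subset (isClosed_iInter (isClosed_En b K)) hsub,
    ⟨0, mem_iInter.2 (zero_mem_En hb hK)⟩, wellCovered hb, hsub,
    hunif.continuous (Frequently.of_forall (continuous_fn b K)), fun z hz => ?_, hfb,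
    fun z => ?_, fun z hz => (hzf z hz).trans (by gcongr; linarith), ?_⟩
  · obtain ⟨n, hn⟩ : ∃ n, z ∉ En b K n := by simpa using hz
    have hopen : IsOpen (En b K n)ᶜ := (isClosed_En b K n).isOpen_compl
    refine (hunif.tendstoLocallyUniformly.tendstoLocallyUniformlyOn.differentiableOn ?_
      hopen).differentiableAt (hopen.mem_nhds hn)
    filter_upwards [eventually_ge_atTop n] with m hm w hw
    exact (differentiableAt_fn b K m w fun h => hw (En_antitone hb hK hm h)).differentiableWithinAt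
  · rcases le_total 1 ‖z‖ with hz | hz
    · have h1 := norm_le_norm_sub_add (z * f z) 1
      have h2 := (hzf z hz).trans (div_le_self hA₀pos.le hz)
      rw [norm_one] at h1
      linarith
    · rw [norm_mul]
      calc _ ≤ 1 * (A₀ + 1) := by gcongr; exact hfb z
        _ = _ := one_mul _
  · rintro t ⟨z, hz, z', hz', h⟩ ⟨w, hw, w', hw', h'⟩ ⟨y, hy, y', hy', h''⟩
    rw [mem_iInter] at hz hz' hw hw' hy hy'
    have key : ∀ n, (b : ℝ) ^ n * ‖t‖ ≤ 2 := fun n => norm_le_of_sub hb hK n t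
      ⟨z, hz n, z', hz' n, h⟩ ⟨w, hw n, w', hw' n, by simpa using h'⟩
      ⟨y, hy n, y', hy' n, by simpa using h''⟩
    by_contra ht
    have htpos : 0 < ‖t‖ := norm_pos_iff.2 ht
    obtain ⟨n, hn⟩ := pow_unbounded_of_one_lt (2 / ‖t‖) (by linarith : (1 : ℝ) < b)
    rw [div_lt_iff₀ htpos] at hn
    linarith [key n]

end Pool.Agent.Lib.MP_2a3b48_an
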