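import Mathlib
import Pool.Agent.Lib.MP_2a3b48_an.Defs
import Pool.Agent.Lib.MP_2a3b48_an.Rudin

/-!
A totally disconnected compact subset of `ℂ³` whose rational hull has interior
(a variant of Henkin's example).
-/

open Set Metric Filter Topology Complex

namespace Pool.Agent.Lib.MP_2a3b48_an

/-- Bounded continuous functions that are holomorphic off `E`. -/
def Good (E : Set ℂ) (h : ℂ → ℂ) : Prop :=
  Continuous h ∧ (∃ M, ∀ z, ‖h z‖ ≤ M) ∧ ∀ z, z ∉ E → DifferentiableAt ℂ h z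

theorem Good.const (E : Set ℂ) (c : ℂ) : Good E fun _ => c :=
  ⟨continuous_const, ⟨‖c‖, fun _ => le_rfl⟩, fun _ _ => differentiableAt_const c⟩

theorem Good.add {E : Set ℂ} {g h : ℂ → ℂ} (hg : Good E g) (hh : Good E h) :
    Good E fun z => g z + h z := by
  obtain ⟨g1, ⟨M, g2⟩, g3⟩ := hg
  obtain ⟨h1, ⟨M', h2⟩, h3⟩ := hh
  exact ⟨g1.add h1, ⟨M + M', fun z => (norm_add_le _ _).trans (add_le_add (g2 z) (h2 z))⟩,
    fun z hz => (g3 z hz).add (h3 z hz)⟩

theorem Good.mul {E : Set ℂ} {g h : ℂ → ℂ} (hg : Good E g) (hh : Good E h) :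
    Good E fun z => g z * h z := by
  obtain ⟨g1, ⟨M, g2⟩, g3⟩ := hg
  obtain ⟨h1, ⟨M', h2⟩, h3⟩ := hh
  exact ⟨g1.mul h1, ⟨M * M', fun z => (norm_mul_le _ _).trans
    (mul_le_mul (g2 z) (h2 z) (norm_nonneg _) ((norm_nonneg _).trans (g2 z)))⟩,
    fun z hz => (g3 z hz).mul (h3 z hz)⟩

theorem Good.eval {E : Set ℂ} {N : ℕ} {g : ℂ → Fin N → ℂ} (hg : ∀ i, Good E fun z => g z i)
    (p : MvPolynomial (Fin N) ℂ) : Good E fun z => MvPolynomial.eval (g z) p := by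
  induction p using MvPolynomial.induction_on with
  | C a => simpa using Good.const E a
  | add p q hp hq => simpa using hp.add hq
  | mul_X p i hp => simpa using hp.mul (hg i)

/-- Henkin's map. -/
noncomputable def henkin (f : ℂ → ℂ) (b : ℂ) (z₁ z₂ z₃ : ℂ) : Fin 3 → ℂ :=
  ![f z₁ * f z₂ * f z₃, (z₁ + z₂ / b) * (f z₁ * f z₂ * f z₃),
    (z₁ + z₃ / b ^ 2) * (f z₁ * f z₂ * f z₃)]

theorem good_lin {E : Set ℂ} {f : ℂ → ℂ} (hf : Good E f) (hzf : Good E fun z => z * f z)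
    (α β : ℂ) {h : ℂ → ℂ} (hh : ∀ z, h z = α * f z + β * (z * f z)) : Good E h := by
  rw [funext hh]
  exact ((Good.const E α).mul hf).add ((Good.const E β).mul hzf)

theorem henkin_mem_ratHull {E : Set ℂ} (hE : IsCompact E) (hne : E.Nonempty)
    (hcov : WellCovered E) {f : ℂ → ℂ} (hf : Good E f) (hzf : Good E fun z => z * f z)
    (b z₁ z₂ z₃ : ℂ) :
    henkin f b z₁ z₂ z₃ ∈
      ratHull ((fun q : ℂ × ℂ × ℂ => henkin f b q.1 q.2.1 q.2.2) '' (E ×ˢ E ×ˢ E)) := by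
  intro p
  by_contra hp
  set q := p - MvPolynomial.C (MvPolynomial.eval (henkin f b z₁ z₂ z₃) p) with hq
  have ap : ∀ {h : ℂ → ℂ}, Good E h → (∀ z ∈ E, h z ≠ 0) → ∀ z, h z ≠ 0 := fun hh h0 =>
    ne_zero_of_ne_zero_on hE hne hcov hh.1 hh.2.1 hh.2.2 h0
  have h0 : ∀ x ∈ E, ∀ y ∈ E, ∀ w ∈ E, MvPolynomial.eval (henkin f b x y w) q ≠ 0 := by
    intro x hx y hy w hw h
    rw [hq, map_sub, MvPolynomial.eval_C, sub_eq_zero] at h
    exact hp ⟨_, ⟨(x, y, w), ⟨hx, hy, hw⟩, rfl⟩, h⟩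
  have h1 : ∀ x, ∀ y ∈ E, ∀ w ∈ E, MvPolynomial.eval (henkin f b x y w) q ≠ 0 := by
    intro x y hy w hw
    refine ap (Good.eval (g := fun x => henkin f b x y w) (fun i => ?_) q)
      (fun x hx => h0 x hx y hy w hw) x
    fin_cases i
    · exact good_lin hf hzf (f y * f w) 0 fun z => by simp [henkin]; ring
    · exact good_lin hf hzf (y / b * (f y * f w)) (f y * f w) fun z => by simp [henkin]; ring
    · exact good_lin hf hzf (w / b ^ 2 * (f y * f w)) (f y * f w) fun z => by simp [henkin]; ring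
  have h2 : ∀ x y, ∀ w ∈ E, MvPolynomial.eval (henkin f b x y w) q ≠ 0 := by
    intro x y w hw
    refine ap (Good.eval (g := fun y => henkin f b x y w) (fun i => ?_) q)
      (fun y hy => h1 x y hy w hw) y
    fin_cases i
    · exact good_lin hf hzf (f x * f w) 0 fun z => by simp [henkin]; ring
    · exact good_lin hf hzf (x * (f x * f w)) (f x * f w / b) fun z => by simp [henkin]; ring
    · exact good_lin hf hzf ((x + w / b ^ 2) * (f x * f w)) 0 fun z => by simp [henkin]; ring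
  have h3 : ∀ x y w, MvPolynomial.eval (henkin f b x y w) q ≠ 0 := by
    intro x y w
    refine ap (Good.eval (g := fun w => henkin f b x y w) (fun i => ?_) q)
      (fun w hw => h2 x y w hw) w
    fin_cases i
    · exact good_lin hf hzf (f x * f y) 0 fun z => by simp [henkin]
    · exact good_lin hf hzf ((x + y / b) * (f x * f y)) 0 fun z => by simp [henkin]; ring
    · exact good_lin hf hzf (x * (f x * f y)) (f x * f y / b ^ 2) fun z => by simp [henkin]; ring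
  exact h3 z₁ z₂ z₃ (by simp [hq])

/-- Collapsing a closed subset of a compact totally disconnected space to a point. -/
theorem isTotallyDisconnected_range {Ω Z : Type*} [TopologicalSpace Ω] [CompactSpace Ω]
    [T2Space Ω] [TotallyDisconnectedSpace Ω] [TopologicalSpace Z] [T2Space Z] {G : Ω → Z}
    (hG : Continuous G) (z₀ : Z) (hinj : ∀ ω ω', G ω = G ω' → G ω ≠ z₀ → ω = ω') :
    IsTotallyDisconnected (range G) := by
  have key : ∀ Γ ⊆ range G, IsPreconnected Γ → ∀ x ∈ Γ, ∀ y ∈ Γ, x ≠ z₀ → x = y := by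
    intro Γ hΓ hc x hx y hy hx0
    by_contra hxy
    obtain ⟨ω, rfl⟩ := hΓ hx
    have hopen : IsOpen (G ⁻¹' {y, z₀}ᶜ) :=
      ((Set.toFinite {y, z₀}).isClosed.isOpen_compl).preimage hG
    obtain ⟨U, hU, hωU, hUsub⟩ := isTopologicalBasis_isClopen.exists_subset_of_mem_open
      (show ω ∈ G ⁻¹' {y, z₀}ᶜ by simp [hxy, hx0]) hopen
    have hU' : IsClopen U := hU
    have h1 : IsClosed (G '' U) := (hU'.isClosed.isCompact.image hG).isClosed
    have h2 : IsClosed (G '' Uᶜ) := (hU'.compl.isClosed.isCompact.image hG).isClosed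
    have hcov : Γ ⊆ G '' U ∪ G '' Uᶜ := by
      rw [← image_union, union_compl_self, image_univ]
      exact hΓ
    obtain ⟨ω', rfl⟩ := hΓ hy
    have hω' : ω' ∈ Uᶜ := fun h => by simpa using hUsub h
    obtain ⟨_, -, ⟨a, ha, rfl⟩, ⟨a', ha', haa'⟩⟩ := (isPreconnected_closed_iff.1 hc) _ _ h1 h2 hcov
      ⟨_, hx, ω, hωU, rfl⟩ ⟨_, hy, ω', hω', rfl⟩
    have hne : G a ≠ z₀ := fun h => by simpa [h] using hUsub ha
    exact ha' (hinj a a' haa'.symm hne ▸ ha)
  intro Γ hΓ hc x hx y hy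
  by_cases hx0 : x = z₀
  · by_cases hy0 : y = z₀
    · rw [hx0, hy0]
    · exact (key Γ hΓ hc y hy x hx hy0).symm
  · exact key Γ hΓ hc x hx y hy hx0

theorem exists_solution {E : Set ℂ} (hE : E ⊆ closedBall 0 1) {f : ℂ → ℂ} {b A : ℝ} (hb : 1 ≤ b)
    (hA : 0 < A) (hd : ∀ z, z ∉ E → DifferentiableAt ℂ f z) (hfb : ∀ z, ‖f z‖ ≤ A)
    (hzf : ∀ z, ‖z * f z‖ ≤ A) (hzf' : ∀ z, 1 ≤ ‖z‖ → ‖z * f z - 1‖ ≤ A / ‖z‖) :
    ∃ ε > 0, ∀ x s t : ℂ, x ≠ 0 → ‖x‖ < ε → ‖s‖ ≤ 1 → ‖t‖ ≤ 1 →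
      ∃ ξ, f ξ * f (b * (s - ξ)) * f (b ^ 2 * (t - ξ)) = x := by
  set R : ℝ := 2 * A + 3 with hR
  have hRpos : 0 < R := by linarith
  have hb2 : 1 ≤ b ^ 2 := one_le_pow₀ hb
  have hlow : ∀ w : ℂ, R - 1 ≤ ‖w‖ → 1 / (2 * ‖w‖) ≤ ‖f w‖ := by
    intro w hw
    have hw0 : 0 < ‖w‖ := by linarith
    have h1 := hzf' w (by linarith)
    have h2 : A / ‖w‖ ≤ 1 / 2 := by
      rw [div_le_div_iff₀ hw0 (by norm_num)]
      linarith
    have h3 := norm_sub_norm_le 1 (w * f w)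
    rw [norm_sub_rev, norm_one, norm_mul] at h3
    rw [div_le_iff₀ (by positivity)]
    linarith
  have hdiff : ∀ w : ℂ, R - 1 ≤ ‖w‖ → DifferentiableAt ℂ f w := by
    intro w hw
    refine hd w fun h => ?_
    have := hE h
    rw [mem_closedBall, dist_zero_right] at this
    linarith
  refine ⟨1 / (2 * R) * (1 / (2 * (b * (R + 1)))) * (1 / (2 * (b ^ 2 * (R + 1)))) / 2,
    by positivity, fun x s t hx0 hx hs ht => ?_⟩
  let φ : ℂ → ℂ := fun ξ => f ξ * f (b * (s - ξ)) * f (b ^ 2 * (t - ξ))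
  let ψ : ℂ → ℂ := fun u => if u = 0 then 0 else φ u⁻¹
  have hψ0 : ψ 0 = 0 := by simp [ψ]
  have hψ : ∀ u, u ≠ 0 → ψ u = φ u⁻¹ := fun u hu => by simp [ψ, hu]
  have hn1 : ∀ ξ r : ℂ, ∀ c : ℝ, 1 ≤ c → R ≤ ‖ξ‖ → ‖r‖ ≤ 1 → R - 1 ≤ ‖c * (r - ξ)‖ := by
    intro ξ r c hc hξ hr
    have := norm_sub_norm_le ξ r
    rw [norm_sub_rev] at this
    rw [norm_mul, Complex.norm_real, Real.norm_of_nonneg (by linarith)]
    nlinarith
  have hn2 : ∀ ξ r : ℂ, ∀ c : ℝ, 1 ≤ c → ‖ξ‖ = R → ‖r‖ ≤ 1 → ‖c * (r - ξ)‖ ≤ c * (R + 1) := by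
    intro ξ r c hc hξ hr
    have := norm_sub_le r ξ
    rw [norm_mul, Complex.norm_real, Real.norm_of_nonneg (by linarith)]
    gcongr
    linarith
  have hb2C : ((b : ℂ)) ^ 2 = ((b ^ 2 : ℝ) : ℂ) := by push_cast; rfl
  have hinv : ∀ u : ℂ, u ≠ 0 → ‖u‖ ≤ 1 / R → R ≤ ‖u⁻¹‖ := by
    intro u hu hu'
    rw [norm_inv, le_inv_comm₀ hRpos (norm_pos_iff.2 hu), ← one_div]
    exact hu'
  have hφd : ∀ ξ : ℂ, R ≤ ‖ξ‖ → DifferentiableAt ℂ φ ξ := by
    intro ξ hξ
    refine ((hdiff ξ (by linarith)).mul ?_).mul ?_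
    · exact (hdiff _ (hn1 ξ s b hb hξ hs)).comp ξ (by fun_prop)
    · refine (hdiff (b ^ 2 * (t - ξ)) ?_).comp ξ (f := fun ξ => (b : ℂ) ^ 2 * (t - ξ))
        (by fun_prop)
      rw [hb2C]
      exact hn1 ξ t _ hb2 hξ ht
  have hψd : ∀ u : ℂ, u ≠ 0 → ‖u‖ ≤ 1 / R → DifferentiableAt ℂ ψ u := by
    intro u hu hu'
    have hev : ψ =ᶠ[𝓝 u] fun u => φ u⁻¹ := by
      filter_upwards [isOpen_ne.mem_nhds hu] with v hv using hψ v hv
    rw [hev.differentiableAt_iff]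
    exact (hφd _ (hinv u hu hu')).comp u (differentiableAt_inv hu)
  have hsmall : ∀ᶠ u in 𝓝[≠] (0 : ℂ), u ≠ 0 ∧ ‖u‖ ≤ 1 / R := by
    filter_upwards [self_mem_nhdsWithin,
      mem_nhdsWithin_of_mem_nhds (closedBall_mem_nhds (0 : ℂ) (by positivity : 0 < 1 / R))]
      with u hu hu'
    exact ⟨hu, by simpa using hu'⟩
  have hψc : ContinuousAt ψ 0 := by
    rw [ContinuousAt, hψ0]
    refine squeeze_zero_norm (a := fun u => A * ‖u‖ * A * A) (fun u => ?_) ?_
    · by_cases hu : u = 0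
      · simp [hu, hψ0]
      · rw [hψ u hu]
        simp only [φ, norm_mul]
        have h1 : ‖f u⁻¹‖ ≤ A * ‖u‖ := by
          have := hzf u⁻¹
          rw [norm_mul, norm_inv, inv_mul_le_iff₀ (norm_pos_iff.2 hu)] at this
          linarith
        gcongr
        · exact hfb _
        · exact hfb _
    · have : Continuous fun u : ℂ => A * ‖u‖ * A * A := by fun_prop
      simpa using this.tendsto 0
  have hψd0 : DifferentiableAt ℂ ψ 0 :=
    (analyticAt_of_differentiable_on_punctured_nhds_of_continuousAt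
      (hsmall.mono fun u hu => hψd u hu.1 hu.2) hψc).differentiableAt
  have hdc : DiffContOnCl ℂ ψ (ball 0 (1 / R)) := by
    refine DifferentiableOn.diffContOnCl fun u hu => ?_
    rw [closure_ball _ (by positivity)] at hu
    by_cases hu0 : u = 0
    · rw [hu0]
      exact hψd0.differentiableWithinAt
    · exact (hψd u hu0 (by simpa using hu)).differentiableWithinAt
  have hfne : ∀ w : ℂ, R - 1 ≤ ‖w‖ → f w ≠ 0 := by
    intro w hw
    have : 0 < ‖w‖ := by linarith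
    exact norm_pos_iff.1 (lt_of_lt_of_le (by positivity) (hlow w hw))
  have hball := hdc.ball_subset_image_closedBall (by positivity)
    (ε := 1 / (2 * R) * (1 / (2 * (b * (R + 1)))) * (1 / (2 * (b ^ 2 * (R + 1)))))
    (fun u hu => by
      have hun : ‖u‖ = 1 / R := by simpa using hu
      have hu0 : u ≠ 0 := norm_pos_iff.1 (by rw [hun]; positivity)
      have hξ : ‖u⁻¹‖ = R := by rw [norm_inv, hun]; simp
      rw [hψ0, sub_zero, hψ u hu0]
      simp only [φ, norm_mul]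
      have e1 := hn1 u⁻¹ s b hb hξ.ge hs
      have e2 := hn1 u⁻¹ t _ hb2 hξ.ge ht
      have e3 := hn2 u⁻¹ s b hb hξ hs
      have e4 := hn2 u⁻¹ t _ hb2 hξ ht
      rw [hb2C]
      gcongr
      · simpa only [hξ] using hlow u⁻¹ (by linarith)
      · refine le_trans ?_ (hlow _ e1)
        gcongr
        linarith
      · refine le_trans ?_ (hlow _ e2)
        gcongr
        linarith)
    (by
      refine Frequently.filter_mono (hsmall.mono fun u hu => ?_).frequently nhdsWithin_le_nhds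
      rw [hψ0, hψ u hu.1]
      have hξ := hinv u hu.1 hu.2
      refine mul_ne_zero (mul_ne_zero (hfne _ (by linarith)) (hfne _ (hn1 _ s b hb hξ hs))) ?_
      rw [hb2C]
      exact hfne _ (hn1 _ t _ hb2 hξ ht))
  obtain ⟨u, -, hu⟩ := hball (show x ∈ ball (ψ 0) _ by rw [hψ0]; simpa using hx)
  have hu0 : u ≠ 0 := by
    rintro rfl
    exact hx0 (hu.symm.trans hψ0)
  exact ⟨u⁻¹, (hψ u hu0).symm.trans hu⟩

theorem exists_henkin : ∃ Y : Set (Fin 3 → ℂ), IsCompact Y ∧ IsTotallyDisconnected Y ∧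
    (interior (ratHull Y)).Nonempty := by
  obtain ⟨E, f, b, A, hb, hA, hE, hne, hcov, hsub, hc, hd, hfb, hzf, hzf', hdiff⟩ := exists_rudin
  have hbC : (b : ℂ) ≠ 0 := by exact_mod_cast (by linarith : b ≠ 0)
  have hcont : Continuous fun q : ℂ × ℂ × ℂ => henkin f b q.1 q.2.1 q.2.2 := by
    refine continuous_pi fun i => ?_
    fin_cases i <;> simp [henkin] <;> fun_prop
  refine ⟨(fun q : ℂ × ℂ × ℂ => henkin f b q.1 q.2.1 q.2.2) '' (E ×ˢ E ×ˢ E),
    (hE.prod (hE.prod hE)).image hcont, ?_, ?_⟩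
  · have : CompactSpace E := isCompact_iff_compactSpace.1 hE
    have : TotallyDisconnectedSpace E :=
      totallyDisconnectedSpace_subtype_iff.2 hcov.isTotallyDisconnected
    have hG : Continuous fun q : E × E × E => henkin f b q.1 q.2.1 q.2.2 :=
      hcont.comp (f := fun q : E × E × E => ((q.1 : ℂ), (q.2.1 : ℂ), (q.2.2 : ℂ))) (by fun_prop)
    have := isTotallyDisconnected_range hG 0 (by
      rintro ⟨x, y, w⟩ ⟨x', y', w'⟩ h h0
      have e0 := congrFun h 0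
      have e1 := congrFun h 1
      have e2 := congrFun h 2
      simp only [henkin, Matrix.cons_val_zero, Matrix.cons_val_one, Matrix.cons_val] at e0 e1 e2
      have hx0 : f x * f y * f w ≠ 0 := by
        intro hx
        refine h0 ?_
        funext i
        fin_cases i <;> simp [henkin, hx]
      rw [← e0] at e1 e2
      have e1' := mul_right_cancel₀ hx0 e1
      have e2' := mul_right_cancel₀ hx0 e2
      have f1 : (b : ℂ) * ((x : ℂ) - x') = y' - y := by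
        field_simp at e1'
        linear_combination e1'
      have f2 : (b : ℂ) ^ 2 * ((x : ℂ) - x') = w' - w := by
        field_simp at e2'
        linear_combination e2'
      have ht := hdiff ((x : ℂ) - x') ⟨x, x.2, x', x'.2, rfl⟩ ⟨y', y'.2, y, y.2, f1⟩
        ⟨w', w'.2, w, w.2, f2⟩
      rw [ht, mul_zero] at f1 f2
      exact Prod.ext (Subtype.ext (sub_eq_zero.1 ht)) (Prod.ext
        (Subtype.ext (sub_eq_zero.1 f1.symm).symm) (Subtype.ext (sub_eq_zero.1 f2.symm).symm)))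
    convert this using 1
    ext y
    constructor
    · rintro ⟨⟨x, y, w⟩, ⟨hx, hy, hw⟩, rfl⟩
      exact ⟨(⟨x, hx⟩, ⟨y, hy⟩, ⟨w, hw⟩), rfl⟩
    · rintro ⟨⟨x, y, w⟩, rfl⟩
      exact ⟨(x, y, w), ⟨x.2, y.2, w.2⟩, rfl⟩
  · obtain ⟨ε, hε, hsol⟩ := exists_solution hsub hb hA hd hfb hzf hzf'
    let O : Set (Fin 3 → ℂ) := {y | ‖y 0‖ < ε} ∩ {y | ‖y 1‖ < ‖y 0‖} ∩ {y | ‖y 2‖ < ‖y 0‖}
    have hO : IsOpen O :=
      ((isOpen_lt (by fun_prop) continuous_const).inter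
        (isOpen_lt (by fun_prop) (by fun_prop))).inter (isOpen_lt (by fun_prop) (by fun_prop))
    refine ⟨![((ε / 2 : ℝ) : ℂ), 0, 0], interior_maximal (fun y hy => ?_) hO ?_⟩
    · obtain ⟨⟨h0, h1⟩, h2⟩ := hy
      simp only [mem_ofPred_eq] at h0 h1 h2
      have hpos : 0 < ‖y 0‖ := (norm_nonneg _).trans_lt h1
      have hy0 : y 0 ≠ 0 := norm_pos_iff.1 hpos
      obtain ⟨ξ, hξ⟩ := hsol (y 0) (y 1 / y 0) (y 2 / y 0) hy0 h0
        (by rw [norm_div, div_le_one hpos]; exact h1.le)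
        (by rw [norm_div, div_le_one hpos]; exact h2.le)
      have := henkin_mem_ratHull hE hne hcov ⟨hc, ⟨A, hfb⟩, hd⟩
        ⟨continuous_id.mul hc, ⟨A, hzf⟩, fun z hz => differentiableAt_id.mul (hd z hz)⟩
        b ξ (b * (y 1 / y 0 - ξ)) (b ^ 2 * (y 2 / y 0 - ξ))
      convert this using 1
      funext i
      fin_cases i
      · simp [henkin, hξ]
      · simp [henkin, hξ]
        field_simp
        ring
      · simp [henkin, hξ]
        field_simp
        ring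
    · have h1 : ‖((ε / 2 : ℝ) : ℂ)‖ = ε / 2 := by
        rw [Complex.norm_real, Real.norm_of_nonneg (by positivity)]
      refine ⟨⟨?_, ?_⟩, ?_⟩
      · change ‖((ε / 2 : ℝ) : ℂ)‖ < ε
        rw [h1]
        linarith
      · change ‖(0 : ℂ)‖ < ‖((ε / 2 : ℝ) : ℂ)‖
        rw [h1, norm_zero]
        positivity
      · change ‖(0 : ℂ)‖ < ‖((ε / 2 : ℝ) : ℂ)‖
        rw [h1, norm_zero]
        positivity

end Pool.Agent.Lib.MP_2a3b48_an
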