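import Mathlib

/-!
Elementary one-variable lemmas used in the lifting construction.
-/

open Polynomial Set Metric

namespace Pool.Agent.Lib.MP_2a3b48_an

/-- A preconnected set covered by `k` closed discs of radius `r` has diameter at most `2 k r`. -/
theorem norm_sub_le_of_cover {Γ : Set ℂ} (hΓ : IsPreconnected Γ) (S : Finset ℂ) {r : ℝ}
    (hcov : ∀ v ∈ Γ, ∃ ρ ∈ S, ‖v - ρ‖ ≤ r) {v₀ v₁ : ℂ} (h₀ : v₀ ∈ Γ) (h₁ : v₁ ∈ Γ) :
    ‖v₁ - v₀‖ ≤ 2 * S.card * r := by
  classical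
  by_contra hlt
  push Not at hlt
  obtain ⟨ρ₀, hρ₀, hρ₀'⟩ := hcov v₀ h₀
  have hr : 0 ≤ r := (norm_nonneg _).trans hρ₀'
  have hk : 0 < S.card := Finset.card_pos.2 ⟨ρ₀, hρ₀⟩
  have hk' : (0 : ℝ) < S.card := by exact_mod_cast hk
  set L := ‖v₁ - v₀‖ with hL
  have hLpos : 0 ≤ L := norm_nonneg _
  have hiv := hΓ.intermediate_value h₀ h₁ (f := fun v => ‖v - v₀‖) (by fun_prop)
  simp only [sub_self, norm_zero] at hiv
  have hex : ∀ j : ℕ, j ∈ Finset.range (S.card + 1) →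
      ∃ v ∈ Γ, ∃ ρ ∈ S, ‖v - v₀‖ = j * (L / S.card) ∧ ‖v - ρ‖ ≤ r := by
    intro j hj
    have hj' : (j : ℝ) ≤ S.card := by
      exact_mod_cast Nat.lt_succ_iff.1 (Finset.mem_range.1 hj)
    have hmem : (j : ℝ) * (L / S.card) ∈ Icc 0 L := by
      refine ⟨by positivity, ?_⟩
      calc (j : ℝ) * (L / S.card) ≤ S.card * (L / S.card) := by gcongr
        _ = L := by field_simp
    obtain ⟨v, hv, hvj⟩ := hiv hmem
    obtain ⟨ρ, hρ, hρ'⟩ := hcov v hv
    exact ⟨v, hv, ρ, hρ, hvj, hρ'⟩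
  choose! v hv ρ hρ hvj hρ' using hex
  obtain ⟨i, hi, j, hj, hij, hρij⟩ := Finset.exists_ne_map_eq_of_card_lt_of_maps_to
    (s := Finset.range (S.card + 1)) (t := S) (by simp) (f := ρ) (fun j hj => hρ j hj)
  have h1 : ‖v i - v j‖ ≤ 2 * r := by
    calc ‖v i - v j‖ = ‖(v i - ρ i) - (v j - ρ j)‖ := by rw [hρij]; ring_nf
      _ ≤ ‖v i - ρ i‖ + ‖v j - ρ j‖ := norm_sub_le _ _
      _ ≤ 2 * r := by linarith [hρ' i hi, hρ' j hj]
  have h2 : |(i : ℝ) * (L / S.card) - j * (L / S.card)| ≤ ‖v i - v j‖ := by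
    rw [← hvj i hi, ← hvj j hj]
    calc |‖v i - v₀‖ - ‖v j - v₀‖| ≤ ‖(v i - v₀) - (v j - v₀)‖ := abs_norm_sub_norm_le _ _
      _ = ‖v i - v j‖ := by ring_nf
  have h3 : (1 : ℝ) ≤ |(i : ℝ) - j| := by
    have : (1 : ℤ) ≤ |(i : ℤ) - j| := Int.one_le_abs (sub_ne_zero.2 (by exact_mod_cast hij))
    exact_mod_cast this
  have h4 : 2 * r < L / S.card := by
    rw [lt_div_iff₀ hk']
    linarith
  rw [← sub_mul, abs_mul, abs_of_nonneg (by positivity : 0 ≤ L / S.card)] at h2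
  nlinarith

/-- Every value `w` is taken near `v` if it is near `p v`. -/
theorem exists_root_near (p : ℂ[X]) (hD : 0 < p.natDegree) (hlc : 1 ≤ ‖p.leadingCoeff‖)
    (v w : ℂ) :
    ∃ ρ ∈ (p - C w).roots, ‖v - ρ‖ ^ p.natDegree ≤ ‖p.eval v - w‖ := by
  have hs := IsAlgClosed.splits (p - C w)
  have hcard : (p - C w).roots.card = p.natDegree := by
    rw [← hs.natDegree_eq_card_roots, natDegree_sub_C]
  have hne : (p - C w).roots ≠ 0 := by
    intro h
    rw [h] at hcard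
    simp at hcard
    omega
  obtain ⟨ρ, hρ, hmin⟩ := Multiset.exists_min_image (fun ρ => ‖v - ρ‖) hne
  refine ⟨ρ, hρ, ?_⟩
  have hlc' : (p - C w).leadingCoeff = p.leadingCoeff :=
    leadingCoeff_sub_of_degree_lt (degree_C_le.trans_lt (natDegree_pos_iff_degree_pos.1 hD))
  have hev := hs.eval_eq_prod_roots v
  rw [eval_sub, eval_C, hlc'] at hev
  rw [hev, norm_mul]
  have h1 : ‖v - ρ‖ ^ p.natDegree ≤ ‖(Multiset.map (fun x => v - x) (p - C w).roots).prod‖ := by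
    have h2 : ‖(Multiset.map (fun x => v - x) (p - C w).roots).prod‖ =
        (Multiset.map (fun x => ‖v - x‖) (p - C w).roots).prod := by
      induction (p - C w).roots using Multiset.induction_on with
      | empty => simp
      | cons a s ih => simp [ih]
    rw [h2, ← hcard]
    have h3 := Multiset.prod_map_le_prod_map₀ (s := (p - C w).roots) (fun _ => ‖v - ρ‖)
      (fun x => ‖v - x‖) (fun _ _ => norm_nonneg _) hmin
    simpa using h3
  calc ‖v - ρ‖ ^ p.natDegree ≤ 1 * ‖(Multiset.map (fun x => v - x) (p - C w).roots).prod‖ := by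
        rw [one_mul]; exact h1
    _ ≤ _ := by gcongr

theorem eval_eq_of_mem_roots {p : ℂ[X]} {w ρ : ℂ} (h : ρ ∈ (p - C w).roots) : p.eval ρ = w := by
  have := isRoot_of_mem_roots h
  rw [IsRoot.def, eval_sub, eval_C] at this
  exact sub_eq_zero.1 this

/-- Pulling back small connected sets under a polynomial. -/
theorem norm_sub_le_of_eval_close (p : ℂ[X]) (hD : 0 < p.natDegree) (hlc : 1 ≤ ‖p.leadingCoeff‖)
    {Γ : Set ℂ} (hΓ : IsPreconnected Γ) {w : ℂ} {r : ℝ} (hr : 0 ≤ r)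
    (h : ∀ v ∈ Γ, ‖p.eval v - w‖ ≤ r ^ p.natDegree) {v₀ v₁ : ℂ} (h₀ : v₀ ∈ Γ) (h₁ : v₁ ∈ Γ) :
    ‖v₁ - v₀‖ ≤ 2 * p.natDegree * r := by
  classical
  have h1 := norm_sub_le_of_cover hΓ (p - C w).roots.toFinset (r := r) (fun v hv => by
    obtain ⟨ρ, hρ, hρ'⟩ := exists_root_near p hD hlc v w
    exact ⟨ρ, Multiset.mem_toFinset.2 hρ,
      le_of_pow_le_pow_left₀ hD.ne' hr (hρ'.trans (h v hv))⟩) h₀ h₁
  have h2 : (p - C w).roots.toFinset.card ≤ p.natDegree := by
    refine (Multiset.toFinset_card_le _).trans ((card_roots' _).trans ?_)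
    rw [natDegree_sub_C]
  have h3 : ((p - C w).roots.toFinset.card : ℝ) ≤ p.natDegree := by exact_mod_cast h2
  calc _ ≤ _ := h1
    _ ≤ _ := by gcongr

/-- If `|a| ≥ 1 + |β|` then `w ↦ a w^d - β` maps the outside of the unit disc outside. -/
theorem norm_le_one_of_step {a β w : ℂ} {d : ℕ} (hd : 0 < d) (ha : 1 + ‖β‖ ≤ ‖a‖)
    (h : ‖a * w ^ d - β‖ ≤ 1) : ‖w‖ ≤ 1 := by
  by_contra hw
  push Not at hw
  have h1 : 1 < ‖w‖ ^ d := one_lt_pow₀ hw hd.ne'
  have h2 : ‖a * w ^ d‖ ≤ ‖a * w ^ d - β‖ + ‖β‖ := by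
    calc ‖a * w ^ d‖ = ‖(a * w ^ d - β) + β‖ := by ring_nf
      _ ≤ _ := norm_add_le _ _
  rw [norm_mul, norm_pow] at h2
  have h3 : 0 < ‖a‖ := by linarith [norm_nonneg β]
  nlinarith

/-- Thinning: connected subsets of the preimage of the unit disc are small when `β` is large. -/
theorem norm_sub_le_of_step {a β : ℂ} {d : ℕ} (hd : 0 < d) (ha : 1 + ‖β‖ ≤ ‖a‖) {M : ℝ}
    (hM : 2 ≤ M) (hβ : M ≤ ‖β‖) {Γ : Set ℂ} (hΓ : IsPreconnected Γ)
    (h : ∀ w ∈ Γ, ‖a * w ^ d - β‖ ≤ 1) {w₀ w₁ : ℂ} (h₀ : w₀ ∈ Γ) (h₁ : w₁ ∈ Γ) :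
    ‖w₁ - w₀‖ ≤ 6 / M := by
  classical
  have hMpos : 0 < M := by linarith
  have hβpos : 0 < ‖β‖ := by linarith
  have hβ0 : β ≠ 0 := norm_pos_iff.1 hβpos
  have ha0 : a ≠ 0 := norm_pos_iff.1 (by linarith)
  have hd' : (0 : ℝ) < d := by exact_mod_cast hd
  have hd1 : (1 : ℝ) ≤ d := by exact_mod_cast hd
  have hdeg : (C a * X ^ d : ℂ[X]).natDegree = d := natDegree_C_mul_X_pow d a ha0
  have hne : (C a * X ^ d - C β : ℂ[X]) ≠ 0 := by
    intro h0
    have := congrArg natDegree h0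
    rw [natDegree_sub_C, hdeg, natDegree_zero] at this
    omega
  have h1 := norm_sub_le_of_cover hΓ (C a * X ^ d - C β : ℂ[X]).roots.toFinset
    (r := 3 / (d * M)) (fun w hw => by
      have hw1 := norm_le_one_of_step hd ha (h w hw)
      set t : ℂ := (a * w ^ d - β) / β with ht
      have ht1 : ‖t‖ ≤ 1 / M := by
        rw [ht, norm_div]
        calc _ ≤ 1 / ‖β‖ := by gcongr; exact h w hw
          _ ≤ 1 / M := by gcongr
      have ht2 : ‖t‖ ≤ 1 / 2 := ht1.trans (by gcongr)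
      have hlog := Complex.norm_log_one_add_half_le_self ht2
      have h1t : 1 + t ≠ 0 := by
        intro h0
        have : t = -1 := by linear_combination h0
        rw [this] at ht2
        norm_num at ht2
      set x : ℂ := -(Complex.log (1 + t) / d) with hx
      have hxn : ‖x‖ ≤ 3 / 2 / (d * M) := by
        rw [hx, norm_neg, norm_div, Complex.norm_natCast]
        calc _ ≤ 3 / 2 * (1 / M) / d := by gcongr; exact hlog.trans (by gcongr)
          _ = _ := by field_simp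
      have hx1 : ‖x‖ ≤ 1 := by
        refine hxn.trans ?_
        rw [div_le_one (by positivity)]
        nlinarith
      refine ⟨w * Complex.exp x, ?_, ?_⟩
      · rw [Multiset.mem_toFinset, mem_roots hne, IsRoot.def]
        have hdC : (d : ℂ) ≠ 0 := by exact_mod_cast hd.ne'
        have he : Complex.exp x ^ d = (1 + t)⁻¹ := by
          rw [← Complex.exp_nat_mul, hx, mul_neg, mul_div_cancel₀ _ hdC, Complex.exp_neg,
            Complex.exp_log h1t]
        have hw' : a * w ^ d = β * (1 + t) := by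
          rw [ht]
          field_simp
          ring
        simp only [eval_sub, eval_mul, eval_C, eval_pow, eval_X, mul_pow, he]
        rw [← mul_assoc, hw']
        field_simp
        ring
      · calc ‖w - w * Complex.exp x‖ = ‖w‖ * ‖Complex.exp x - 1‖ := by
              rw [← norm_mul, ← norm_neg]
              ring_nf
          _ ≤ 1 * (2 * ‖x‖) := by
              gcongr
              exact Complex.norm_exp_sub_one_le hx1
          _ ≤ 1 * (2 * (3 / 2 / (d * M))) := by gcongr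
          _ = 3 / (d * M) := by ring) h₀ h₁
  have h2 : (C a * X ^ d - C β : ℂ[X]).roots.toFinset.card ≤ d := by
    refine (Multiset.toFinset_card_le _).trans ((card_roots' _).trans ?_)
    rw [natDegree_sub_C, hdeg]
  have h3 : ((C a * X ^ d - C β : ℂ[X]).roots.toFinset.card : ℝ) ≤ d := by exact_mod_cast h2
  calc _ ≤ _ := h1
    _ ≤ 2 * d * (3 / (d * M)) := by gcongr
    _ = 6 / M := by field_simp; ring

/-- A nontrivial `d`-th root of unity close to `1`. -/
theorem exists_root_of_unity {d : ℕ} (hd : 7 ≤ d) :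
    ∃ ζ : ℂ, ζ ≠ 1 ∧ ζ ^ d = 1 ∧ ‖ζ - 1‖ ≤ 14 / d := by
  have hprim := Complex.isPrimitiveRoot_exp d (by omega)
  have hd' : (7 : ℝ) ≤ d := by exact_mod_cast hd
  have hn : ‖2 * (Real.pi : ℂ) * Complex.I / d‖ ≤ 7 / d := by
    rw [norm_div, Complex.norm_natCast]
    gcongr
    simp only [norm_mul, Complex.norm_I, Complex.norm_real, Real.norm_eq_abs, mul_one,
      Complex.norm_ofNat, abs_of_pos Real.pi_pos]
    linarith [Real.pi_lt_d2]
  refine ⟨_, hprim.ne_one (by omega), hprim.pow_eq_one, ?_⟩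
  calc _ ≤ 2 * ‖2 * (Real.pi : ℂ) * Complex.I / d‖ :=
        Complex.norm_exp_sub_one_le (hn.trans (by rw [div_le_one (by linarith)]; exact hd'))
    _ ≤ 2 * (7 / d) := by gcongr
    _ = 14 / d := by ring

end Pool.Agent.Lib.MP_2a3b48_an
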