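import Mathlib
import Pool.Agent.Lib.MP_2a3b48_an.Defs
import Pool.Agent.Lib.MP_2a3b48_an.OneVar

/-!
The lifting construction: from a totally disconnected compact `Y ⊆ ℂ^N` whose rational hull has
interior to a Cantor set `X ⊆ ℂ^(N+1)` whose rational hull has interior and equals the
polynomial hull.
-/

open Set Metric

namespace Pool.Agent.Lib.MP_2a3b48_an

variable {N : ℕ}

theorem ratHull_subset_polyHull {X : Set (Fin N → ℂ)} (hX : IsCompact X) :
    ratHull X ⊆ polyHull X := by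
  intro z hz p
  obtain ⟨x, hx, hxz⟩ := hz p
  have hc : Continuous fun x : Fin N → ℂ => ‖MvPolynomial.eval x p‖ :=
    (MvPolynomial.continuous_eval p).norm
  exact le_csSup (hX.image hc).bddAbove ⟨x, hx, by simp only at hxz ⊢; rw [hxz]⟩

theorem exists_step {Y B : Set (Fin N → ℂ)} (hY : IsCompact Y) (hB : IsCompact B)
    (p lam : MvPolynomial (Fin N) ℂ) (hp : ∀ z ∈ Y, 1 ≤ ‖MvPolynomial.eval z p‖)
    (hlam : ∀ z ∈ B, ‖MvPolynomial.eval z lam‖ ≤ 1 / 4) (M : ℝ) (d₀ : ℕ) :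
    ∃ (a β : MvPolynomial (Fin N) ℂ) (d : ℕ), d₀ ≤ d ∧
      (∀ z ∈ Y, 1 + ‖MvPolynomial.eval z β‖ ≤ ‖MvPolynomial.eval z a‖) ∧
      (∀ z, ‖MvPolynomial.eval z p‖ < 1 / 2 → ‖MvPolynomial.eval z a‖ < 1) ∧
      (∀ z, 2 ≤ ‖MvPolynomial.eval z lam‖ → M ≤ ‖MvPolynomial.eval z β‖) ∧
      (∀ z ∈ B, ‖MvPolynomial.eval z a‖ * (1 / 2) ^ d + ‖MvPolynomial.eval z β‖ ≤ 1 / 2) := by
  obtain ⟨m, hm⟩ := pow_unbounded_of_one_lt M (by norm_num : (1 : ℝ) < 2)
  set β := lam ^ (m + 1) with hβ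
  obtain ⟨L, hL⟩ := hY.exists_bound_of_continuousOn
    (MvPolynomial.continuous_eval β).continuousOn
  set α : ℝ := 1 + |L| with hα
  have hα1 : 1 ≤ α := by linarith [abs_nonneg L]
  obtain ⟨k, hk⟩ := exists_pow_lt_of_lt_one (x := 1 / α) (y := (1 / 2 : ℝ)) (by positivity)
    (by norm_num)
  set a := MvPolynomial.C (α : ℂ) * p ^ k with ha
  have hna : ∀ z, ‖MvPolynomial.eval z a‖ = α * ‖MvPolynomial.eval z p‖ ^ k := by
    intro z
    rw [ha, map_mul, MvPolynomial.eval_C, map_pow, norm_mul, norm_pow, Complex.norm_real,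
      Real.norm_of_nonneg (by linarith)]
  have hnβ : ∀ z, ‖MvPolynomial.eval z β‖ = ‖MvPolynomial.eval z lam‖ ^ (m + 1) := by
    intro z
    rw [hβ, map_pow, norm_pow]
  obtain ⟨A, hA⟩ := hB.exists_bound_of_continuousOn
    (MvPolynomial.continuous_eval a).continuousOn
  obtain ⟨d, hd⟩ := exists_pow_lt_of_lt_one (x := 1 / (4 * (1 + |A|))) (y := (1 / 2 : ℝ))
    (by positivity) (by norm_num)
  refine ⟨a, β, d + d₀, by omega, fun z hz => ?_, fun z hz => ?_, fun z hz => ?_,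
    fun z hz => ?_⟩
  · rw [hna]
    have h1 : 1 ≤ ‖MvPolynomial.eval z p‖ ^ k := one_le_pow₀ (hp z hz)
    have h2 := (hL z hz).trans (le_abs_self L)
    nlinarith
  · rw [hna]
    have h1 : ‖MvPolynomial.eval z p‖ ^ k ≤ (1 / 2) ^ k := by gcongr
    calc α * ‖MvPolynomial.eval z p‖ ^ k ≤ α * (1 / 2) ^ k := by gcongr
      _ < α * (1 / α) := by gcongr
      _ = 1 := by field_simp
  · rw [hnβ]
    calc M ≤ 2 ^ m := hm.le
      _ ≤ 2 ^ (m + 1) := by gcongr <;> norm_num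
      _ ≤ _ := by gcongr
  · have h1 : ‖MvPolynomial.eval z β‖ ≤ 1 / 4 := by
      rw [hnβ]
      calc _ ≤ (1 / 4 : ℝ) ^ (m + 1) := by gcongr; exact hlam z hz
        _ ≤ (1 / 4) ^ 1 := pow_le_pow_of_le_one (by norm_num) (by norm_num) (by omega)
        _ = 1 / 4 := by norm_num
    have h2 : ‖MvPolynomial.eval z a‖ ≤ 1 + |A| := by
      linarith [(hA z hz).trans (le_abs_self A)]
    have h3 : (1 / 2 : ℝ) ^ (d + d₀) ≤ 1 / (4 * (1 + |A|)) :=
      (pow_le_pow_of_le_one (by norm_num) (by norm_num) (by omega)).trans hd.le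
    have h4 : ‖MvPolynomial.eval z a‖ * (1 / 2) ^ (d + d₀) ≤ (1 + |A|) * (1 / (4 * (1 + |A|))) := by
      gcongr
    have h5 : (1 + |A|) * (1 / (4 * (1 + |A|))) = 1 / 4 := by field_simp
    linarith

/-- Countably many normalised polynomials detect the complement of the rational hull. -/
theorem exists_seq_poly {Y : Set (Fin N → ℂ)} (hY : IsCompact Y) :
    ∃ P : ℕ → MvPolynomial (Fin N) ℂ, (∀ j, ∀ z ∈ Y, 1 ≤ ‖MvPolynomial.eval z (P j)‖) ∧
      ∀ z, z ∉ ratHull Y → ∃ j, ‖MvPolynomial.eval z (P j)‖ < 1 / 2 := by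
  let ι := {p : MvPolynomial (Fin N) ℂ // ∀ z ∈ Y, 1 ≤ ‖MvPolynomial.eval z p‖}
  let W : ι → Set (Fin N → ℂ) := fun p => {z | ‖MvPolynomial.eval z p.1‖ < 1 / 2}
  have hW : ∀ p, IsOpen (W p) := fun p =>
    isOpen_lt (MvPolynomial.continuous_eval p.1).norm continuous_const
  obtain ⟨T, hT, hTW⟩ := TopologicalSpace.isOpen_iUnion_countable W hW
  let one : ι := ⟨1, fun z _ => by simp⟩
  obtain ⟨P, hP⟩ := (hT.insert one).exists_eq_range (insert_nonempty _ _)
  refine ⟨fun j => (P j).1, fun j => (P j).2, fun z hz => ?_⟩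
  simp only [ratHull, mem_ofPred_eq, not_forall] at hz
  obtain ⟨q, hq⟩ := hz
  set q' := q - MvPolynomial.C (MvPolynomial.eval z q) with hq'
  obtain ⟨δ, hδ, hδ'⟩ := hY.exists_forall_le' (f := fun y => ‖MvPolynomial.eval y q'‖) (a := 0)
    (MvPolynomial.continuous_eval q').norm.continuousOn (fun y hy => by
      rw [norm_pos_iff, hq', map_sub, MvPolynomial.eval_C, sub_ne_zero]
      intro h
      exact hq ⟨y, hy, h⟩)
  let p : ι := ⟨MvPolynomial.C ((δ⁻¹ : ℝ) : ℂ) * q', fun y hy => by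
    rw [map_mul, MvPolynomial.eval_C, norm_mul, Complex.norm_real,
      Real.norm_of_nonneg (by positivity), ← div_eq_inv_mul, le_div_iff₀ hδ, one_mul]
    exact hδ' y hy⟩
  have hzp : z ∈ ⋃ i, W i := by
    refine mem_iUnion.2 ⟨p, ?_⟩
    simp [W, p, hq']
  rw [← hTW] at hzp
  obtain ⟨p', hp'T, hzp'⟩ := mem_iUnion₂.1 hzp
  obtain ⟨j, hj⟩ : p' ∈ range P := hP ▸ mem_insert_of_mem _ hp'T
  exact ⟨j, by subst hj; exact hzp'⟩

/-- A small ball inside the rational hull and off the set. -/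
theorem exists_ball (hN : 0 < N) {Y : Set (Fin N → ℂ)} (hY : IsCompact Y)
    (hYd : IsTotallyDisconnected Y) (hint : (interior (ratHull Y)).Nonempty) :
    ∃ (z₀ : Fin N → ℂ) (η : ℝ), 0 < η ∧ ball z₀ (2 * η) ⊆ ratHull Y ∧
      Disjoint (ball z₀ (2 * η)) Y := by
  obtain ⟨z₁, hz₁⟩ := hint
  obtain ⟨r, hr, hball⟩ := Metric.isOpen_iff.1 isOpen_interior z₁ hz₁
  have hnot : ¬ ball z₁ r ⊆ Y := by
    intro hsub
    have hss := hYd _ hsub (convex_ball z₁ r).isPreconnected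
    have hmem : z₁ + (fun _ => ((r / 2 : ℝ) : ℂ)) ∈ ball z₁ r := by
      rw [mem_ball, dist_self_add_left, pi_norm_lt_iff hr]
      intro i
      rw [Complex.norm_real, Real.norm_of_nonneg (by positivity)]
      linarith
    have := congrFun (hss hmem (mem_ball_self hr)) ⟨0, hN⟩
    simp only [Pi.add_apply, add_eq_left, Complex.ofReal_eq_zero] at this
    linarith
  obtain ⟨z₀, hz₀, hz₀Y⟩ := not_subset.1 hnot
  obtain ⟨s, hs, hsub⟩ := Metric.isOpen_iff.1 (isOpen_ball.inter hY.isClosed.isOpen_compl) z₀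
    ⟨hz₀, hz₀Y⟩
  refine ⟨z₀, s / 2, by positivity, ?_, ?_⟩
  · rw [show 2 * (s / 2) = s by ring]
    exact fun z hz => interior_subset (hball (hsub hz).1)
  · rw [show 2 * (s / 2) = s by ring]
    exact disjoint_left.2 fun z hz => (hsub hz).2

/-- The iterated fibre polynomials. -/
noncomputable def iter (a β : ℕ → MvPolynomial (Fin N) ℂ) (d : ℕ → ℕ) :
    ℕ → Polynomial (MvPolynomial (Fin N) ℂ)
  | 0 => Polynomial.X
  | n + 1 => Polynomial.C (a n) * iter a β d n ^ d n - Polynomial.C (β n)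

/-- The fibre polynomials over a point `z`. -/
noncomputable def fib (a β : ℕ → MvPolynomial (Fin N) ℂ) (d : ℕ → ℕ) (n : ℕ) (z : Fin N → ℂ) :
    Polynomial ℂ :=
  (iter a β d n).map (MvPolynomial.eval z)

/-- The total degree. -/
def deg (d : ℕ → ℕ) : ℕ → ℕ
  | 0 => 1
  | n + 1 => d n * deg d n

section

variable (a β : ℕ → MvPolynomial (Fin N) ℂ) (d : ℕ → ℕ)

theorem fib_zero (z : Fin N → ℂ) : fib a β d 0 z = Polynomial.X := by
  simp [fib, iter]

theorem fib_succ (n : ℕ) (z : Fin N → ℂ) :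
    fib a β d (n + 1) z = Polynomial.C (MvPolynomial.eval z (a n)) * fib a β d n z ^ d n -
      Polynomial.C (MvPolynomial.eval z (β n)) := by
  simp [fib, iter]

theorem eval_fib_zero (z : Fin N → ℂ) (v : ℂ) : (fib a β d 0 z).eval v = v := by
  simp [fib_zero]

theorem eval_fib_succ (n : ℕ) (z : Fin N → ℂ) (v : ℂ) :
    (fib a β d (n + 1) z).eval v =
      MvPolynomial.eval z (a n) * (fib a β d n z).eval v ^ d n - MvPolynomial.eval z (β n) := by
  simp [fib_succ]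

variable {d} in
theorem deg_pos (hd : ∀ n, 0 < d n) : ∀ n, 0 < deg d n
  | 0 => Nat.one_pos
  | n + 1 => Nat.mul_pos (hd n) (deg_pos hd n)

variable {a d} in
theorem natDegree_fib {z : Fin N → ℂ} (ha : ∀ n, MvPolynomial.eval z (a n) ≠ 0) :
    ∀ n, (fib a β d n z).natDegree = deg d n
  | 0 => by simp [fib_zero, deg]
  | n + 1 => by
    rw [fib_succ, Polynomial.natDegree_sub_C, Polynomial.natDegree_C_mul (ha n),
      Polynomial.natDegree_pow, natDegree_fib ha n, deg]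

variable {a d} in
theorem one_le_leadingCoeff_fib (hd : ∀ n, 0 < d n) {z : Fin N → ℂ}
    (ha : ∀ n, 1 ≤ ‖MvPolynomial.eval z (a n)‖) :
    ∀ n, 1 ≤ ‖(fib a β d n z).leadingCoeff‖
  | 0 => by simp [fib_zero]
  | n + 1 => by
    have ha0 : ∀ n, MvPolynomial.eval z (a n) ≠ 0 := fun n =>
      norm_pos_iff.1 (by linarith [ha n])
    have hpos : 0 < (Polynomial.C (MvPolynomial.eval z (a n)) * fib a β d n z ^ d n).natDegree := by
      rw [Polynomial.natDegree_C_mul (ha0 n), Polynomial.natDegree_pow, natDegree_fib β ha0 n]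
      exact Nat.mul_pos (hd n) (deg_pos hd n)
    rw [fib_succ, Polynomial.leadingCoeff_sub_of_degree_lt
      (Polynomial.degree_C_le.trans_lt (Polynomial.natDegree_pos_iff_degree_pos.1 hpos)),
      Polynomial.leadingCoeff_mul, Polynomial.leadingCoeff_C, Polynomial.leadingCoeff_pow,
      norm_mul, norm_pow]
    have h1 := one_le_pow₀ (n := d n) (one_le_leadingCoeff_fib hd ha n)
    nlinarith [ha n]

variable {a β d} in
theorem norm_eval_fib_le_of_le (hd : ∀ n, 0 < d n) {z : Fin N → ℂ}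
    (ha : ∀ n, 1 + ‖MvPolynomial.eval z (β n)‖ ≤ ‖MvPolynomial.eval z (a n)‖) {v : ℂ} :
    ∀ n, ‖(fib a β d n z).eval v‖ ≤ 1 → ∀ k ≤ n, ‖(fib a β d k z).eval v‖ ≤ 1
  | 0 => fun h k hk => by rwa [Nat.le_zero.1 hk]
  | n + 1 => fun h k hk => by
    rcases Nat.le_succ_iff.1 hk with hk | rfl
    · rw [eval_fib_succ] at h
      exact norm_eval_fib_le_of_le hd ha n (norm_le_one_of_step (hd n) (ha n) h) k hk
    · exact h

theorem eval_fib_eq_of_eq {z : Fin N → ℂ} {v v' : ℂ} {n : ℕ}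
    (h : (fib a β d n z).eval v = (fib a β d n z).eval v') :
    ∀ k, (fib a β d (n + k) z).eval v = (fib a β d (n + k) z).eval v'
  | 0 => h
  | k + 1 => by
    rw [← add_assoc, eval_fib_succ, eval_fib_succ, eval_fib_eq_of_eq h k]

variable {a d} in
/-- The resultant argument. -/
theorem exists_common_zero (hd : ∀ n, 0 < d n) {Y : Set (Fin N → ℂ)}
    (ha : ∀ n, ∀ z ∈ Y, MvPolynomial.eval z (a n) ≠ 0) {z₀ : Fin N → ℂ} (hz₀ : z₀ ∈ ratHull Y)
    (g : Polynomial (MvPolynomial (Fin N) ℂ)) {v₀ : ℂ}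
    (hg : (g.map (MvPolynomial.eval z₀)).eval v₀ = 0) (n : ℕ) :
    ∃ z ∈ Y, ∃ v, (g.map (MvPolynomial.eval z)).eval v = 0 ∧
      (fib a β d n z).eval v = (fib a β d n z₀).eval v₀ := by
  set c := (fib a β d n z₀).eval v₀ with hc
  set f := iter a β d n - Polynomial.C (MvPolynomial.C c) with hf
  have hmap : ∀ z, f.map (MvPolynomial.eval z) = fib a β d n z - Polynomial.C c := by
    intro z
    simp [hf, fib]
  have key : ∀ z, (∀ k, MvPolynomial.eval z (a k) ≠ 0) →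
      (MvPolynomial.eval z (Polynomial.resultant f g (deg d n) g.natDegree) = 0 ↔
        ∃ v, (g.map (MvPolynomial.eval z)).eval v = 0 ∧ (fib a β d n z).eval v = c) := by
    intro z hz
    have hdeg : (fib a β d n z - Polynomial.C c).natDegree = deg d n := by
      rw [Polynomial.natDegree_sub_C, natDegree_fib β hz]
    have hne : fib a β d n z - Polynomial.C c ≠ 0 := by
      intro h0
      rw [h0, Polynomial.natDegree_zero] at hdeg
      have := deg_pos hd n
      omega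
    rw [← Polynomial.resultant_map_map, hmap, ← hdeg,
      Polynomial.resultant_eq_prod_eval _ _ _ Polynomial.natDegree_map_le (IsAlgClosed.splits _),
      mul_eq_zero, Multiset.prod_eq_zero_iff, Multiset.mem_map]
    constructor
    · rintro (h | ⟨v, hv, hv'⟩)
      · exact absurd h (pow_ne_zero _ (Polynomial.leadingCoeff_ne_zero.2 hne))
      · exact ⟨v, hv', eval_eq_of_mem_roots hv⟩
    · rintro ⟨v, hv, hv'⟩
      refine Or.inr ⟨v, ?_, hv⟩
      rw [Polynomial.mem_roots hne, Polynomial.IsRoot.def, Polynomial.eval_sub, hv']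
      simp
  have ha₀ : ∀ k, MvPolynomial.eval z₀ (a k) ≠ 0 := by
    intro k h0
    obtain ⟨z, hz, hz'⟩ := hz₀ (a k)
    exact ha k z hz (hz'.trans h0)
  have h0 := (key z₀ ha₀).2 ⟨v₀, hg, rfl⟩
  obtain ⟨z, hz, hz'⟩ := hz₀ (Polynomial.resultant f g (deg d n) g.natDegree)
  obtain ⟨v, hv, hv'⟩ := (key z (fun k => ha k z hz)).1 (hz'.trans h0)
  exact ⟨z, hz, v, hv, hv'⟩

end

end Pool.Agent.Lib.MP_2a3b48_an
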