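import Mathlib
import Pool.Agent.Lib.MP_2a3b48_an.Lift

/-!
The lifting theorem.
-/

open Set Metric

namespace Pool.Agent.Lib.MP_2a3b48_an

variable {N : ℕ}

/-- Existence of the sequence of fibre maps. -/
theorem exists_data {Y B : Set (Fin N → ℂ)} (hY : IsCompact Y) (hB : IsCompact B)
    (P lam : ℕ → MvPolynomial (Fin N) ℂ) (hP : ∀ n, ∀ z ∈ Y, 1 ≤ ‖MvPolynomial.eval z (P n)‖)
    (hlam : ∀ n, ∀ z ∈ B, ‖MvPolynomial.eval z (lam n)‖ ≤ 1 / 4) :
    ∃ (a β : ℕ → MvPolynomial (Fin N) ℂ) (d : ℕ → ℕ),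
      (∀ n, 7 ≤ d n) ∧
      (∀ n, (14 : ℝ) / d n ≤ (1 / (n + 1)) ^ deg d n) ∧
      (∀ n, ∀ z ∈ Y, 1 + ‖MvPolynomial.eval z (β n)‖ ≤ ‖MvPolynomial.eval z (a n)‖) ∧
      (∀ n z, ‖MvPolynomial.eval z (P n)‖ < 1 / 2 → ‖MvPolynomial.eval z (a n)‖ < 1) ∧
      (∀ n, ∃ M : ℝ, 2 ≤ M ∧ 6 / M ≤ (1 / (2 * deg d n * (n + 1))) ^ deg d n ∧
        ∀ z, 2 ≤ ‖MvPolynomial.eval z (lam n)‖ → M ≤ ‖MvPolynomial.eval z (β n)‖) ∧
      (∀ n, ∀ z ∈ B, ‖MvPolynomial.eval z (a n)‖ * (1 / 2) ^ d n +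
        ‖MvPolynomial.eval z (β n)‖ ≤ 1 / 2) := by
  choose a β d h₁ h₂ h₃ h₄ h₅ using fun (n D : ℕ) =>
    exists_step hY hB (P n) (lam n) (hP n) (hlam n) (2 + 6 * (2 * D * (n + 1)) ^ D)
      (7 + 14 * (n + 1) ^ D)
  let D : ℕ → ℕ := fun n => Nat.rec 1 (fun k Dk => d k Dk * Dk) n
  have hD : ∀ n, deg (fun n => d n (D n)) n = D n := by
    intro n
    induction n with
    | zero => rfl
    | succ n ih => rw [deg, ih]
  have h7 : ∀ n, 7 ≤ d n (D n) := fun n => le_trans (Nat.le_add_right _ _) (h₁ n (D n))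
  refine ⟨fun n => a n (D n), fun n => β n (D n), fun n => d n (D n), h7, fun n => ?_,
    fun n => h₂ n _, fun n => h₃ n _, fun n => ⟨_, ?_, ?_, h₄ n (D n)⟩, fun n => h₅ n _⟩
  · rw [hD]
    have h : ((7 + 14 * (n + 1) ^ D n : ℕ) : ℝ) ≤ d n (D n) := by exact_mod_cast h₁ n (D n)
    push_cast at h
    have hpos : (0 : ℝ) < (n + 1) ^ D n := by positivity
    rw [one_div, inv_pow, div_le_iff₀ (by linarith), inv_mul_eq_div, le_div_iff₀ hpos]
    linarith
  · have : (0 : ℝ) ≤ 6 * (2 * (Nat.cast (D n) : ℝ) * (n + 1)) ^ (D n : ℕ) := by positivity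
    linarith
  · rw [hD]
    have hDpos : 0 < D n := by
      rw [← hD]
      exact deg_pos (fun n => lt_of_lt_of_le (by norm_num) (h7 n)) n
    have hpos : (0 : ℝ) < (2 * (Nat.cast (D n) : ℝ) * (n + 1)) ^ (D n : ℕ) := by positivity
    rw [one_div, inv_pow, div_le_iff₀ (by linarith), inv_mul_eq_div, le_div_iff₀ hpos]
    linarith

theorem lift (hN : 0 < N) {Y : Set (Fin N → ℂ)} (hY : IsCompact Y)
    (hYd : IsTotallyDisconnected Y) (hint : (interior (ratHull Y)).Nonempty) :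
    ∃ X : Set (Fin (N + 1) → ℂ), IsCantorSet X ∧ (interior (ratHull X)).Nonempty ∧
      polyHull X = ratHull X := by
  obtain ⟨z₀, η, hη, hball, hdisj⟩ := exists_ball hN hY hYd hint
  obtain ⟨P, hP, hP'⟩ := exists_seq_poly hY
  let lam : Fin N → MvPolynomial (Fin N) ℂ := fun i =>
    MvPolynomial.C ((η⁻¹ : ℝ) : ℂ) * (MvPolynomial.X i - MvPolynomial.C (z₀ i))
  have hlam : ∀ i z, ‖MvPolynomial.eval z (lam i)‖ = ‖z i - z₀ i‖ / η := by
    intro i z
    simp only [lam, map_mul, map_sub, MvPolynomial.eval_C, MvPolynomial.eval_X, norm_mul,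
      Complex.norm_real]
    rw [Real.norm_of_nonneg (by positivity), div_eq_inv_mul]
  have hfar : ∀ z, z ∉ ball z₀ (2 * η) → ∃ i, 2 ≤ ‖MvPolynomial.eval z (lam i)‖ := by
    intro z hz
    rw [mem_ball, dist_pi_lt_iff (by positivity)] at hz
    push Not at hz
    obtain ⟨i, hi⟩ := hz
    refine ⟨i, ?_⟩
    rw [hlam, le_div_iff₀ hη, ← dist_eq_norm]
    exact hi
  let idx : ℕ → Fin N := fun n => ⟨n % N, Nat.mod_lt _ hN⟩
  have hidx : ∀ (j : ℕ) (i : Fin N), ∃ n, j ≤ n ∧ n / N = j ∧ idx n = i := by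
    intro j i
    refine ⟨i + N * j, ?_, ?_, Fin.ext ?_⟩
    · nlinarith
    · rw [Nat.add_mul_div_left _ _ hN, Nat.div_eq_of_lt i.2, zero_add]
    · simp [idx, Nat.mod_eq_of_lt i.2]
  obtain ⟨a, β, d, hd7, hd14, hab, hexcl, hthin, hfat⟩ :=
    exists_data hY (isCompact_closedBall z₀ (η / 4)) (fun n => P (n / N)) (fun n => lam (idx n))
      (fun n => hP _) (fun n z hz => by
        rw [hlam, div_le_iff₀ hη, ← dist_eq_norm]
        have := (dist_le_pi_dist z z₀ (idx n)).trans (mem_closedBall.1 hz)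
        linarith)
  have hd : ∀ n, 0 < d n := fun n => lt_of_lt_of_le (by norm_num) (hd7 n)
  have ha1 : ∀ z ∈ Y, ∀ n, 1 ≤ ‖MvPolynomial.eval z (a n)‖ := fun z hz n => by
    linarith [hab n z hz, norm_nonneg (MvPolynomial.eval z (β n))]
  have ha0 : ∀ z ∈ Y, ∀ n, MvPolynomial.eval z (a n) ≠ 0 := fun z hz n =>
    norm_pos_iff.1 (by linarith [ha1 z hz n])
  -- the polynomials on `ℂ^(N+1)`
  let G : ℕ → MvPolynomial (Fin (N + 1)) ℂ := fun n =>
    (MvPolynomial.finSuccEquiv ℂ N).symm (iter a β d n)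
  have hev : ∀ (x : Fin (N + 1) → ℂ) (g : MvPolynomial (Fin (N + 1)) ℂ), MvPolynomial.eval x g =
      ((MvPolynomial.finSuccEquiv ℂ N g).map (MvPolynomial.eval (Fin.tail x))).eval (x 0) := by
    intro x g
    rw [← MvPolynomial.eval_eq_eval_mv_eval', Fin.cons_self_tail]
  have hG : ∀ n (x : Fin (N + 1) → ℂ),
      MvPolynomial.eval x (G n) = (fib a β d n (Fin.tail x)).eval (x 0) := by
    intro n x
    rw [hev]
    simp [G, fib]
  have hG' : ∀ n z (v : ℂ),
      MvPolynomial.eval (Fin.cons v z : Fin (N + 1) → ℂ) (G n) = (fib a β d n z).eval v := by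
    intro n z v
    rw [hG]
    simp
  have htail : Continuous fun x : Fin (N + 1) → ℂ => Fin.tail x := by
    unfold Fin.tail
    fun_prop
  let K : Set (Fin (N + 1) → ℂ) := {x | ∀ n, ‖MvPolynomial.eval x (G n)‖ ≤ 1}
  let Xn : ℕ → Set (Fin (N + 1) → ℂ) := fun n =>
    {x | Fin.tail x ∈ Y ∧ ∀ k ≤ n, ‖MvPolynomial.eval x (G k)‖ ≤ 1}
  let X : Set (Fin (N + 1) → ℂ) := {x | Fin.tail x ∈ Y ∧ x ∈ K}
  have hXn_closed : ∀ n, IsClosed (Xn n) := by
    intro n
    have h : IsClosed {x : Fin (N + 1) → ℂ | ∀ k ≤ n, ‖MvPolynomial.eval x (G k)‖ ≤ 1} := by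
      simp only [ofPred_forall]
      exact isClosed_iInter fun k => isClosed_iInter fun _ =>
        isClosed_le (MvPolynomial.continuous_eval _).norm continuous_const
    exact (hY.isClosed.preimage htail).inter h
  have hX0 : IsCompact (Xn 0) := by
    have hc : Continuous fun p : ℂ × (Fin N → ℂ) => (Fin.cons p.1 p.2 : Fin (N + 1) → ℂ) :=
      Continuous.finCons continuous_fst continuous_snd
    refine (((isCompact_closedBall (0 : ℂ) 1).prod hY).image hc).of_isClosed_subset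
      (hXn_closed 0) fun x hx => ⟨(x 0, Fin.tail x), ⟨?_, hx.1⟩, Fin.cons_self_tail x⟩
    have := hx.2 0 le_rfl
    rw [hG, eval_fib_zero] at this
    simpa using this
  have hXeq : X = ⋂ n, Xn n := by
    ext x
    simp only [X, K, Xn, mem_ofPred_eq, mem_iInter]
    exact ⟨fun h n => ⟨h.1, fun k _ => h.2 k⟩, fun h => ⟨(h 0).1, fun n => (h n).2 n le_rfl⟩⟩
  have hX : IsCompact X := by
    refine hX0.of_isClosed_subset ?_ ?_
    · rw [hXeq]
      exact isClosed_iInter hXn_closed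
    · rw [hXeq]
      exact iInter_subset _ 0
  -- points of `K` lie over the rational hull of `Y`
  have hKR : ∀ x ∈ K, Fin.tail x ∈ ratHull Y := by
    intro x hx
    by_contra hxR
    obtain ⟨j, hj⟩ := hP' _ hxR
    obtain ⟨i, hi⟩ := hfar _ fun h => hxR (hball h)
    obtain ⟨n, -, hnj, hni⟩ := hidx j i
    obtain ⟨M, hM, -, hMβ⟩ := hthin n
    have h1 := hexcl n (Fin.tail x) (by simpa only [hnj] using hj)
    have h2 := hMβ (Fin.tail x) (by simpa only [hni] using hi)
    have h3 := hx n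
    have h4 := hx (n + 1)
    rw [hG] at h3 h4
    rw [eval_fib_succ] at h4
    set w := (fib a β d n (Fin.tail x)).eval (x 0)
    have h5 : ‖MvPolynomial.eval (Fin.tail x) (a n) * w ^ d n‖ < 1 := by
      rw [norm_mul, norm_pow]
      have : ‖w‖ ^ d n ≤ 1 := pow_le_one₀ (norm_nonneg _) h3
      nlinarith [norm_nonneg (MvPolynomial.eval (Fin.tail x) (a n)), pow_nonneg (norm_nonneg w) (d n)]
    have h6 := norm_sub_norm_le (MvPolynomial.eval (Fin.tail x) (β n))
      (MvPolynomial.eval (Fin.tail x) (a n) * w ^ d n)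
    rw [norm_sub_rev] at h6
    linarith
  -- `K` lies in the rational hull of `X`
  have hKX : K ⊆ ratHull X := by
    intro x hx p
    set g := p - MvPolynomial.C (MvPolynomial.eval x p) with hg
    have hgx : MvPolynomial.eval x g = 0 := by simp [hg]
    have hne := IsCompact.nonempty_iInter_of_sequence_nonempty_isCompact_isClosed
      (fun n => Xn n ∩ {y | MvPolynomial.eval y g = 0})
      (fun n y hy => ⟨⟨hy.1.1, fun k hk => hy.1.2 k (by omega)⟩, hy.2⟩) (fun n => ?_)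
      (hX0.inter_right (isClosed_eq (MvPolynomial.continuous_eval _) continuous_const))
      (fun n => (hXn_closed n).inter
        (isClosed_eq (MvPolynomial.continuous_eval _) continuous_const))
    · obtain ⟨y, hy⟩ := hne
      rw [mem_iInter] at hy
      refine ⟨y, ?_, ?_⟩
      · rw [hXeq]
        exact mem_iInter.2 fun n => (hy n).1
      · have := (hy 0).2
        simp only [hg, mem_ofPred_eq, map_sub, MvPolynomial.eval_C] at this
        exact sub_eq_zero.1 this
    · rw [hev] at hgx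
      obtain ⟨z, hz, v, hv, hv'⟩ := exists_common_zero β hd (fun n z hz => ha0 z hz n)
        (hKR x hx) _ hgx n
      refine ⟨Fin.cons v z, ⟨by simpa using hz, fun k hk => ?_⟩, ?_⟩
      · rw [hG']
        refine norm_eval_fib_le_of_le hd (fun n => hab n z hz) n ?_ k hk
        rw [hv', ← hG]
        exact hx n
      · rw [mem_ofPred_eq, hev]
        simpa using hv
  -- the polynomial hull of `X` lies in `K`
  have hPK : polyHull X ⊆ K := by
    intro x hx n
    refine (hx (G n)).trans (Real.sSup_le ?_ zero_le_one)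
    rintro _ ⟨y, hy, rfl⟩
    exact hy.2 n
  -- `K` has interior
  have hKint : (interior K).Nonempty := by
    let O : Set (Fin (N + 1) → ℂ) := {x | ‖x 0‖ < 1 / 2} ∩ (fun x => Fin.tail x) ⁻¹' ball z₀ (η / 4)
    have hO : IsOpen O :=
      (isOpen_lt (by fun_prop) continuous_const).inter (isOpen_ball.preimage htail)
    have hOK : O ⊆ K := by
      intro x hx
      have : ∀ n, ‖(fib a β d n (Fin.tail x)).eval (x 0)‖ ≤ 1 / 2 := by
        intro n
        induction n with
        | zero => rw [eval_fib_zero]; exact le_of_lt hx.1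
        | succ n ih =>
          rw [eval_fib_succ]
          refine (norm_sub_le _ _).trans (le_trans ?_ (hfat n _ (ball_subset_closedBall hx.2)))
          rw [norm_mul, norm_pow]
          gcongr
      intro n
      rw [hG]
      linarith [this n]
    refine ⟨Fin.cons 0 z₀, interior_maximal hOK hO ⟨by simp, ?_⟩⟩
    simpa using hη
  have hthin' : ∀ z ∈ Y, ∀ j : ℕ, ∃ n, j ≤ n ∧ ∃ M : ℝ, 2 ≤ M ∧
      6 / M ≤ (1 / (2 * deg d n * (n + 1))) ^ deg d n ∧ M ≤ ‖MvPolynomial.eval z (β n)‖ := by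
    intro z hz j
    obtain ⟨i, hi⟩ := hfar z fun h => disjoint_left.1 hdisj h hz
    obtain ⟨n, hjn, -, hni⟩ := hidx j i
    obtain ⟨M, hM, hM', hMβ⟩ := hthin n
    exact ⟨n, hjn, M, hM, hM', hMβ z (by simpa only [hni] using hi)⟩
  refine ⟨X, ⟨?_, hX, ?_, ?_⟩, hKint.mono (interior_mono hKX),
    Subset.antisymm (hPK.trans hKX) (ratHull_subset_polyHull hX)⟩
  · obtain ⟨x, hx⟩ := hKint
    obtain ⟨y, hy, -⟩ := hKX (interior_subset hx) 0
    exact ⟨y, hy⟩
  · -- totally disconnected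
    intro Γ hΓX hΓ x hx y hy
    have htl : ∀ u ∈ Γ, Fin.tail u = Fin.tail x := fun u hu =>
      hYd _ (by rintro _ ⟨w, hw, rfl⟩; exact (hΓX hw).1) (hΓ.image _ htail.continuousOn)
        ⟨u, hu, rfl⟩ ⟨x, hx, rfl⟩
    set z := Fin.tail x with hz
    have hzY : z ∈ Y := (hΓX hx).1
    have hΓ0 : IsPreconnected ((fun u : Fin (N + 1) → ℂ => u 0) '' Γ) :=
      hΓ.image _ (continuous_apply 0).continuousOn
    have hclose : ∀ j : ℕ, ‖y 0 - x 0‖ ≤ 1 / (j + 1) := by
      intro j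
      obtain ⟨n, hjn, M, hM, hM', hMβ⟩ := hthin' z hzY j
      have hdeg := natDegree_fib (d := d) β (ha0 z hzY) n
      have hDpos := deg_pos hd n
      have hΓ1 : IsPreconnected ((fun v => (fib a β d n z).eval v) ''
          ((fun u : Fin (N + 1) → ℂ => u 0) '' Γ)) :=
        hΓ0.image _ (Polynomial.continuous _).continuousOn
      have h1 := norm_sub_le_of_eval_close (fib a β d n z) (by rwa [hdeg])
        (one_le_leadingCoeff_fib β hd (ha1 z hzY) n) hΓ0 (w := (fib a β d n z).eval (x 0))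
        (r := 1 / (2 * deg d n * (n + 1))) (by positivity) (fun v hv => by
          rw [hdeg]
          refine le_trans ?_ hM'
          refine norm_sub_le_of_step (hd n) (hab n z hzY) hM hMβ hΓ1 ?_
            ⟨x 0, ⟨x, hx, rfl⟩, rfl⟩ ⟨v, hv, rfl⟩
          rintro _ ⟨_, ⟨u, hu, rfl⟩, rfl⟩
          have := (hΓX hu).2 (n + 1)
          rwa [hG, htl u hu, eval_fib_succ] at this) ⟨x, hx, rfl⟩ ⟨y, hy, rfl⟩
      rw [hdeg] at h1
      have hD' : (0 : ℝ) < deg d n := by exact_mod_cast hDpos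
      have hjn' : (j : ℝ) ≤ n := by exact_mod_cast hjn
      calc _ ≤ _ := h1
        _ = 1 / (n + 1) := by field_simp
        _ ≤ 1 / (j + 1) := by gcongr
    have h0 : y 0 = x 0 := by
      rw [← sub_eq_zero, ← norm_le_zero_iff]
      exact ge_of_tendsto' tendsto_one_div_add_atTop_nhds_zero_nat hclose
    rw [← Fin.cons_self_tail x, ← Fin.cons_self_tail y, h0, htl y hy]
  · -- no isolated points
    intro x hx U hU
    obtain ⟨ε, hε, hεU⟩ := Metric.mem_nhds_iff.1 hU
    obtain ⟨j, hj⟩ := exists_nat_one_div_lt hε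
    set z := Fin.tail x with hz
    have hzY : z ∈ Y := hx.1
    obtain ⟨n, hjn, M, hM, -, hMβ⟩ := hthin' z hzY j
    obtain ⟨ζ, hζ1, hζd, hζ⟩ := exists_root_of_unity (hd7 n)
    have hdeg := natDegree_fib (d := d) β (ha0 z hzY) n
    have hDpos := deg_pos hd n
    set w := (fib a β d n z).eval (x 0) with hw
    have hw1 : ‖w‖ ≤ 1 := by
      have := hx.2 n
      rwa [hG] at this
    have hw0 : w ≠ 0 := by
      intro h0
      have := hx.2 (n + 1)
      rw [hG, eval_fib_succ, ← hz, ← hw, h0, zero_pow (hd n).ne'] at this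
      simp at this
      linarith
    obtain ⟨ρ, hρ, hρ'⟩ := exists_root_near (fib a β d n z) (by rwa [hdeg])
      (one_le_leadingCoeff_fib β hd (ha1 z hzY) n) (x 0) (ζ * w)
    have hρw := eval_eq_of_mem_roots hρ
    have hζn : ‖ζ‖ = 1 := by
      have := congrArg norm hζd
      rw [norm_pow, norm_one] at this
      exact (pow_eq_one_iff_of_nonneg (norm_nonneg _) (hd n).ne').1 this
    have hdist : ‖x 0 - ρ‖ ≤ 1 / (n + 1) := by
      rw [hdeg, ← hw] at hρ'
      refine le_of_pow_le_pow_left₀ hDpos.ne' (by positivity) (hρ'.trans (le_trans ?_ (hd14 n)))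
      calc ‖w - ζ * w‖ = ‖ζ - 1‖ * ‖w‖ := by
            rw [← norm_mul, ← norm_neg]
            ring_nf
        _ ≤ 14 / d n * 1 := by gcongr
        _ = _ := mul_one _
    refine ⟨Fin.cons ρ z, ⟨hεU ?_, by simpa using hzY, fun k => ?_⟩, ?_⟩
    · rw [mem_ball, dist_pi_lt_iff hε]
      intro i
      refine Fin.cases ?_ (fun i => ?_) i
      · rw [Fin.cons_zero, dist_comm, dist_eq_norm]
        have hjn' : (j : ℝ) ≤ n := by exact_mod_cast hjn
        calc _ ≤ 1 / ((n : ℝ) + 1) := hdist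
          _ ≤ 1 / (j + 1) := by gcongr
          _ < ε := hj
      · simpa [hz, Fin.tail] using hε
    · rw [hG']
      rcases le_or_gt k n with hk | hk
      · refine norm_eval_fib_le_of_le hd (fun n => hab n z hzY) n ?_ k hk
        rw [hρw, norm_mul, hζn, one_mul]
        exact hw1
      · obtain ⟨l, rfl⟩ : ∃ l, k = n + 1 + l := ⟨k - (n + 1), by omega⟩
        have h1 : (fib a β d (n + 1) z).eval ρ = (fib a β d (n + 1) z).eval (x 0) := by
          rw [eval_fib_succ, eval_fib_succ, hρw, ← hw, mul_pow, hζd, one_mul]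
        rw [eval_fib_eq_of_eq a β d h1 l, ← hG]
        exact hx.2 _
    · intro h
      have h0 : ρ = x 0 := by simpa using congrFun h 0
      rw [h0, ← hw] at hρw
      exact hζ1 (by
        have : (ζ - 1) * w = 0 := by linear_combination -hρw
        exact sub_eq_zero.1 ((mul_eq_zero.1 this).resolve_right hw0))

end Pool.Agent.Lib.MP_2a3b48_an
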