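import Mathlib
import Pool.Agent.Lib.MP_2a3b48_an.Defs
import Pool.Agent.Lib.MP_2a3b48_an.LiftMain
import Pool.Agent.Lib.MP_2a3b48_an.Henkin

/-!
For every `N ≥ 4` there is a Cantor set in `ℂ^N` whose rational hull has nonempty interior and
equals its polynomial hull.
-/

namespace Pool.Agent.Lib.MP_2a3b48_an.CantorHull4

open Pool.Agent.Lib.MP_2a3b48_an

theorem result (N : ℕ) (hN : 4 ≤ N) : ∃ X : Set (Fin N → ℂ),
    IsCantorSet X ∧ (interior (ratHull X)).Nonempty ∧ polyHull X = ratHull X := by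
  induction N, hN using Nat.le_induction with
  | base =>
    obtain ⟨Y, h₁, h₂, h₃⟩ := exists_henkin
    exact lift (by norm_num) h₁ h₂ h₃
  | succ n hn ih =>
    obtain ⟨Y, h₁, h₂, -⟩ := ih
    exact lift (by omega) h₁.2.1 h₁.2.2.1 h₂

end Pool.Agent.Lib.MP_2a3b48_an.CantorHull4
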