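import Pool.Agent.Lib.MP_2a3b48_an.Star2

/-!
The invariant of the construction around a compact star-shaped set, and the cutting steps.
-/

namespace Pool.Agent.Lib.MP_2a3b48_an.Gen

open Metric Set Filter Topology MvPolynomial Pool.Agent.Lib.MP_2a3b48_an.Star

variable {N : ℕ}

/-- Every zero set that misses a compact part of the interior of `X` lies in the outer region `F`,
and inside `F` each ray leaves `X` at most once. -/
structure Inv (G : Set (E N)) (R : ℝ) (X F : Set (E N)) : Prop where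
  cX : IsCompact X
  sub : ∀ z ∈ X, 0 < ‖z‖ ∧ ‖z‖ ≤ R
  cF : IsClosed F
  out : ∀ x ∈ F, x ∈ G ∧ 0 < ‖x‖
  dil : ∀ x ∈ F, ∀ t : ℝ, 1 ≤ t → t • x ∈ F
  q1 : ∃ Y, IsCompact Y ∧ Y ⊆ interior X ∧ ∀ p : MvPolynomial (Fin N) ℂ,
    (∀ y ∈ Y, eval y p ≠ 0) → ∀ z, eval z p = 0 → z ∈ F
  q2 : ∀ x ∈ F, ∀ t : ℝ, 1 < t → t • x ∈ X → x ∈ interior X

theorem infDist_smul {K : Set (E N)} (h0 : (0 : E N) ∈ K) (hs : StarConvex ℝ 0 K) (x : E N)
    {t : ℝ} (ht : 1 ≤ t) : t * infDist x K ≤ infDist (t • x) K := by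
  have ht0 : 0 < t := by linarith
  refine (le_infDist ⟨0, h0⟩).2 fun k hk => ?_
  have h1 : t⁻¹ • k ∈ K := by
    have := hs hk (a := 1 - t⁻¹) (b := t⁻¹) (sub_nonneg.2 (inv_le_one_of_one_le₀ ht))
      (by positivity) (by ring)
    simpa using this
  have h2 : dist (t • x) k = t * dist x (t⁻¹ • k) := by
    rw [dist_eq_norm, dist_eq_norm, ← Real.norm_of_nonneg ht0.le, ← norm_smul,
      Real.norm_of_nonneg ht0.le, smul_sub, smul_smul, mul_inv_cancel₀ ht0.ne', one_smul]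
  rw [h2]
  exact mul_le_mul_of_nonneg_left (infDist_le_dist_of_mem h1) ht0.le

theorem exists_zero_level (hN : 2 ≤ N) {d : E N → ℝ} (hd : Continuous d) {c : ℝ}
    (hc : IsCompact {z | d z ≤ c}) (p : MvPolynomial (Fin N) ℂ) {z : E N} (hz : d z < c)
    (hp : eval z p = 0) : ∃ y, d y = c ∧ eval y p = 0 := by
  by_contra hno
  push Not at hno
  have hT : IsCompact ({z | d z ≤ c} ∩ {z | eval z p = 0}) :=
    hc.inter_right (isClosed_eq (cont_eval p) continuous_const)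
  obtain ⟨q, ⟨hq1, hq2⟩, hq⟩ := hT.exists_isMaxOn ⟨z, hz.le, hp⟩ continuous_n2.continuousOn
  have hq3 : d q < c := lt_of_le_of_ne hq1 fun h => hno q h hq2
  obtain ⟨ε, hε, h1⟩ := Metric.eventually_nhds_iff.1 (hd.continuousAt.eventually (gt_mem_nhds hq3))
  obtain ⟨y, hy, h2, h3⟩ := maxp hN p (ip q) _ (proj_ne ⟨0, by omega⟩) 0 q q (R := ε / 2)
    (mem_ball_self (half_pos hε)) hq2
  have h4 : dist y q = ε / 2 := hy
  have h5 : n2 y ≤ n2 q := hq (show y ∈ _ from ⟨(h1 (by linarith : dist y q < ε)).le, h2⟩)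
  have h6 := n2_add q (y - q)
  have h7 := sq_le_n2 (y - q)
  rw [add_sub_cancel] at h6
  rw [← dist_eq_norm, h4] at h7
  simp only [zero_mul, add_zero] at h3
  nlinarith

theorem inv_init (hN : 2 ≤ N) {K : Set (E N)} (hK : IsCompact K) (h0 : (0 : E N) ∈ K)
    (hs : StarConvex ℝ 0 K) {δ : ℝ} (hδ : 0 < δ) : ∃ R : ℝ, 0 < R ∧
    Inv {z | 3 * δ ≤ infDist z K} R {z | 2 * δ ≤ infDist z K ∧ infDist z K ≤ 4 * δ}
      {z | 3 * δ ≤ infDist z K} := by
  have hd : Continuous fun z : E N => infDist z K := continuous_infDist_pt K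
  have hle : ∀ z : E N, infDist z K ≤ ‖z‖ := fun z => by
    simpa using infDist_le_dist_of_mem (x := z) h0
  obtain ⟨R, hR⟩ := hK.isBounded.subset_closedBall 0
  have hR0 : 0 ≤ R := by simpa using hR h0
  have hb : ∀ z : E N, infDist z K ≤ 4 * δ → ‖z‖ ≤ R + 4 * δ := fun z hz => by
    obtain ⟨k, hk, e⟩ := hK.exists_infDist_eq_dist ⟨0, h0⟩ z
    have h1 := mem_closedBall_zero_iff.1 (hR hk)
    have h2 := norm_le_norm_add_norm_sub' z k
    rw [← dist_eq_norm] at h2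
    linarith
  have hcpt : ∀ c ≤ 4 * δ, IsCompact {z : E N | infDist z K ≤ c} := fun c hc =>
    (isCompact_closedBall 0 (R + 4 * δ)).of_isClosed_subset (isClosed_le hd continuous_const)
      fun z hz => mem_closedBall_zero_iff.2 (hb z (le_trans hz hc))
  have hi : ∀ z : E N, 2 * δ < infDist z K → infDist z K < 4 * δ →
      z ∈ interior {z : E N | 2 * δ ≤ infDist z K ∧ infDist z K ≤ 4 * δ} :=
    fun z h1 h2 => interior_maximal (t := {z | 2 * δ < infDist z K} ∩ {z | infDist z K < 4 * δ})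
      (fun y h => show 2 * δ ≤ infDist y K ∧ infDist y K ≤ 4 * δ from ⟨le_of_lt h.1, le_of_lt h.2⟩)
      ((isOpen_lt continuous_const hd).inter (isOpen_lt hd continuous_const)) ⟨h1, h2⟩
  refine ⟨R + 4 * δ, by linarith, (hcpt _ le_rfl).of_isClosed_subset
      ((isClosed_le continuous_const hd).inter (isClosed_le hd continuous_const)) fun z hz => hz.2,
    fun z h => ⟨by linarith [hle z, h.1], hb z h.2⟩, isClosed_le continuous_const hd,
    fun z h => ⟨h, by linarith [hle z, show 3 * δ ≤ infDist z K from h]⟩, fun x hx t ht => ?_,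
    ⟨{z | infDist z K = 3 * δ}, (hcpt (3 * δ) (by linarith)).of_isClosed_subset
      (isClosed_eq hd continuous_const) fun z hz => le_of_eq hz, fun z hz => ?_,
      fun p hp z hz => ?_⟩, fun x hx t ht h => ?_⟩
  · have h1 := infDist_smul h0 hs x ht
    simp only [mem_ofPred_eq] at hx ⊢
    nlinarith
  · have hz' : infDist z K = 3 * δ := hz
    exact hi z (by linarith) (by linarith)
  · by_contra h
    obtain ⟨y, hy, h1⟩ := exists_zero_level hN hd (hcpt (3 * δ) (by linarith)) p (not_le.1 h) hz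
    exact hp y hy h1
  · have h1 := infDist_smul h0 hs x ht.le
    simp only [mem_ofPred_eq] at hx h
    exact hi x (by linarith) (by nlinarith [h.2])

variable {G X F : Set (E N)} {R : ℝ}

theorem Inv.shrink (h : Inv G R X F) {s : ℝ} (hs : 1 < s) :
    ∃ F', Inv G R X F' ∧ ∀ x ∈ F', ∀ t : ℝ, s < t → t • x ∉ X := by
  obtain ⟨Y, hY, hYX, hq⟩ := h.q1
  have hc : Continuous fun x : E N => s • x := by fun_prop
  have key : ∀ x ∈ F, ∀ t : ℝ, s < t → t • x ∈ X → s • x ∈ interior X := fun x hx t ht hX =>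
    h.q2 _ (h.dil x hx s hs.le) (t / s) ((one_lt_div (by linarith)).2 ht)
      (by rwa [smul_smul, div_mul_cancel₀ _ (by linarith : s ≠ 0)])
  refine ⟨F ∩ {x | s • x ∉ interior X}, ⟨h.cX, h.sub,
    h.cF.inter (isOpen_interior.preimage hc).isClosed_compl, fun x hx => h.out x hx.1,
    fun x hx t ht => ⟨h.dil x hx.1 t ht, fun h1 => ?_⟩,
    ⟨Y ∪ (F ∩ {x | s • x ∈ X}), hY.union ?_, union_subset hYX fun x hx => h.q2 x hx.1 s hs hx.2,
      fun p hp z hz => ?_⟩, fun x hx => h.q2 x hx.1⟩, fun x hx t ht hX => hx.2 (key x hx.1 t ht hX)⟩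
  · rcases ht.eq_or_lt with rfl | ht
    · exact hx.2 (by simpa using h1)
    · exact hx.2 (key x hx.1 (s * t) (by nlinarith) (by rw [← smul_smul]; exact interior_subset h1))
  · exact h.cX.of_isClosed_subset (h.cF.inter (h.cX.isClosed.preimage hc))
      fun x hx => interior_subset (h.q2 x hx.1 s hs hx.2)
  · have hz' := hq p (fun y hy => hp y (Or.inl hy)) z hz
    exact ⟨hz', fun h1 => hp z (Or.inr ⟨hz', show s • z ∈ X from interior_subset h1⟩) hz⟩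

theorem Inv.cut (hN : 2 ≤ N) (h : Inv G R X F) {ψ : E N → ℝ} (hψ : Psh ψ) :
    ∃ η : ℝ, 0 < η ∧ ∀ U M : Set (E N), IsOpen U → IsClosed M → U ⊆ M →
      (∀ z ∈ M, z ∈ X → |ψ z| < η) → (∀ x ∈ F, ∀ t : ℝ, 1 < t → t • x ∉ U → x ∉ M) →
      Inv G R (X \ U) F := by
  obtain ⟨Y, hY, hYX, hq⟩ := h.q1
  obtain ⟨δ, hδ, hYδ⟩ := hY.exists_cthickening_subset_open isOpen_interior hYX
  obtain ⟨η, hη, hosc⟩ := hψ.osc hN hδ
  refine ⟨η, hη, fun U M hU hM hUM h1 h2 => ?_⟩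
  have hi : interior X ∩ Mᶜ ⊆ interior (X \ U) :=
    interior_maximal (fun z hz => ⟨interior_subset hz.1, fun hz' => hz.2 (hUM hz')⟩)
      (isOpen_interior.inter hM.isOpen_compl)
  refine ⟨h.cX.diff hU, fun z hz => h.sub z hz.1, h.cF, h.out, h.dil,
    ⟨cthickening δ Y ∩ {z | η ≤ |ψ z|}, (h.cX.of_isClosed_subset isClosed_cthickening
      (hYδ.trans interior_subset)).inter_right (isClosed_le continuous_const hψ.1.abs),
      fun z hz => hi ⟨hYδ hz.1, fun hz' => ?_⟩, fun p hp => hq p fun y hy hy' => ?_⟩,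
    fun x hx t ht hX => hi ⟨h.q2 x hx t ht hX.1, h2 x hx t ht hX.2⟩⟩
  · exact absurd (h1 z hz' (interior_subset (hYδ hz.1))) (not_lt.2 hz.2)
  · obtain ⟨z, hz, hz1, hz2⟩ := hosc p y hy'
    exact hp z ⟨closedBall_subset_cthickening hy δ hz, hz2⟩ hz1

theorem Inv.cut_cone (hN : 2 ≤ N) (h : Inv G R X F) {x : E N} (hx : x ≠ 0) {c : ℝ}
    (hc : 1 / 2 < c) : ∃ X' ⊆ X, Inv G R X' F ∧ ∀ z ∈ X', rho c x z ≠ 0 := by
  obtain ⟨η₀, hη₀, hcut⟩ := h.cut hN (psh_cone hx hc)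
  obtain ⟨η, hη, hηR⟩ : ∃ η : ℝ, 0 < η ∧ η * |R| ^ 3 < η₀ := by
    refine ⟨η₀ / (|R| ^ 3 + 1), by positivity, ?_⟩
    rw [div_mul_eq_mul_div, div_lt_iff₀ (by positivity)]
    linarith
  refine ⟨_, sdiff_subset, hcut {z | |rho c x z| < η * ‖z‖ ^ 3}
    {z | |rho c x z| ≤ η * ‖z‖ ^ 3} (isOpen_lt (by fun_prop) (by fun_prop))
    (isClosed_le (by fun_prop) (by fun_prop))
    (fun z hz => show |rho c x z| ≤ _ from le_of_lt hz) (fun z hz hX => ?_)
    fun z hz t ht h1 h2 => h1 ?_, fun z hz h0 => hz.2 ?_⟩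
  · have h1 : ‖z‖ ^ 3 ≤ |R| ^ 3 :=
      pow_le_pow_left₀ (norm_nonneg _) ((h.sub z hX).2.trans (le_abs_self R)) 3
    have h2 : |rho c x z| ≤ η * ‖z‖ ^ 3 := hz
    nlinarith
  · have h3 : 0 < ‖z‖ := (h.out z hz).2
    have h4 : 0 < η * ‖z‖ ^ 3 := by positivity
    have h5 : 0 < t ^ 2 := by positivity
    simp only [mem_ofPred_eq, rho_smul, abs_mul, abs_of_pos h5, norm_smul,
      Real.norm_of_nonneg (by linarith : 0 ≤ t)] at h2 ⊢
    calc t ^ 2 * |rho c x z| ≤ t ^ 2 * (η * ‖z‖ ^ 3) := by gcongr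
      _ < t * (t ^ 2 * (η * ‖z‖ ^ 3)) := lt_mul_of_one_lt_left (by positivity) ht
      _ = η * (t * ‖z‖) ^ 3 := by ring
  · have h3 : 0 < ‖z‖ := (h.sub z hz.1).1
    simp only [mem_ofPred_eq, h0, abs_zero]
    positivity

theorem Inv.cut_off (hN : 2 ≤ N) (h : Inv G R X F) {ψ : E N → ℝ} (hψ : Psh ψ) {H : Set (E N)}
    (hH : IsCompact H) (h0 : ∀ z ∈ H, ψ z = 0) (hF : ∀ z ∈ H, z ∉ F) :
    ∃ X' ⊆ X, Inv G R X' F ∧ ∀ z ∈ X', z ∉ H := by
  obtain ⟨η, hη, hcut⟩ := h.cut hN hψ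
  obtain ⟨δ, hδ, h1⟩ := hH.exists_cthickening_subset_open
    (h.cF.isOpen_compl.inter (isOpen_lt hψ.1.abs (continuous_const (y := η))))
    fun z hz => ⟨hF z hz, by simpa [h0 z hz] using hη⟩
  exact ⟨_, sdiff_subset, hcut (thickening δ H) (cthickening δ H) isOpen_thickening
    isClosed_cthickening (thickening_subset_cthickening _ _) (fun z hz _ => (h1 hz).2)
    fun z hz _ _ _ h2 => (h1 h2).1 hz, fun z hz h2 => hz.2 (self_subset_thickening hδ _ h2)⟩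

/-- Connected subsets of `X` that meet `U` have diameter at most `d`. -/
def Small (X U : Set (E N)) (d : ℝ) : Prop :=
  ∀ C ⊆ X, IsPreconnected C → (C ∩ U).Nonempty → ∀ a ∈ C, ∀ b ∈ C, dist a b ≤ d

theorem neg_of_ne {C : Set (E N)} (hC : IsPreconnected C) {f : E N → ℝ} (hf : Continuous f)
    (h0 : ∀ z ∈ C, f z ≠ 0) {a : E N} (ha : a ∈ C) (h : f a < 0) : ∀ z ∈ C, f z < 0 := by
  intro z hz
  by_contra h1
  obtain ⟨y, hy, h2⟩ := hC.intermediate_value ha hz hf.continuousOn ⟨h.le, not_lt.1 h1⟩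
  exact h0 y hy h2

theorem cell (hN : 2 ≤ N) {X₀ : Set (E N)} (h : Inv G R X₀ F) {x : E N} (hx : x ∈ X₀) {θ : ℝ}
    (hθ : 0 < θ) (h1 : (1 + θ) • x ∉ X₀ ∩ F) (h2 : (1 - θ) • x ∉ X₀ ∩ F) :
    ∃ U ∈ 𝓝 x, ∀ X ⊆ X₀, Inv G R X F → ∃ X' ⊆ X, Inv G R X' F ∧ Small X' U (2 * N * R * θ) := by
  have hx0 : x ≠ 0 := norm_pos_iff.1 (h.sub x hx).1
  have hR : 0 < R := (h.sub x hx).1.trans_le (h.sub x hx).2
  have hn := n2_pos hx0
  let ψ : E N → ℝ := fun z => n2 (z - x) - θ ^ 2 * n2 x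
  have hψ : Psh ψ := psh_sphere hN x _
  have hT : IsCompact (X₀ ∩ F ∩ {z | ψ z = 0}) :=
    (h.cX.inter_right h.cF).inter_right (isClosed_eq hψ.1 continuous_const)
  have h3 : ∀ᶠ c in 𝓝 (1 : ℝ), ∀ z ∈ X₀ ∩ F ∩ {z | ψ z = 0}, 0 < rho c x z := by
    refine hT.eventually_forall_of_forall_eventually fun z hz => ?_
    have hc : Continuous fun a : ℝ × E N => rho a.1 x a.2 := by
      unfold rho
      fun_prop
    refine hc.continuousAt.eventually (lt_mem_nhds ?_)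
    by_contra h4
    obtain ⟨t, rfl⟩ := exists_of_rho_one hx0 (not_lt.1 h4)
    have h5 : n2 (t • x - x) - θ ^ 2 * n2 x = 0 := hz.2
    rw [show t • x - x = (t - 1) • x by rw [sub_smul, one_smul], n2_smul, ← sub_mul] at h5
    have h6 : (t - (1 + θ)) * (t - (1 - θ)) = 0 := by
      linarith [(mul_eq_zero.1 h5).resolve_right hn.ne']
    rcases mul_eq_zero.1 h6 with h7 | h7
    · exact h1 (sub_eq_zero.1 h7 ▸ hz.1)
    · exact h2 (sub_eq_zero.1 h7 ▸ hz.1)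
  obtain ⟨c, ⟨h4, hc⟩, hc1⟩ := (((h3.and (lt_mem_nhds (by norm_num : (1 / 2 : ℝ) < 1))).filter_mono
    nhdsWithin_le_nhds).and (self_mem_nhdsWithin : Iio (1 : ℝ) ∈ 𝓝[<] (1 : ℝ))).exists
  refine ⟨{z | rho c x z < 0} ∩ {z | ψ z < 0}, ((isOpen_lt (by fun_prop) continuous_const).inter
    (isOpen_lt hψ.1 continuous_const)).mem_nhds ⟨?_, ?_⟩, fun X hX hI => ?_⟩
  · rw [mem_ofPred_eq, rho_self]
    exact mul_neg_of_neg_of_pos (sub_neg.2 hc1) (by positivity)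
  · have : 0 < θ ^ 2 * n2 x := by positivity
    simpa [ψ, n2] using this
  obtain ⟨X₁, s1, i1, r1⟩ := hI.cut_cone hN hx0 hc
  obtain ⟨X₂, s2, i2, r2⟩ := i1.cut_off hN hψ (H := X₀ ∩ {z | ψ z = 0} ∩ {z | rho c x z ≤ 0})
    ((h.cX.inter_right (isClosed_eq hψ.1 continuous_const)).inter_right
      (isClosed_le (by fun_prop) continuous_const)) (fun z hz => hz.1.2)
    fun z hz hF => absurd (h4 z ⟨⟨hz.1.1, hF⟩, hz.1.2⟩) (not_lt.2 hz.2)
  refine ⟨X₂, s2.trans s1, i2, fun C hC hcon ⟨a, ha, ha1, ha2⟩ => ?_⟩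
  have k1 := neg_of_ne hcon (continuous_rho c x) (fun z hz => r1 z (s2 (hC hz))) ha ha1
  have k2 := neg_of_ne hcon hψ.1
    (fun z hz h0 => r2 z (hC hz) ⟨⟨hX (s1 (s2 (hC hz))), h0⟩, (k1 z hz).le⟩) ha ha2
  have k3 : ∀ z ∈ C, dist z x ≤ N * R * θ := fun z hz => by
    have e1 : n2 (z - x) - θ ^ 2 * n2 x < 0 := k2 z hz
    have e2 := sq_le_n2 (z - x)
    have e3 := n2_le x
    have e4 : ‖x‖ ^ 2 ≤ R ^ 2 := pow_le_pow_left₀ (norm_nonneg _) (h.sub x hx).2 2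
    have e5 : (2 : ℝ) ≤ N := by exact_mod_cast hN
    have e7 : (N : ℝ) * ‖x‖ ^ 2 ≤ N * R ^ 2 := by gcongr
    have e8 : (N : ℝ) * R ^ 2 ≤ N ^ 2 * R ^ 2 := by
      gcongr
      nlinarith
    have e6 : n2 x ≤ (N : ℝ) ^ 2 * R ^ 2 := by linarith
    rw [dist_eq_norm]
    refine le_of_sq_le_sq ?_ (by positivity)
    nlinarith [mul_le_mul_of_nonneg_left e6 (sq_nonneg θ)]
  intro a ha b hb
  linarith [dist_triangle_right a b x, k3 a ha, k3 b hb]

theorem Inv.step (hN : 2 ≤ N) (hR : 0 < R) (h : Inv G R X F) {θ : ℝ} (hθ : 0 < θ) (hθ1 : θ < 1) :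
    ∃ X' ⊆ X, ∃ F', Inv G R X' F' ∧ Small X' univ (2 * N * R * θ) := by
  obtain ⟨F', h', hF'⟩ := h.shrink (s := 1 + θ / 2) (by linarith)
  have key : ∀ x ∈ X, ∃ U ∈ 𝓝 x, ∀ X₁ ⊆ X, Inv G R X₁ F' →
      ∃ X' ⊆ X₁, Inv G R X' F' ∧ Small X' U (2 * N * R * θ) := by
    intro x hx
    by_cases hxF : x ∈ F'
    · refine cell hN h' hx hθ (fun h1 => hF' x hxF _ (by linarith) h1.1) fun h1 => ?_
      refine hF' _ h1.2 (1 - θ)⁻¹ ?_ (by rwa [smul_smul, inv_mul_cancel₀ (by linarith), one_smul])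
      rw [← one_div, lt_div_iff₀ (by linarith)]
      nlinarith
    · have e : ∀ σ : ℝ, ∀ᶠ t in 𝓝 (0 : ℝ), (1 + σ * t) • x ∉ F' := fun σ => by
        have hc : Continuous fun t : ℝ => (1 + σ * t) • x := by fun_prop
        exact hc.continuousAt.eventually (h'.cF.isOpen_compl.mem_nhds (by simpa using hxF))
      obtain ⟨t, ⟨⟨e1, e2⟩, e3⟩, e4⟩ := (((((e 1).and (e (-1))).and (gt_mem_nhds hθ)).filter_mono
        nhdsWithin_le_nhds).and (self_mem_nhdsWithin : Ioi (0 : ℝ) ∈ 𝓝[>] (0 : ℝ))).exists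
      obtain ⟨U, hU, h1⟩ := cell hN h' hx e4 (fun h1 => e1 (by simpa using h1.2))
        fun h1 => e2 (by simpa [sub_eq_add_neg] using h1.2)
      refine ⟨U, hU, fun X₁ s1 i1 => ?_⟩
      obtain ⟨X', s2, i2, h2⟩ := h1 X₁ s1 i1
      exact ⟨X', s2, i2, fun C hC hc hne a ha b hb => (h2 C hC hc hne a ha b hb).trans (by gcongr)⟩
  choose! U hU hcut using key
  obtain ⟨T, hT, hcov⟩ := h.cX.elim_nhds_subcover U hU
  have fin : ∀ S : Finset (E N), (∀ x ∈ S, x ∈ X) →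
      ∃ X' ⊆ X, Inv G R X' F' ∧ ∀ x ∈ S, Small X' (U x) (2 * N * R * θ) := by
    classical
    intro S
    induction S using Finset.induction_on with
    | empty => exact fun _ => ⟨X, subset_rfl, h', by simp⟩
    | insert x S hx ih =>
      intro hS
      obtain ⟨X₁, s1, i1, k1⟩ := ih fun y hy => hS y (Finset.mem_insert_of_mem hy)
      obtain ⟨X₂, s2, i2, k2⟩ := hcut x (hS x (Finset.mem_insert_self _ _)) X₁ s1 i1
      refine ⟨X₂, s2.trans s1, i2, fun y hy => ?_⟩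
      rcases Finset.mem_insert.1 hy with rfl | hy
      · exact k2
      · exact fun C hC => k1 y hy C (hC.trans s2)
  obtain ⟨X', s1, i1, k1⟩ := fin T hT
  refine ⟨X', s1, F', i1, fun C hC hc ⟨a, ha, _⟩ => ?_⟩
  obtain ⟨x, hx, hax⟩ := mem_iUnion₂.1 (hcov (s1 (hC ha)))
  exact k1 x hx C hC hc ⟨a, ha, hax⟩

end Pool.Agent.Lib.MP_2a3b48_an.Gen
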