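import Pool.Agent.Lib.MP_2a3b48_an.Gen1

/-!
Steps that make the volume small while the invariant is kept.
-/

namespace Pool.Agent.Lib.MP_2a3b48_an.Gen

open Metric Set Filter Topology MvPolynomial MeasureTheory Pool.Agent.Lib.MP_2a3b48_an.Star
open scoped ENNReal Pointwise

variable {N : ℕ} {G X F : Set (E N)} {R : ℝ}

theorem Inv.cut_balls (hN : 2 ≤ N) (h : Inv G R X F) :
    ∃ δ : ℝ, 0 < δ ∧ ∀ (T : Set (E N)) (r : E N → ℝ) (θ : ℝ), T.Finite → θ < 1 →
      (∀ x ∈ T, 0 < r x ∧ r x ≤ δ ∧ Disjoint (closedBall x (r x)) F) →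
      (T.PairwiseDisjoint fun x => closedBall x (r x)) →
      Inv G R (X \ ⋃ x ∈ T, ball x (θ * r x)) F := by
  obtain ⟨Y, hY, hYX, hq⟩ := h.q1
  obtain ⟨δ, hδ, hYδ⟩ := hY.exists_cthickening_subset_open isOpen_interior hYX
  refine ⟨δ / 2, half_pos hδ, fun T r θ hT hθ hr hd => ?_⟩
  have hM : IsClosed (⋃ x ∈ T, closedBall x (θ * r x)) :=
    hT.isClosed_biUnion fun _ _ => isClosed_closedBall
  have hMB : (⋃ x ∈ T, closedBall x (θ * r x)) ⊆ ⋃ x ∈ T, ball x (r x) :=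
    iUnion₂_mono fun x hx => closedBall_subset_ball (by nlinarith [(hr x hx).1])
  have hi : interior X ∩ (⋃ x ∈ T, closedBall x (θ * r x))ᶜ ⊆
      interior (X \ ⋃ x ∈ T, ball x (θ * r x)) :=
    interior_maximal (fun z hz => ⟨interior_subset hz.1, fun hz' =>
      hz.2 (iUnion₂_mono (fun _ _ => ball_subset_closedBall) hz')⟩)
      (isOpen_interior.inter hM.isOpen_compl)
  refine ⟨h.cX.diff (isOpen_biUnion fun _ _ => isOpen_ball), fun z hz => h.sub z hz.1, h.cF, h.out,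
    h.dil, ⟨cthickening δ Y \ ⋃ x ∈ T, ball x (r x), (h.cX.of_isClosed_subset isClosed_cthickening
      (hYδ.trans interior_subset)).diff (isOpen_biUnion fun _ _ => isOpen_ball),
      fun z hz => hi ⟨hYδ hz.1, fun hz' => hz.2 (hMB hz')⟩, fun p hp => hq p fun y hy hy' => ?_⟩,
    fun x hx t ht hX => hi ⟨h.q2 x hx t ht hX.1, fun hx' => ?_⟩⟩
  · by_cases hyT : y ∈ ⋃ x ∈ T, ball x (r x)
    · obtain ⟨x, hx, hyx⟩ := mem_iUnion₂.1 hyT
      obtain ⟨z, hz, hz0, -⟩ := maxp hN p 0 _ (proj_ne ⟨0, by omega⟩) 0 x y hyx hy'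
      have h1 : dist z x = r x := hz
      refine hp z ⟨closedBall_subset_cthickening hy δ ?_, fun hz' => ?_⟩ hz0
      · have h2 := dist_triangle_right z y x
        have h3 := mem_ball.1 hyx
        rw [mem_closedBall]
        linarith [(hr x hx).2.1]
      · obtain ⟨x', hx', hzx⟩ := mem_iUnion₂.1 hz'
        by_cases e : x = x'
        · subst e
          exact absurd (mem_ball.1 hzx) (not_lt.2 h1.ge)
        · exact disjoint_left.1 (hd hx hx' e) (sphere_subset_closedBall hz)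
            (ball_subset_closedBall hzx)
    · exact hp y ⟨self_subset_cthickening _ hy, hyT⟩ hy'
  · obtain ⟨c, hc, hxc⟩ := mem_iUnion₂.1 (hMB hx')
    exact disjoint_left.1 (hr c hc).2.2 (ball_subset_closedBall hxc) hx

theorem Inv.thin (h : Inv G R X F) {ε : ℝ≥0∞} (hε : ε ≠ 0) :
    ∃ F', Inv G R X F' ∧ volume (X ∩ F') < ε := by
  obtain ⟨k, hk, hC⟩ := ENNReal.exists_nat_pos_mul_gt hε
    (measure_closedBall_lt_top (μ := volume) (x := (0 : E N)) (r := 2 * R)).ne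
  obtain ⟨s, hs2, hs⟩ : ∃ s : ℝ, s ^ k < 2 ∧ 1 < s := by
    have hc : Continuous fun s : ℝ => s ^ k := by fun_prop
    exact (((hc.continuousAt.eventually (gt_mem_nhds (by simp : (1 : ℝ) ^ k < 2))).filter_mono
      nhdsWithin_le_nhds).and (self_mem_nhdsWithin : Ioi (1 : ℝ) ∈ 𝓝[>] (1 : ℝ))).exists
  obtain ⟨F', h', hF'⟩ := h.shrink (s := (1 + s) / 2) (by linarith)
  refine ⟨F', h', ?_⟩
  have hB : IsCompact (X ∩ F') := h.cX.inter_right h'.cF
  have hs0 : 0 < s := by linarith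
  have hlt : ∀ i j : ℕ, i < j → Disjoint (s ^ i • (X ∩ F')) (s ^ j • (X ∩ F')) := by
    intro i j hij
    rw [disjoint_left]
    rintro _ ⟨x, hx, rfl⟩ ⟨y, hy, e⟩
    obtain ⟨m, rfl⟩ := Nat.exists_eq_add_of_lt hij
    have e1 : s ^ (m + 1) • y = x := by
      refine smul_right_injective _ (pow_pos hs0 i).ne' ?_
      simp only at e ⊢
      rw [← e, smul_smul, ← pow_add, add_assoc]
    refine hF' y hy.2 (s ^ (m + 1)) ?_ (e1 ▸ hx.1)
    have : s ≤ s ^ (m + 1) := le_self_pow₀ hs.le (Nat.succ_ne_zero m)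
    linarith
  have h1 := measure_biUnion_finset (μ := (volume : Measure (E N))) (s := Finset.range k)
    (f := fun i => s ^ i • (X ∩ F'))
    (fun i _ j _ hij => (lt_or_gt_of_ne hij).elim (hlt i j) fun h => (hlt j i h).symm)
    fun i _ => (hB.smul _).measurableSet
  have h2 : (⋃ i ∈ Finset.range k, s ^ i • (X ∩ F')) ⊆ closedBall 0 (2 * R) := by
    refine iUnion₂_subset fun i hi => ?_
    rintro _ ⟨x, hx, rfl⟩
    have h3 : s ^ i ≤ s ^ k := pow_le_pow_right₀ hs.le (Finset.mem_range.1 hi).le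
    have h4 := h.sub x hx.1
    simp only [mem_closedBall_zero_iff, norm_smul, Real.norm_of_nonneg (pow_pos hs0 i).le]
    nlinarith [pow_pos hs0 i]
  have h3 : (k : ℝ≥0∞) * volume (X ∩ F') ≤ ∑ i ∈ Finset.range k, volume (s ^ i • (X ∩ F')) := by
    have := Finset.card_nsmul_le_sum (Finset.range k) (fun i => volume (s ^ i • (X ∩ F')))
      (volume (X ∩ F')) fun i _ => by
        rw [Measure.addHaar_smul]
        refine le_mul_of_one_le_left' (ENNReal.one_le_ofReal.2 ?_)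
        exact le_trans (one_le_pow₀ (one_le_pow₀ hs.le)) (le_abs_self _)
    simpa using this
  have h4 : (k : ℝ≥0∞) * volume (X ∩ F') < k * ε :=
    (h3.trans (h1 ▸ measure_mono h2)).trans_lt hC
  exact lt_of_mul_lt_mul_left' h4

theorem Inv.null_step (hN : 2 ≤ N) (h : Inv G R X F) {ε : ℝ≥0∞} (hε : ε ≠ 0) :
    ∃ X' ⊆ X, ∃ F', Inv G R X' F' ∧ volume X' < ε := by
  obtain ⟨F', h', hμ⟩ := h.thin hε
  obtain ⟨δ, hδ, hcut⟩ := h'.cut_balls hN
  obtain ⟨t, r, htc, hts, hr, h0, hd⟩ := Besicovitch.exists_disjoint_closedBall_covering_ae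
    (volume : Measure (E N)) (fun x => {r | Disjoint (closedBall x r) F'}) (X \ F')
    (fun x hx η hη => by
      obtain ⟨ρ, hρ, h1⟩ := nhds_basis_closedBall.mem_iff.1 (h'.cF.isOpen_compl.mem_nhds hx.2)
      refine ⟨min ρ (η / 2), disjoint_left.2 fun z hz => h1 (closedBall_subset_closedBall
        (min_le_left _ _) hz), by positivity, (min_le_right _ _).trans_lt (by linarith)⟩)
    (fun _ => δ) fun _ _ => hδ
  obtain ⟨g, hg⟩ := countable_iff_exists_subset_range.1 htc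
  let T : ℕ → Set (E N) := fun n => t ∩ g '' Iio n
  let θ : ℕ → ℝ := fun n => 1 - 1 / ((n : ℝ) + 1)
  have hθ : ∀ n, θ n < 1 := fun n => sub_lt_self _ (by positivity)
  let A : ℕ → Set (E N) := fun n => X \ ⋃ x ∈ T n, ball x (θ n * r x)
  have hA : ∀ n, Inv G R (A n) F' := fun n => hcut (T n) r (θ n)
    (((finite_Iio n).image g).inter_of_right _) (hθ n)
    (fun x hx => ⟨(hr x hx.1).2.1, (hr x hx.1).2.2.le, (hr x hx.1).1⟩) (hd.subset inter_subset_left)
  have hanti : Antitone A := by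
    intro m n hmn z hz
    refine ⟨hz.1, fun h1 => hz.2 ?_⟩
    obtain ⟨x, hx, h2⟩ := mem_iUnion₂.1 h1
    refine mem_iUnion₂.2 ⟨x, ⟨hx.1, image_mono (Iio_subset_Iio hmn) hx.2⟩,
      ball_subset_ball (mul_le_mul_of_nonneg_right ?_ (hr x hx.1).2.1.le) h2⟩
    exact sub_le_sub_left (Nat.one_div_le_one_div hmn) _
  have hlim := tendsto_measure_iInter_atTop (μ := (volume : Measure (E N)))
    (fun n => (hA n).cX.measurableSet.nullMeasurableSet) hanti ⟨0, (hA 0).cX.measure_lt_top.ne⟩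
  have hsub : (⋂ n, A n) ⊆ (X ∩ F') ∪ (((X \ F') \ ⋃ x ∈ t, closedBall x (r x)) ∪
      ⋃ x ∈ t, sphere x (r x)) := by
    intro z hz
    rw [mem_iInter] at hz
    by_cases h1 : z ∈ F'
    · exact Or.inl ⟨(hz 0).1, h1⟩
    by_cases h2 : z ∈ ⋃ x ∈ t, closedBall x (r x)
    swap
    · exact Or.inr (Or.inl ⟨⟨(hz 0).1, h1⟩, h2⟩)
    obtain ⟨x, hx, h3⟩ := mem_iUnion₂.1 h2
    refine Or.inr (Or.inr (mem_iUnion₂.2 ⟨x, hx, le_antisymm h3 (not_lt.1 fun h4 => ?_)⟩))
    obtain ⟨i, rfl⟩ := hg hx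
    have h5 : Tendsto (fun n => θ n * r (g i)) atTop (𝓝 ((1 - 0) * r (g i))) :=
      (tendsto_one_div_add_atTop_nhds_zero_nat.const_sub 1).mul_const _
    obtain ⟨n, h6, h7⟩ := ((h5.eventually (lt_mem_nhds (by simpa using h4))).and
      (eventually_gt_atTop i)).exists
    exact (hz n).2 (mem_iUnion₂.2 ⟨g i, ⟨hx, i, h7, rfl⟩, h6⟩)
  have hnull : volume (((X \ F') \ ⋃ x ∈ t, closedBall x (r x)) ∪
      ⋃ x ∈ t, sphere x (r x)) = 0 :=
    measure_union_null h0 ((measure_biUnion_null_iff htc).2 fun x hx =>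
      Measure.addHaar_sphere_of_ne_zero _ _ (hr x hx).2.1.ne')
  have hlt : volume (⋂ n, A n) < ε :=
    ((measure_mono hsub).trans ((measure_union_le _ _).trans (by rw [hnull, add_zero]))).trans_lt hμ
  obtain ⟨n, hn⟩ := (hlim.eventually (gt_mem_nhds hlt)).exists
  exact ⟨A n, sdiff_subset, F', hA n, hn⟩

end Pool.Agent.Lib.MP_2a3b48_an.Gen
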