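import Pool.Agent.Lib.MP_2a3b48_an.Star4
import Pool.Agent.Lib.MP_2a3b48_an.GenNull

/-!
The limit set around a compact star-shaped set, the perfect kernel, and translation.
-/

namespace Pool.Agent.Lib.MP_2a3b48_an.Gen

open Metric Set Filter Topology MvPolynomial MeasureTheory
open Pool.Agent.Lib.MP_2a3b48_an.Star hiding Inv Small cell neg_of_ne inv_init exists_limit main

variable {N : ℕ}

theorem exists_limit (hN : 2 ≤ N) {G X₀ F₀ : Set (E N)} {R : ℝ} (hR : 0 < R) (h0G : (0 : E N) ∉ G)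
    (hI : Gen.Inv G R X₀ F₀) : ∃ X ⊆ X₀, IsCompact X ∧ IsTotallyDisconnected X ∧
    volume X = 0 ∧ ∀ p : MvPolynomial (Fin N) ℂ, (∀ x ∈ X, eval x p ≠ 0) →
      (∀ z, z ∉ G → eval z p ≠ 0) ∧
      ∀ x ∈ X, ∀ μ : ℝ, 0 ≤ μ → μ ≤ 1 → eval (μ • x) p ≠ 0 := by
  have step : ∀ (n : ℕ) (a : {q : Set (E N) × Set (E N) // Gen.Inv G R q.1 q.2}),
      ∃ b : {q : Set (E N) × Set (E N) // Gen.Inv G R q.1 q.2},
        b.1.1 ⊆ a.1.1 ∧ Gen.Small b.1.1 univ (2 * N * R * (1 / ((n : ℝ) + 1) / 2)) ∧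
          volume b.1.1 ≤ (((n + 1 : ℕ) : ENNReal))⁻¹ := by
    intro n a
    have h1 : (1 : ℝ) / (n + 1) ≤ 1 := by
      rw [div_le_one (by positivity)]
      linarith [Nat.cast_nonneg (α := ℝ) n]
    obtain ⟨X₁, k1, F₁, k2, k3⟩ := a.2.null_step hN (ε := (((n + 1 : ℕ) : ENNReal))⁻¹)
      (ENNReal.inv_ne_zero.2 (ENNReal.natCast_ne_top _))
    obtain ⟨X', h2, F', h3, h4⟩ := k2.step hN hR (θ := 1 / ((n : ℝ) + 1) / 2) (by positivity)
      (by linarith)
    exact ⟨⟨(X', F'), h3⟩, h2.trans k1, h4, (measure_mono h2).trans k3.le⟩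
  choose f hf1 hf2 hf3 using step
  let s : ℕ → {q : Set (E N) × Set (E N) // Gen.Inv G R q.1 q.2} := fun n =>
    Nat.rec ⟨(_, _), hI⟩ f n
  refine ⟨⋂ n, (s n).1.1, iInter_subset (fun n => (s n).1.1) 0, (s 0).2.cX.of_isClosed_subset
    (isClosed_iInter fun n => (s n).2.cX.isClosed) (iInter_subset _ 0), fun C hC hc a ha b hb => ?_,
    ?_, fun p hp => ?_⟩
  · have h1 : Tendsto (fun n : ℕ => 2 * (N : ℝ) * R * (1 / ((n : ℝ) + 1) / 2)) atTop
        (𝓝 (2 * N * R * (0 / 2))) :=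
      (tendsto_one_div_add_atTop_nhds_zero_nat.div_const 2).const_mul _
    have h2 := ge_of_tendsto' h1 fun n =>
      hf2 n (s n) C (hC.trans (iInter_subset _ (n + 1))) hc ⟨a, ha, trivial⟩ a ha b hb
    exact dist_le_zero.1 (by simpa using h2)
  · exact le_antisymm (ge_of_tendsto' (ENNReal.tendsto_inv_nat_nhds_zero.comp
      (tendsto_add_atTop_nat 1)) fun n =>
        (measure_mono (iInter_subset (fun n => (s n).1.1) (n + 1))).trans (hf3 n (s n))) zero_le
  obtain ⟨n, hn⟩ : ∃ n, ∀ x ∈ (s n).1.1, eval x p ≠ 0 := by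
    by_contra h
    push Not at h
    have hz : IsClosed {z : E N | eval z p = 0} := isClosed_eq (cont_eval p) continuous_const
    obtain ⟨x, hx⟩ := IsCompact.nonempty_iInter_of_sequence_nonempty_isCompact_isClosed
      (fun n => (s n).1.1 ∩ {z | eval z p = 0}) (fun n => inter_subset_inter_left _ (hf1 n (s n)))
      h ((s 0).2.cX.inter_right hz) fun n => (s n).2.cX.isClosed.inter hz
    rw [mem_iInter] at hx
    exact hp x (mem_iInter.2 fun n => (hx n).1) (hx 0).2
  obtain ⟨Y, -, hY, hq⟩ := (s n).2.q1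
  have hF := hq p fun y hy => hn y (interior_subset (hY hy))
  have hB : ∀ z, z ∉ G → eval z p ≠ 0 := fun z hz h0 => hz ((s n).2.out z (hF z h0)).1
  refine ⟨hB, fun x hx μ h0 h1 hz => ?_⟩
  rcases h0.eq_or_lt with rfl | h0
  · exact hB _ (by simpa using h0G) hz
  rcases h1.eq_or_lt with rfl | h1
  · exact hp x hx (by simpa using hz)
  refine hn _ (interior_subset ((s n).2.q2 _ (hF _ hz) μ⁻¹ ((one_lt_inv₀ h0).2 h1) ?_)) hz
  rw [smul_smul, inv_mul_cancel₀ h0.ne', one_smul]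
  exact mem_iInter.1 hx n

theorem main0 (hN : 2 ≤ N) {K V : Set (E N)} (hK : IsCompact K) (h0 : (0 : E N) ∈ K)
    (hs : StarConvex ℝ 0 K) (hV : IsOpen V) (hKV : K ⊆ V) : ∃ X : Set (E N),
    IsCantorSet X ∧ volume X = 0 ∧ X ⊆ V \ K ∧ K ⊆ interior (ratHull X) ∧
      StarConvex ℝ 0 (ratHull X) ∧ polyHull X = ratHull X := by
  obtain ⟨δ₀, hδ₀, hδV⟩ := hK.exists_cthickening_subset_open hV hKV
  obtain ⟨δ, hδ, rfl⟩ : ∃ δ : ℝ, 0 < δ ∧ δ₀ = 5 * δ := ⟨δ₀ / 5, by positivity, by ring⟩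
  obtain ⟨R, hR, hI⟩ := Gen.inv_init hN hK h0 hs hδ
  have hdK : ∀ z ∈ K, infDist z K = 0 := fun z hz => infDist_zero_of_mem hz
  obtain ⟨X, hX0, hX, hd, hμ, h⟩ := exists_limit hN hR
    (fun h1 => by
      have h2 : 3 * δ ≤ infDist (0 : E N) K := h1
      linarith [hdK 0 h0]) hI
  obtain ⟨W, D, hW, hD, e⟩ := exists_countable_union_perfect_of_isClosed hX.isClosed
  have hDX : D ⊆ X := e ▸ subset_union_right
  have hDc : IsCompact D := hX.of_isClosed_subset hD.closed hDX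
  have hB : {z | infDist z K < 3 * δ} ⊆ ratHull X := fun z hz =>
    mem_ratHull.2 fun p hp => (h p hp).1 z fun h1 =>
      absurd (show 3 * δ ≤ infDist z K from h1) (not_le.2 hz)
  have hKB : K ⊆ {z | infDist z K < 3 * δ} := fun z hz => by
    rw [mem_ofPred_eq, hdK z hz]
    positivity
  have hst : StarConvex ℝ 0 (ratHull X) := by
    intro z hz a b _ hb hab
    refine mem_ratHull.2 fun p hp => ?_
    rw [smul_zero, zero_add, ← eval_dil]
    refine mem_ratHull.1 hz _ fun x hx => ?_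
    rw [eval_dil]
    exact (h p hp).2 x hx b hb (by linarith)
  have hKc := (hst.isPathConnected (hB (hKB h0))).isConnected.isPreconnected
  have key : ∀ (p : MvPolynomial (Fin N) ℂ) (m : ℝ), 0 < m → (∀ x ∈ D, m ≤ ‖eval x p‖) →
      ∀ a ∈ ratHull X, ∀ b ∈ ratHull X, eval a p = 0 → ¬ m ≤ ‖eval b p‖ := by
    intro p m hm h1 a ha b hb h2 h3
    have h4 := hKc.intermediate_value ha hb (cont_eval p).norm.continuousOn
    have h5 : Ioo 0 m ⊆ (fun x => ‖eval x p‖) '' W := by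
      intro t ht
      obtain ⟨y, hy, h6⟩ := h4 (show t ∈ _ from ⟨by simpa [h2] using ht.1.le, ht.2.le.trans h3⟩)
      obtain ⟨x, hx, h7⟩ := hy p
      have h8 : ‖eval x p‖ = t := (congrArg norm h7).trans h6
      rcases (e ▸ hx : x ∈ W ∪ D) with hx | hx
      · exact ⟨x, hx, h8⟩
      · exact absurd (h1 x hx) (not_le.2 (h8 ▸ ht.2))
    have h6 := ((hW.image _).mono h5).measure_zero volume
    rw [Real.volume_Ioo, ENNReal.ofReal_eq_zero] at h6
    linarith
  have hne : D.Nonempty := by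
    by_contra h1
    refine key (MvPolynomial.X ⟨0, by omega⟩) δ hδ (fun x hx => absurd ⟨x, hx⟩ h1)
      0 (hB (hKB h0)) (fun _ => (δ : ℂ)) (hB ?_) (by simp) (by simp [abs_of_pos hδ])
    refine (infDist_le_dist_of_mem h0).trans_lt ?_
    rw [dist_zero_right, pi_norm_lt_iff (by positivity)]
    intro i
    rw [Complex.norm_real, Real.norm_of_nonneg hδ.le]
    linarith
  have hKD : ratHull X ⊆ ratHull D := fun z hz => mem_ratHull.2 fun p hp h0 => by
    obtain ⟨m, hm, h1⟩ := hDc.exists_forall_le' (cont_eval p).norm.continuousOn (a := 0)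
      fun x hx => norm_pos_iff.2 (hp x hx)
    obtain ⟨x, hx⟩ := hne
    exact key p m hm h1 z hz x (fun q => ⟨x, hDX hx, rfl⟩) h0 (h1 x hx)
  have hDK : ratHull D = ratHull X := subset_antisymm
    (fun z hz => mem_ratHull.2 fun p hp => mem_ratHull.1 hz p fun x hx => hp x (hDX hx)) hKD
  refine ⟨D, ⟨hne, hDc, fun C hC => hd C (hC.trans hDX), fun x hx =>
    accPt_iff_nhds.1 (hD.acc x hx)⟩, measure_mono_null hDX hμ,
    fun z hz => ⟨hδV ?_, fun hzK => ?_⟩,
    interior_maximal (hB.trans hKD) (isOpen_lt (continuous_infDist_pt K) continuous_const) |>.trans'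
      hKB, hDK ▸ hst, subset_antisymm ?_ (ratHull_subset hDc)⟩
  · have h1 : infDist z K < 5 * δ := by linarith [(hX0 (hDX hz)).2]
    exact thickening_subset_cthickening _ _ ((mem_thickening_iff_infDist_lt ⟨0, h0⟩).2 h1)
  · linarith [(hX0 (hDX hz)).1, hdK z hzK]
  · exact (polyHull_mono hX hne hDX).trans
      ((polyHull_subset hX (hne.mono hDX) fun p hp => (h p hp).2).trans hKD)

/-- The polynomial `z ↦ p (z + a)`. -/
noncomputable def tr (a : E N) (p : MvPolynomial (Fin N) ℂ) : MvPolynomial (Fin N) ℂ :=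
  bind₁ (fun i => X i + C (a i)) p

theorem eval_tr (a : E N) (p : MvPolynomial (Fin N) ℂ) (z : E N) :
    eval z (tr a p) = eval (z + a) p := by
  rw [tr, ← coe_aeval_eq_eval, ← coe_aeval_eq_eval]
  change aeval z _ = aeval (z + a) p
  rw [aeval_bind₁]
  congr 2
  funext i
  simp

theorem ratHull_tr (a : E N) {X : Set (E N)} {z : E N} (hz : z ∈ ratHull X) :
    z + a ∈ ratHull ((fun x => x + a) '' X) := fun p => by
  obtain ⟨x, hx, e⟩ := hz (tr a p)
  exact ⟨x + a, ⟨x, hx, rfl⟩, by simpa only [eval_tr] using e⟩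

theorem polyHull_tr (a : E N) {X : Set (E N)} {z : E N} (hz : z ∈ polyHull X) :
    z + a ∈ polyHull ((fun x => x + a) '' X) := fun p => by
  have h := hz (tr a p)
  simp only [eval_tr] at h
  rwa [image_image]

theorem tr_tr (a : E N) (X : Set (E N)) : (fun x => x + -a) '' ((fun x => x + a) '' X) = X := by
  rw [image_image]
  simp only [add_neg_cancel_right, image_id']

theorem ratHull_image (a : E N) (X : Set (E N)) :
    ratHull ((fun x => x + a) '' X) = (fun x => x + a) '' ratHull X := by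
  apply subset_antisymm
  · intro z hz
    have := ratHull_tr (-a) hz
    rw [tr_tr] at this
    exact ⟨z + -a, this, by simp⟩
  · rintro _ ⟨z, hz, rfl⟩
    exact ratHull_tr a hz

theorem polyHull_image (a : E N) (X : Set (E N)) :
    polyHull ((fun x => x + a) '' X) = (fun x => x + a) '' polyHull X := by
  apply subset_antisymm
  · intro z hz
    have := polyHull_tr (-a) hz
    rw [tr_tr] at this
    exact ⟨z + -a, this, by simp⟩
  · rintro _ ⟨z, hz, rfl⟩
    exact polyHull_tr a hz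

theorem cantor_image (a : E N) {X : Set (E N)} (h : IsCantorSet X) :
    IsCantorSet ((fun x => x + a) '' X) := by
  obtain ⟨h1, h2, h3, h4⟩ := h
  refine ⟨h1.image _, h2.image (by fun_prop),
    (Homeomorph.addRight a).isEmbedding.isTotallyDisconnected_image.2 h3, ?_⟩
  rintro _ ⟨x, hx, rfl⟩ U hU
  have hc : Continuous fun x : E N => x + a := by fun_prop
  obtain ⟨y, ⟨hy1, hy2⟩, hy3⟩ := h4 x hx _ (hc.continuousAt.preimage_mem_nhds hU)
  exact ⟨y + a, ⟨hy1, y, hy2, rfl⟩, fun e => hy3 (add_right_cancel e)⟩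

theorem main1 (hN : 2 ≤ N) {K V : Set (E N)} {a : E N} (hK : IsCompact K) (ha : a ∈ K)
    (hs : StarConvex ℝ a K) (hV : IsOpen V) (hKV : K ⊆ V) : ∃ X : Set (E N),
    IsCantorSet X ∧ volume X = 0 ∧ X ⊆ V \ K ∧ K ⊆ interior (ratHull X) ∧
      StarConvex ℝ a (ratHull X) ∧ polyHull X = ratHull X := by
  have hc : Continuous fun x : E N => x + a := by fun_prop
  obtain ⟨X, h1, hμ, h2, h3, h4, h5⟩ := main0 hN (K := (fun x => x + a) ⁻¹' K)
    (V := (fun x => x + a) ⁻¹' V) ((Homeomorph.addRight a).isCompact_preimage.2 hK)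
    (by simpa using ha) (StarConvex.preimage_add_left (by simpa using hs)) (hV.preimage hc)
    (preimage_mono hKV)
  refine ⟨(fun x => x + a) '' X, cantor_image a h1, ?_, ?_, fun z hz => ?_, ?_, ?_⟩
  · rw [image_add_right, measure_preimage_add_right, hμ]
  · rintro _ ⟨x, hx, rfl⟩
    exact h2 hx
  · rw [ratHull_image]
    have h6 : z + -a ∈ interior (ratHull X) := h3 (by simpa using hz)
    have h7 := (Homeomorph.addRight a).image_interior (ratHull X)
    simp only [Homeomorph.coe_addRight] at h7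
    rw [← h7]
    exact ⟨z + -a, h6, by simp⟩
  · rw [ratHull_image]
    simpa using h4.add_right a
  · rw [ratHull_image, polyHull_image, h5]

theorem hull_near {K W : Set (E N)} (hK : IsCompact K) (hW : IsOpen W) (hKW : polyHull K ⊆ W) :
    ∃ δ : ℝ, 0 < δ ∧ ∀ X : Set (E N), X.Nonempty → X ⊆ thickening δ K → polyHull X ⊆ W := by
  obtain ⟨R, hR⟩ := (hK.isBounded.thickening (δ := 1)).subset_closedBall 0
  have hC : IsCompact (closedBall (0 : E N) |R| \ W) := (isCompact_closedBall _ _).diff hW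
  have h1 : ∀ᶠ δ in 𝓝 (0 : ℝ), ∀ z ∈ closedBall (0 : E N) |R| \ W,
      ∃ (p : MvPolynomial (Fin N) ℂ) (m : ℝ), m < ‖eval z p‖ ∧
        ∀ x ∈ thickening δ K, ‖eval x p‖ ≤ m := by
    refine hC.eventually_forall_of_forall_eventually fun z hz => ?_
    obtain ⟨p, hp⟩ : ∃ p : MvPolynomial (Fin N) ℂ,
        sSup ((fun x => ‖eval x p‖) '' K) < ‖eval z p‖ := by
      by_contra h
      push Not at h
      exact hz.2 (hKW h)
    obtain ⟨m, hm1, hm2⟩ := exists_between hp
    obtain ⟨δ, hδ, h2⟩ := hK.exists_thickening_subset_open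
      (isOpen_lt (cont_eval p).norm (continuous_const (y := m))) fun x hx =>
        (le_csSup (hK.image (cont_eval p).norm).bddAbove ⟨x, hx, rfl⟩).trans_lt hm1
    have h3 : Continuous fun a : ℝ × E N => ‖eval a.2 p‖ := ((cont_eval p).comp continuous_snd).norm
    filter_upwards [h3.continuousAt.eventually (lt_mem_nhds hm2),
      continuous_fst.continuousAt.eventually (gt_mem_nhds (show (0, z).1 < δ from hδ))] with a h4 h5
    exact ⟨p, m, h4, fun x hx => (h2 (thickening_mono h5.le K hx)).le⟩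
  obtain ⟨δ, ⟨h2, h3⟩, hδ⟩ := (((h1.and (gt_mem_nhds one_pos)).filter_mono nhdsWithin_le_nhds).and
    (self_mem_nhdsWithin : Ioi (0 : ℝ) ∈ 𝓝[>] (0 : ℝ))).exists
  refine ⟨δ, hδ, fun X hX hXK z hz => ?_⟩
  by_contra hzW
  have h4 : z ∈ closedBall (0 : E N) |R| := by
    rw [mem_closedBall_zero_iff, pi_norm_le_iff_of_nonneg (abs_nonneg R)]
    intro i
    have h5 := (hz (MvPolynomial.X i)).trans (csSup_le (a := |R|) (hX.image _) (by
      rintro _ ⟨x, hx, rfl⟩
      have h6 := mem_closedBall_zero_iff.1 (hR (thickening_mono h3.le K (hXK hx)))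
      simpa using ((norm_le_pi_norm x i).trans h6).trans (le_abs_self R)))
    simpa using h5
  obtain ⟨p, m, h5, h6⟩ := h2 z ⟨h4, hzW⟩
  refine absurd ((hz p).trans (csSup_le (hX.image _) ?_)) (not_le.2 h5)
  rintro _ ⟨x, hx, rfl⟩
  exact h6 x (hXK hx)

theorem main (hN : 2 ≤ N) {K V W : Set (E N)} {a : E N} (hK : IsCompact K) (ha : a ∈ K)
    (hs : StarConvex ℝ a K) (hV : IsOpen V) (hKV : K ⊆ V) (hW : IsOpen W)
    (hKW : polyHull K ⊆ W) : ∃ X : Set (E N),
    IsCantorSet X ∧ volume X = 0 ∧ X ⊆ V \ K ∧ K ⊆ interior (ratHull X) ∧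
      polyHull X = ratHull X ∧ polyHull X ⊆ W ∧ StarConvex ℝ a (polyHull X) := by
  obtain ⟨δ, hδ, h⟩ := hull_near hK hW hKW
  obtain ⟨X, h1, h2, h3, h4, h5, h6⟩ := main1 hN hK ha hs (hV.inter isOpen_thickening)
    (subset_inter hKV (self_subset_thickening hδ K))
  exact ⟨X, h1, h2, fun x hx => ⟨(h3 hx).1.1, (h3 hx).2⟩, h4, h6,
    h X h1.1 fun x hx => (h3 hx).1.2, h6 ▸ h5⟩

end Pool.Agent.Lib.MP_2a3b48_an.Gen
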