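import Pool.Agent.Lib.MP_2a3b48_an.Defs

/-!
A maximum principle on zero sets of polynomials, and two families of strictly plurisubharmonic
quadratic functions.
-/

namespace Pool.Agent.Lib.MP_2a3b48_an.Star

open Metric Set Filter Topology MvPolynomial

variable {N : ℕ}

/-- Complex `N`-space. -/
abbrev E (N : ℕ) : Type := Fin N → ℂ

theorem exists_zero_near {P : ℂ → ℂ → ℂ} (hc : Continuous fun q : ℂ × ℂ => P q.1 q.2)
    (hd : ∀ u, Differentiable ℂ (P u)) (h0 : P 0 0 = 0) (hne : ∃ t, P 0 t ≠ 0) {ε : ℝ}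
    (hε : 0 < ε) : ∃ u : ℝ, 0 < u ∧ u ≤ ε ∧ ∃ t : ℂ, ‖t‖ ≤ ε ∧ P u t = 0 := by
  have ha : AnalyticOnNhd ℂ (P 0) univ := fun z _ => (hd 0).analyticAt z
  have h1 : ∀ᶠ t in 𝓝[≠] (0 : ℂ), P 0 t ≠ 0 := by
    rcases (ha 0 trivial).eventually_eq_zero_or_eventually_ne_zero with h | h
    · obtain ⟨t, ht⟩ := hne
      exact absurd (ha.eqOn_zero_of_preconnected_of_eventuallyEq_zero isPreconnected_univ
        (mem_univ 0) h (mem_univ t)) ht
    · exact h
  obtain ⟨r0, hr0, h2⟩ := Metric.eventually_nhds_iff.1 (eventually_nhdsWithin_iff.1 h1)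
  obtain ⟨r, hr, hrε, hr1⟩ : ∃ r : ℝ, 0 < r ∧ r ≤ ε ∧ r < r0 :=
    ⟨min ε (r0 / 2), by positivity, min_le_left _ _, (min_le_right _ _).trans_lt (by linarith)⟩
  have h3 : ∀ t ∈ sphere (0 : ℂ) r, 0 < ‖P 0 t‖ := fun t ht => by
    have h := mem_sphere.1 ht
    refine norm_pos_iff.2 (h2 (h.trans_lt hr1) ?_)
    rintro rfl
    simp at h
    linarith
  obtain ⟨m, hm, h4⟩ := (isCompact_sphere (0 : ℂ) r).exists_forall_le'
    (f := fun t => ‖P 0 t‖) (hd 0).continuous.norm.continuousOn h3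
  have h5 : ∀ᶠ u in 𝓝 (0 : ℂ), ∀ t ∈ sphere (0 : ℂ) r, m / 2 < ‖P u t‖ := by
    refine (isCompact_sphere (0 : ℂ) r).eventually_forall_of_forall_eventually fun t ht => ?_
    exact hc.norm.continuousAt.eventually (lt_mem_nhds (by linarith [h4 t ht]))
  have h6 : ∀ᶠ u in 𝓝 (0 : ℂ), ‖P u 0‖ < m / 2 := by
    have : Continuous fun u : ℂ => ‖P u 0‖ := (hc.comp (continuous_id.prodMk continuous_const)).norm
    exact this.continuousAt.eventually (gt_mem_nhds (by simp [h0, hm]))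
  obtain ⟨s, hs, h7⟩ := Metric.eventually_nhds_iff.1 (h5.and h6)
  obtain ⟨u, hu, huε, hu1⟩ : ∃ u : ℝ, 0 < u ∧ u ≤ ε ∧ u < s :=
    ⟨min ε (s / 2), by positivity, min_le_left _ _, (min_le_right _ _).trans_lt (by linarith)⟩
  obtain ⟨h8, h9⟩ := h7 (y := (u : ℂ)) (by simpa [abs_of_pos hu] using hu1)
  refine ⟨u, hu, huε, ?_⟩
  by_contra hno
  push Not at hno
  have hz : ∀ t ∈ closedBall (0 : ℂ) r, P u t ≠ 0 := fun t ht =>
    hno t ((mem_closedBall_zero_iff.1 ht).trans hrε)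
  have hD : DiffContOnCl ℂ (fun t => (P u t)⁻¹) (ball 0 r) := by
    refine DifferentiableOn.diffContOnCl ?_
    rw [closure_ball _ hr.ne']
    exact (hd u).differentiableOn.inv hz
  have h10 := Complex.norm_le_of_forall_mem_frontier_norm_le isBounded_ball hD (C := (m / 2)⁻¹)
    (fun t ht => by
      rw [frontier_ball _ hr.ne'] at ht
      rw [norm_inv]
      exact inv_anti₀ (by positivity) (h8 t ht).le) (subset_closure (mem_ball_self hr))
  rw [norm_inv] at h10
  have h11 : 0 < ‖P u 0‖ := norm_pos_iff.2 (hz 0 (mem_closedBall_self hr.le))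
  have := inv_strictAnti₀ h11 h9
  linarith

theorem diff_eval (p : MvPolynomial (Fin N) ℂ) : Differentiable ℂ fun z : E N => eval z p :=
  fun z => (AnalyticOnNhd.eval_mvPolynomial p z trivial).differentiableAt

theorem cont_eval (p : MvPolynomial (Fin N) ℂ) : Continuous fun z : E N => eval z p :=
  (diff_eval p).continuous

theorem maxp' (p : MvPolynomial (Fin N) ℂ) (l w : E N →L[ℂ] ℂ) (hw : w ≠ 0) (κ : ℂ) {A : E N}
    (hA : w A = 0) (hl : l A ≠ 0) (o y : E N) {R : ℝ} (hy : y ∈ ball o R) (hp : eval y p = 0) :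
    ∃ z ∈ sphere o R, eval z p = 0 ∧ 0 ≤ (l (z - y) + κ * w (z - y) ^ 2).re := by
  by_contra hno
  push Not at hno
  let g : E N → ℂ := fun z => l (z - y) + κ * w (z - y) ^ 2
  have hg : Continuous fun z => (g z).re := by fun_prop
  have hT : IsCompact (closedBall o R ∩ {z | eval z p = 0}) :=
    (isCompact_closedBall o R).inter_right (isClosed_eq (cont_eval p) continuous_const)
  obtain ⟨q, ⟨hq1, hq2⟩, hq⟩ := hT.exists_isMaxOn ⟨y, ball_subset_closedBall hy, hp⟩ hg.continuousOn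
  have hq0 : 0 ≤ (g q).re := by
    have := hq (show y ∈ _ from ⟨ball_subset_closedBall hy, hp⟩)
    simpa [g] using this
  have hqb : dist q o < R := by
    refine lt_of_le_of_ne hq1 fun h => ?_
    exact absurd (hno q h hq2) (not_lt.2 hq0)
  obtain ⟨B, hB⟩ : ∃ B, w B = 1 := by
    obtain ⟨b, hb⟩ : ∃ b, w b ≠ 0 := by
      by_contra h
      push Not at h
      exact hw (ContinuousLinearMap.ext h)
    exact ⟨(w b)⁻¹ • b, by simp [hb]⟩
  let Γ : ℂ → ℂ → E N := fun u t =>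
    q + t • B + ((u - t * l B - κ * ((w (q - y) + t) ^ 2 - w (q - y) ^ 2)) / l A) • A
  have hΓc : Continuous fun a : ℂ × ℂ => Γ a.1 a.2 := by fun_prop
  have hΓ0 : Γ 0 0 = q := by simp [Γ]
  have hΓw : ∀ u t, w (Γ u t - y) = w (q - y) + t := by
    intro u t
    simp only [Γ, map_sub, map_add, map_smul, hA, hB, smul_eq_mul]
    ring
  have hΓg : ∀ u t, g (Γ u t) = g q + u := by
    intro u t
    simp only [g, hΓw]
    simp only [Γ, map_sub, map_add, map_smul, smul_eq_mul]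
    field_simp
    ring
  by_cases hall : ∃ t, eval (Γ 0 t) p ≠ 0
  · have h1 : ∀ᶠ a : ℂ × ℂ in 𝓝 (0, 0), dist (Γ a.1 a.2) o < R :=
      (hΓc.dist continuous_const).continuousAt.eventually (gt_mem_nhds (by simpa [hΓ0] using hqb))
    obtain ⟨ε, hε, h2⟩ := Metric.eventually_nhds_iff.1 h1
    obtain ⟨u, hu, huε, t, ht, hz⟩ := exists_zero_near (P := fun u t => eval (Γ u t) p)
      ((cont_eval p).comp hΓc) (fun u => (diff_eval p).comp (by fun_prop)) (by rw [hΓ0]; exact hq2)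
      hall (half_pos hε)
    have h3 : dist (Γ u t) o < R := h2 (y := ((u : ℂ), t)) (by
      rw [Prod.dist_eq, max_lt_iff]
      constructor
      · simp only [dist_zero_right, Complex.norm_real, Real.norm_of_nonneg hu.le]
        linarith
      · simp only [dist_zero_right]
        linarith)
    have h4 := hq (show Γ u t ∈ _ from ⟨h3.le, hz⟩)
    simp only [mem_ofPred_eq, hΓg, Complex.add_re, Complex.ofReal_re] at h4
    linarith
  · push Not at hall
    have hf : Continuous fun t => dist (Γ 0 t) o :=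
      (hΓc.comp (continuous_const.prodMk continuous_id)).dist continuous_const
    obtain ⟨t1, ht1⟩ : ∃ t1, R ≤ dist (Γ 0 t1) o := by
      by_contra h
      push Not at h
      have h1 := w.le_opNorm (Γ 0 (((‖w‖ * (2 * R) + 1 : ℝ) : ℂ) - w (q - y)) - y)
      have h2 := dist_triangle_right (Γ 0 (((‖w‖ * (2 * R) + 1 : ℝ) : ℂ) - w (q - y))) y o
      have h3 := h (((‖w‖ * (2 * R) + 1 : ℝ) : ℂ) - w (q - y))
      have h4 := mem_ball.1 hy
      rw [hΓw, add_sub_cancel, Complex.norm_real, ← dist_eq_norm] at h1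
      have h5 := le_abs_self (‖w‖ * (2 * R) + 1)
      rw [← Real.norm_eq_abs] at h5
      nlinarith [norm_nonneg w]
    obtain ⟨t, ht⟩ := intermediate_value_univ 0 t1 hf ⟨by simpa [hΓ0] using hqb.le, ht1⟩
    have h1 := hno (Γ 0 t) ht (hall t)
    have h2 := hΓg 0 t
    simp only [g, add_zero] at h2 hq0
    rw [h2] at h1
    linarith

theorem maxp (hN : 2 ≤ N) (p : MvPolynomial (Fin N) ℂ) (l w : E N →L[ℂ] ℂ) (hw : w ≠ 0) (κ : ℂ)
    (o y : E N) {R : ℝ} (hy : y ∈ ball o R) (hp : eval y p = 0) :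
    ∃ z ∈ sphere o R, eval z p = 0 ∧ 0 ≤ (l (z - y) + κ * w (z - y) ^ 2).re := by
  obtain ⟨A, hA, hA0⟩ : ∃ A, w A = 0 ∧ A ≠ 0 := by
    have := LinearMap.ker_ne_bot_of_finrank_lt (f := w.toLinearMap) (by simp; omega)
    obtain ⟨A, h1, h2⟩ := (Submodule.ne_bot_iff _).1 this
    exact ⟨A, h1, h2⟩
  by_cases hl : l A = 0
  swap
  · exact maxp' p l w hw κ hA hl o y hy hp
  obtain ⟨i, hi⟩ : ∃ i, A i ≠ 0 := Function.ne_iff.1 hA0
  by_contra hno
  push Not at hno
  have hS : IsCompact (sphere o R ∩ {z | eval z p = 0}) :=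
    (isCompact_sphere o R).inter_right (isClosed_eq (cont_eval p) continuous_const)
  have h1 : ∀ᶠ ε in 𝓝 (0 : ℂ), ∀ z ∈ sphere o R ∩ {z | eval z p = 0},
      (l (z - y) + ε * (z - y) i + κ * w (z - y) ^ 2).re < 0 := by
    refine hS.eventually_forall_of_forall_eventually fun z hz => ?_
    have : Continuous fun a : ℂ × E N =>
        (l (a.2 - y) + a.1 * (a.2 - y) i + κ * w (a.2 - y) ^ 2).re := by fun_prop
    exact this.continuousAt.eventually (gt_mem_nhds (by simpa using hno z hz.1 hz.2))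
  obtain ⟨ε, h2, hε⟩ := ((h1.filter_mono nhdsWithin_le_nhds).and
    (self_mem_nhdsWithin : {(0 : ℂ)}ᶜ ∈ 𝓝[≠] (0 : ℂ))).exists
  obtain ⟨z, hz1, hz2, hz3⟩ := maxp' p (l + ε • ContinuousLinearMap.proj i) w hw κ hA
    (by simpa [hl, hi] using hε) o y hy hp
  exact absurd (h2 z ⟨hz1, hz2⟩) (not_lt.2 (by simpa using hz3))

end Pool.Agent.Lib.MP_2a3b48_an.Star
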