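import Pool.Agent.Lib.MP_2a3b48_an.Star1

/-!
Strictly plurisubharmonic quadratic functions: spheres and cones.
-/

namespace Pool.Agent.Lib.MP_2a3b48_an.Star

open Metric Set Filter Topology MvPolynomial
open scoped ComplexConjugate

variable {N : ℕ}

/-- The squared Euclidean norm. -/
noncomputable def n2 (z : E N) : ℝ := ∑ i, ‖z i‖ ^ 2

/-- The Hermitian product with `x`, as a complex linear form. -/
noncomputable def ip (x : E N) : E N →L[ℂ] ℂ := ∑ i, conj (x i) • ContinuousLinearMap.proj i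

theorem ip_apply (x z : E N) : ip x z = ∑ i, conj (x i) * z i := by
  simp [ip]

@[fun_prop] theorem continuous_n2 : Continuous (n2 : E N → ℝ) := by
  unfold n2
  fun_prop

theorem n2_nonneg (z : E N) : 0 ≤ n2 z := Finset.sum_nonneg fun _ _ => sq_nonneg _

theorem n2_add (y h : E N) : n2 (y + h) = n2 y + 2 * (ip y h).re + n2 h := by
  simp only [n2, ip_apply, Complex.re_sum, Finset.mul_sum, ← Finset.sum_add_distrib]
  refine Finset.sum_congr rfl fun i _ => ?_
  simp only [Complex.sq_norm, Complex.normSq_apply, Pi.add_apply, Complex.add_re, Complex.add_im,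
    Complex.mul_re, Complex.conj_re, Complex.conj_im]
  ring

theorem ip_self (x : E N) : (ip x x).re = n2 x := by
  simp only [n2, ip_apply, Complex.re_sum]
  refine Finset.sum_congr rfl fun i _ => ?_
  simp only [Complex.sq_norm, Complex.normSq_apply, Complex.mul_re, Complex.conj_re,
    Complex.conj_im]
  ring

theorem n2_smul (t : ℝ) (z : E N) : n2 (t • z) = t ^ 2 * n2 z := by
  simp only [n2, Pi.smul_apply, norm_smul, mul_pow, Real.norm_eq_abs, sq_abs, Finset.mul_sum]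

theorem ip_smul (x : E N) (t : ℝ) (z : E N) : (ip x (t • z)).re = t * (ip x z).re := by
  rw [ContinuousLinearMap.map_smul_of_tower]
  simp

theorem ip_symm (x z : E N) : (ip x z).re = (ip z x).re := by
  simp only [ip_apply, Complex.re_sum]
  refine Finset.sum_congr rfl fun i _ => ?_
  simp only [Complex.mul_re, Complex.conj_re, Complex.conj_im]
  ring

theorem sq_le_n2 (h : E N) : ‖h‖ ^ 2 ≤ n2 h := by
  have : ‖h‖ ≤ √(n2 h) := by
    refine (pi_norm_le_iff_of_nonneg (Real.sqrt_nonneg _)).2 fun i => Real.le_sqrt_of_sq_le ?_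
    exact Finset.single_le_sum (f := fun i => ‖h i‖ ^ 2) (fun _ _ => sq_nonneg _) (Finset.mem_univ i)
  calc ‖h‖ ^ 2 ≤ √(n2 h) ^ 2 := by gcongr
    _ = n2 h := Real.sq_sqrt (n2_nonneg h)

theorem n2_le (h : E N) : n2 h ≤ N * ‖h‖ ^ 2 := by
  calc n2 h ≤ ∑ _i : Fin N, ‖h‖ ^ 2 := Finset.sum_le_sum fun i _ => by
        gcongr
        exact norm_le_pi_norm h i
    _ = N * ‖h‖ ^ 2 := by simp

theorem n2_pos {x : E N} (hx : x ≠ 0) : 0 < n2 x :=
  lt_of_lt_of_le (pow_pos (norm_pos_iff.2 hx) 2) (sq_le_n2 x)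

theorem cs (x h : E N) : ‖ip x h‖ ^ 2 ≤ n2 x * n2 h := by
  refine le_trans ?_ (Finset.sum_mul_sq_le_sq_mul_sq Finset.univ (fun i => ‖x i‖) fun i => ‖h i‖)
  gcongr
  rw [ip_apply]
  refine (norm_sum_le _ _).trans (le_of_eq ?_)
  simp

/-- Functions that dominate, at each point, the real part of a quadratic polynomial plus a positive
multiple of the squared distance. -/
def Psh (ψ : E N → ℝ) : Prop :=
  Continuous ψ ∧ ∃ c : ℝ, 0 < c ∧ ∃ (w : E N →L[ℂ] ℂ) (κ : ℂ), w ≠ 0 ∧ ∀ y, ∃ l : E N →L[ℂ] ℂ,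
    ∀ z, ψ y + (l (z - y) + κ * w (z - y) ^ 2).re + c * ‖z - y‖ ^ 2 ≤ ψ z

theorem Psh.osc (hN : 2 ≤ N) {ψ : E N → ℝ} (h : Psh ψ) {δ : ℝ} (hδ : 0 < δ) :
    ∃ η : ℝ, 0 < η ∧ ∀ (p : MvPolynomial (Fin N) ℂ) (y : E N), eval y p = 0 →
      ∃ z ∈ closedBall y δ, eval z p = 0 ∧ η ≤ |ψ z| := by
  obtain ⟨-, c, hc, w, κ, hw, h⟩ := h
  refine ⟨c * δ ^ 2 / 2, by positivity, fun p y hy => ?_⟩
  obtain ⟨l, hl⟩ := h y
  obtain ⟨z, hz, hp, h1⟩ := maxp hN p l w hw κ y y (mem_ball_self hδ) hy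
  have h2 := hl z
  rw [mem_sphere_iff_norm.1 hz] at h2
  by_cases h3 : c * δ ^ 2 / 2 ≤ |ψ y|
  · exact ⟨y, mem_closedBall_self hδ.le, hy, h3⟩
  · refine ⟨z, sphere_subset_closedBall hz, hp, le_trans ?_ (le_abs_self _)⟩
    have := neg_abs_le (ψ y)
    linarith [not_le.1 h3]

theorem proj_ne (i : Fin N) : (ContinuousLinearMap.proj i : E N →L[ℂ] ℂ) ≠ 0 := fun h => by
  simpa using DFunLike.congr_fun h fun _ => 1

theorem psh_sphere (hN : 2 ≤ N) (x : E N) (r : ℝ) : Psh fun z => n2 (z - x) - r := by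
  refine ⟨by fun_prop, 1, one_pos, _, 0, proj_ne ⟨0, by omega⟩, fun y =>
    ⟨(2 : ℂ) • ip (y - x), fun z => ?_⟩⟩
  have h1 := n2_add (y - x) (z - y)
  have h2 := sq_le_n2 (z - y)
  rw [show y - x + (z - y) = z - x by abel] at h1
  simp only [_root_.smul_apply, smul_eq_mul, zero_mul, add_zero, Complex.mul_re,
    Complex.re_ofNat, Complex.im_ofNat, sub_zero]
  linarith

/-- A real quadratic form that is negative on a thin double cone around the line through `x`. -/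
noncomputable def rho (c : ℝ) (x z : E N) : ℝ := c * n2 x * n2 z - (ip x z).re ^ 2

@[fun_prop] theorem continuous_rho (c : ℝ) (x : E N) : Continuous (rho c x) := by
  unfold rho
  fun_prop

theorem rho_smul (c : ℝ) (x : E N) (t : ℝ) (z : E N) : rho c x (t • z) = t ^ 2 * rho c x z := by
  simp only [rho, n2_smul, ip_smul]
  ring

theorem rho_self (c : ℝ) (x : E N) : rho c x x = (c - 1) * n2 x ^ 2 := by
  simp only [rho, ip_self]
  ring

theorem psh_cone {x : E N} (hx : x ≠ 0) {c : ℝ} (hc : 1 / 2 < c) : Psh (rho c x) := by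
  have hn := n2_pos hx
  refine ⟨by fun_prop, (c - 1 / 2) * n2 x, mul_pos (by linarith) hn, ip x, -1 / 2, fun h => ?_,
    fun y => ⟨((2 * c * n2 x : ℝ) : ℂ) • ip y - ((2 * (ip x y).re : ℝ) : ℂ) • ip x, fun z => ?_⟩⟩
  · have := ip_self x
    rw [h] at this
    simp at this
    linarith
  obtain ⟨h, rfl⟩ : ∃ h, z = y + h := ⟨z - y, by abel⟩
  have h2 := sq_le_n2 h
  have h3 := cs x h
  have h4 : (-1 / 2 * ip x h ^ 2 : ℂ).re = -1 / 2 * ((ip x h).re ^ 2 - (ip x h).im ^ 2) := by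
    rw [show (-1 / 2 : ℂ) = ((-1 / 2 : ℝ) : ℂ) by push_cast; rfl, Complex.re_ofReal_mul, sq,
      Complex.mul_re]
    ring
  rw [Complex.sq_norm, Complex.normSq_apply] at h3
  simp only [add_sub_cancel_left, rho, n2_add, map_add, Complex.add_re, h4,
    _root_.sub_apply, _root_.smul_apply, smul_eq_mul, Complex.sub_re,
    Complex.re_ofReal_mul]
  nlinarith [mul_le_mul_of_nonneg_left h2 (mul_pos (by linarith : 0 < c - 1 / 2) hn).le]

theorem exists_of_rho_one {x z : E N} (hx : x ≠ 0) (h : rho 1 x z ≤ 0) : ∃ t : ℝ, z = t • x := by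
  have hn := n2_pos hx
  refine ⟨(ip x z).re / n2 x, ?_⟩
  have h1 := n2_add z ((-((ip x z).re / n2 x)) • x)
  rw [ip_smul, n2_smul, ← ip_symm x z] at h1
  have h2 := sq_le_n2 (z + (-((ip x z).re / n2 x)) • x)
  have h3 : n2 (z + (-((ip x z).re / n2 x)) • x) = rho 1 x z / n2 x := by
    rw [h1, rho]
    field_simp
    ring
  have h4 : ‖z + (-((ip x z).re / n2 x)) • x‖ ^ 2 ≤ 0 :=
    h2.trans (h3 ▸ div_nonpos_of_nonpos_of_nonneg h hn.le)
  have h5 := norm_eq_zero.1 (pow_eq_zero_iff two_ne_zero |>.1 (le_antisymm h4 (sq_nonneg _)))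
  rwa [neg_smul, ← sub_eq_add_neg, sub_eq_zero] at h5

end Pool.Agent.Lib.MP_2a3b48_an.Star
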