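import Pool.Agent.Lib.MP_2a3b48_an.Star2

/-!
The invariant of the construction, and the cutting steps.
-/

namespace Pool.Agent.Lib.MP_2a3b48_an.Star

open Metric Set Filter Topology MvPolynomial

variable {N : ℕ}

/-- Every zero set that misses a compact part of the interior of `X` lies in the outer region `F`,
and inside `F` each ray leaves `X` at most once. -/
structure Inv (X F : Set (E N)) : Prop where
  cX : IsCompact X
  sub : ∀ z ∈ X, 1 / 2 ≤ ‖z‖ ∧ ‖z‖ ≤ 1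
  cF : IsClosed F
  out : ∀ x ∈ F, 3 / 4 ≤ ‖x‖
  dil : ∀ x ∈ F, ∀ t : ℝ, 1 ≤ t → t • x ∈ F
  q1 : ∃ Y, IsCompact Y ∧ Y ⊆ interior X ∧ ∀ p : MvPolynomial (Fin N) ℂ,
    (∀ y ∈ Y, eval y p ≠ 0) → ∀ z, eval z p = 0 → z ∈ F
  q2 : ∀ x ∈ F, ∀ t : ℝ, 1 < t → t • x ∈ X → x ∈ interior X

theorem inv_init (hN : 2 ≤ N) :
    Inv ({z | 1 / 2 ≤ ‖z‖ ∧ ‖z‖ ≤ 1} : Set (E N)) {z | 3 / 4 ≤ ‖z‖} := by
  have hi : ∀ z : E N, 1 / 2 < ‖z‖ → ‖z‖ < 1 → z ∈ interior {z : E N | 1 / 2 ≤ ‖z‖ ∧ ‖z‖ ≤ 1} :=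
    fun z h1 h2 => interior_maximal (t := {z | 1 / 2 < ‖z‖} ∩ {z | ‖z‖ < 1})
      (fun y h => show 1 / 2 ≤ ‖y‖ ∧ ‖y‖ ≤ 1 from ⟨le_of_lt h.1, le_of_lt h.2⟩)
      ((isOpen_lt continuous_const continuous_norm).inter
        (isOpen_lt continuous_norm continuous_const)) ⟨h1, h2⟩
  refine ⟨(isCompact_closedBall 0 1).of_isClosed_subset
      ((isClosed_le continuous_const continuous_norm).inter
        (isClosed_le continuous_norm continuous_const)) fun z hz => mem_closedBall_zero_iff.2 hz.2,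
    fun _ h => h, isClosed_le continuous_const continuous_norm, fun _ h => h, fun x hx t ht => ?_,
    ⟨sphere 0 (3 / 4), isCompact_sphere _ _, fun z hz => ?_, fun p hp z hz => ?_⟩,
    fun x hx t ht h => ?_⟩
  · simp only [mem_ofPred_eq, norm_smul, Real.norm_of_nonneg (by linarith : 0 ≤ t)] at hx ⊢
    nlinarith
  · rw [mem_sphere_zero_iff_norm] at hz
    exact hi z (by linarith) (by linarith)
  · by_contra h
    obtain ⟨y, hy, h1, -⟩ := maxp hN p 0 _ (proj_ne ⟨0, by omega⟩) 0 0 z (R := 3 / 4)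
      (mem_ball_zero_iff.2 (not_le.1 h)) hz
    exact hp y hy h1
  · simp only [mem_ofPred_eq, norm_smul, Real.norm_of_nonneg (by linarith : 0 ≤ t)] at hx h
    exact hi x (by linarith) (by nlinarith [h.2])

variable {X F : Set (E N)}

theorem Inv.shrink (h : Inv X F) {s : ℝ} (hs : 1 < s) :
    ∃ F', Inv X F' ∧ ∀ x ∈ F', ∀ t : ℝ, s < t → t • x ∉ X := by
  obtain ⟨Y, hY, hYX, hq⟩ := h.q1
  have hc : Continuous fun x : E N => s • x := by fun_prop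
  have key : ∀ x ∈ F, ∀ t : ℝ, s < t → t • x ∈ X → s • x ∈ interior X := fun x hx t ht hX =>
    h.q2 _ (h.dil x hx s hs.le) (t / s) ((one_lt_div (by linarith)).2 ht)
      (by rwa [smul_smul, div_mul_cancel₀ _ (by linarith : s ≠ 0)])
  refine ⟨F ∩ {x | s • x ∉ interior X}, ⟨h.cX, h.sub,
    h.cF.inter (isOpen_interior.preimage hc).isClosed_compl, fun x hx => h.out x hx.1,
    fun x hx t ht => ⟨h.dil x hx.1 t ht, fun h1 => ?_⟩,
    ⟨Y ∪ (F ∩ {x | s • x ∈ X}), hY.union ?_, union_subset hYX fun x hx => h.q2 x hx.1 s hs hx.2,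
      fun p hp z hz => ?_⟩, fun x hx => h.q2 x hx.1⟩, fun x hx t ht hX => hx.2 (key x hx.1 t ht hX)⟩
  · rcases ht.eq_or_lt with rfl | ht
    · exact hx.2 (by simpa using h1)
    · exact hx.2 (key x hx.1 (s * t) (by nlinarith) (by rw [← smul_smul]; exact interior_subset h1))
  · exact h.cX.of_isClosed_subset (h.cF.inter (h.cX.isClosed.preimage hc))
      fun x hx => interior_subset (h.q2 x hx.1 s hs hx.2)
  · have hz' := hq p (fun y hy => hp y (Or.inl hy)) z hz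
    exact ⟨hz', fun h1 => hp z (Or.inr ⟨hz', show s • z ∈ X from interior_subset h1⟩) hz⟩

theorem Inv.cut (hN : 2 ≤ N) (h : Inv X F) {ψ : E N → ℝ} (hψ : Psh ψ) :
    ∃ η : ℝ, 0 < η ∧ ∀ U M : Set (E N), IsOpen U → IsClosed M → U ⊆ M →
      (∀ z ∈ M, z ∈ X → |ψ z| < η) → (∀ x ∈ F, ∀ t : ℝ, 1 < t → t • x ∉ U → x ∉ M) →
      Inv (X \ U) F := by
  obtain ⟨Y, hY, hYX, hq⟩ := h.q1
  obtain ⟨δ, hδ, hYδ⟩ := hY.exists_cthickening_subset_open isOpen_interior hYX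
  obtain ⟨η, hη, hosc⟩ := hψ.osc hN hδ
  refine ⟨η, hη, fun U M hU hM hUM h1 h2 => ?_⟩
  have hi : interior X ∩ Mᶜ ⊆ interior (X \ U) :=
    interior_maximal (fun z hz => ⟨interior_subset hz.1, fun hz' => hz.2 (hUM hz')⟩)
      (isOpen_interior.inter hM.isOpen_compl)
  refine ⟨h.cX.diff hU, fun z hz => h.sub z hz.1, h.cF, h.out, h.dil,
    ⟨cthickening δ Y ∩ {z | η ≤ |ψ z|}, (h.cX.of_isClosed_subset isClosed_cthickening
      (hYδ.trans interior_subset)).inter_right (isClosed_le continuous_const hψ.1.abs),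
      fun z hz => hi ⟨hYδ hz.1, fun hz' => ?_⟩, fun p hp => hq p fun y hy hy' => ?_⟩,
    fun x hx t ht hX => hi ⟨h.q2 x hx t ht hX.1, h2 x hx t ht hX.2⟩⟩
  · exact absurd (h1 z hz' (interior_subset (hYδ hz.1))) (not_lt.2 hz.2)
  · obtain ⟨z, hz, hz1, hz2⟩ := hosc p y hy'
    exact hp z ⟨closedBall_subset_cthickening hy δ hz, hz2⟩ hz1

theorem Inv.cut_cone (hN : 2 ≤ N) (h : Inv X F) {x : E N} (hx : x ≠ 0) {c : ℝ} (hc : 1 / 2 < c) :
    ∃ X' ⊆ X, Inv X' F ∧ ∀ z ∈ X', rho c x z ≠ 0 := by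
  obtain ⟨η, hη, hcut⟩ := h.cut hN (psh_cone hx hc)
  refine ⟨_, sdiff_subset, hcut {z | |rho c x z| < η / 2 * ‖z‖ ^ 3}
    {z | |rho c x z| ≤ η / 2 * ‖z‖ ^ 3} (isOpen_lt (by fun_prop) (by fun_prop))
    (isClosed_le (by fun_prop) (by fun_prop)) 
    (fun z hz => show |rho c x z| ≤ _ from le_of_lt hz) (fun z hz hX => ?_)
    fun z hz t ht h1 h2 => h1 ?_, fun z hz h0 => hz.2 ?_⟩
  · have h1 : ‖z‖ ^ 3 ≤ 1 := pow_le_one₀ (norm_nonneg _) (h.sub z hX).2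
    have h2 : |rho c x z| ≤ η / 2 * ‖z‖ ^ 3 := hz
    nlinarith
  · have h3 : 0 < ‖z‖ := by linarith [h.out z hz]
    have h4 : 0 < η / 2 * ‖z‖ ^ 3 := by positivity
    have h5 : 0 < t ^ 2 := by positivity
    simp only [mem_ofPred_eq, rho_smul, abs_mul, abs_of_pos h5, norm_smul,
      Real.norm_of_nonneg (by linarith : 0 ≤ t)] at h2 ⊢
    calc t ^ 2 * |rho c x z| ≤ t ^ 2 * (η / 2 * ‖z‖ ^ 3) := by gcongr
      _ < t * (t ^ 2 * (η / 2 * ‖z‖ ^ 3)) := lt_mul_of_one_lt_left (by positivity) ht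
      _ = η / 2 * (t * ‖z‖) ^ 3 := by ring
  · have h3 : 0 < ‖z‖ := by linarith [(h.sub z hz.1).1]
    simp only [mem_ofPred_eq, h0, abs_zero]
    positivity

theorem Inv.cut_off (hN : 2 ≤ N) (h : Inv X F) {ψ : E N → ℝ} (hψ : Psh ψ) {H : Set (E N)}
    (hH : IsCompact H) (h0 : ∀ z ∈ H, ψ z = 0) (hF : ∀ z ∈ H, z ∉ F) :
    ∃ X' ⊆ X, Inv X' F ∧ ∀ z ∈ X', z ∉ H := by
  obtain ⟨η, hη, hcut⟩ := h.cut hN hψ
  obtain ⟨δ, hδ, h1⟩ := hH.exists_cthickening_subset_open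
    (h.cF.isOpen_compl.inter (isOpen_lt hψ.1.abs (continuous_const (y := η))))
    fun z hz => ⟨hF z hz, by simpa [h0 z hz] using hη⟩
  exact ⟨_, sdiff_subset, hcut (thickening δ H) (cthickening δ H) isOpen_thickening
    isClosed_cthickening (thickening_subset_cthickening _ _) (fun z hz _ => (h1 hz).2)
    fun z hz _ _ _ h2 => (h1 h2).1 hz, fun z hz h2 => hz.2 (self_subset_thickening hδ _ h2)⟩

/-- Connected subsets of `X` that meet `U` have diameter at most `d`. -/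
def Small (X U : Set (E N)) (d : ℝ) : Prop :=
  ∀ C ⊆ X, IsPreconnected C → (C ∩ U).Nonempty → ∀ a ∈ C, ∀ b ∈ C, dist a b ≤ d

theorem neg_of_ne {C : Set (E N)} (hC : IsPreconnected C) {f : E N → ℝ} (hf : Continuous f)
    (h0 : ∀ z ∈ C, f z ≠ 0) {a : E N} (ha : a ∈ C) (h : f a < 0) : ∀ z ∈ C, f z < 0 := by
  intro z hz
  by_contra h1
  obtain ⟨y, hy, h2⟩ := hC.intermediate_value ha hz hf.continuousOn ⟨h.le, not_lt.1 h1⟩
  exact h0 y hy h2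

theorem cell (hN : 2 ≤ N) {X₀ : Set (E N)} (h : Inv X₀ F) {x : E N} (hx : x ∈ X₀) {θ : ℝ}
    (hθ : 0 < θ) (h1 : (1 + θ) • x ∉ X₀ ∩ F) (h2 : (1 - θ) • x ∉ X₀ ∩ F) :
    ∃ U ∈ 𝓝 x, ∀ X ⊆ X₀, Inv X F → ∃ X' ⊆ X, Inv X' F ∧ Small X' U (2 * N * θ) := by
  have hx0 : x ≠ 0 := norm_pos_iff.1 (by linarith [(h.sub x hx).1])
  have hn := n2_pos hx0
  let ψ : E N → ℝ := fun z => n2 (z - x) - θ ^ 2 * n2 x
  have hψ : Psh ψ := psh_sphere hN x _
  have hT : IsCompact (X₀ ∩ F ∩ {z | ψ z = 0}) :=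
    (h.cX.inter_right h.cF).inter_right (isClosed_eq hψ.1 continuous_const)
  have h3 : ∀ᶠ c in 𝓝 (1 : ℝ), ∀ z ∈ X₀ ∩ F ∩ {z | ψ z = 0}, 0 < rho c x z := by
    refine hT.eventually_forall_of_forall_eventually fun z hz => ?_
    have hc : Continuous fun a : ℝ × E N => rho a.1 x a.2 := by
      unfold rho
      fun_prop
    refine hc.continuousAt.eventually (lt_mem_nhds ?_)
    by_contra h4
    obtain ⟨t, rfl⟩ := exists_of_rho_one hx0 (not_lt.1 h4)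
    have h5 : n2 (t • x - x) - θ ^ 2 * n2 x = 0 := hz.2
    rw [show t • x - x = (t - 1) • x by rw [sub_smul, one_smul], n2_smul, ← sub_mul] at h5
    have h6 : (t - (1 + θ)) * (t - (1 - θ)) = 0 := by
      linarith [(mul_eq_zero.1 h5).resolve_right hn.ne']
    rcases mul_eq_zero.1 h6 with h7 | h7
    · exact h1 (sub_eq_zero.1 h7 ▸ hz.1)
    · exact h2 (sub_eq_zero.1 h7 ▸ hz.1)
  obtain ⟨c, ⟨h4, hc⟩, hc1⟩ := (((h3.and (lt_mem_nhds (by norm_num : (1 / 2 : ℝ) < 1))).filter_mono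
    nhdsWithin_le_nhds).and (self_mem_nhdsWithin : Iio (1 : ℝ) ∈ 𝓝[<] (1 : ℝ))).exists
  refine ⟨{z | rho c x z < 0} ∩ {z | ψ z < 0}, ((isOpen_lt (by fun_prop) continuous_const).inter
    (isOpen_lt hψ.1 continuous_const)).mem_nhds ⟨?_, ?_⟩, fun X hX hI => ?_⟩
  · rw [mem_ofPred_eq, rho_self]
    exact mul_neg_of_neg_of_pos (sub_neg.2 hc1) (by positivity)
  · have : 0 < θ ^ 2 * n2 x := by positivity
    simpa [ψ, n2] using this
  obtain ⟨X₁, s1, i1, r1⟩ := hI.cut_cone hN hx0 hc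
  obtain ⟨X₂, s2, i2, r2⟩ := i1.cut_off hN hψ (H := X₀ ∩ {z | ψ z = 0} ∩ {z | rho c x z ≤ 0})
    ((h.cX.inter_right (isClosed_eq hψ.1 continuous_const)).inter_right
      (isClosed_le (by fun_prop) continuous_const)) (fun z hz => hz.1.2)
    fun z hz hF => absurd (h4 z ⟨⟨hz.1.1, hF⟩, hz.1.2⟩) (not_lt.2 hz.2)
  refine ⟨X₂, s2.trans s1, i2, fun C hC hcon ⟨a, ha, ha1, ha2⟩ => ?_⟩
  have k1 := neg_of_ne hcon (continuous_rho c x) (fun z hz => r1 z (s2 (hC hz))) ha ha1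
  have k2 := neg_of_ne hcon hψ.1
    (fun z hz h0 => r2 z (hC hz) ⟨⟨hX (s1 (s2 (hC hz))), h0⟩, (k1 z hz).le⟩) ha ha2
  have k3 : ∀ z ∈ C, dist z x ≤ N * θ := fun z hz => by
    have e1 : n2 (z - x) - θ ^ 2 * n2 x < 0 := k2 z hz
    have e2 := sq_le_n2 (z - x)
    have e3 := n2_le x
    have e4 : ‖x‖ ^ 2 ≤ 1 := pow_le_one₀ (norm_nonneg _) (h.sub x hx).2
    have e5 : (2 : ℝ) ≤ N := by exact_mod_cast hN
    have e6 : n2 x ≤ (N : ℝ) ^ 2 := by nlinarith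
    rw [dist_eq_norm]
    refine le_of_sq_le_sq ?_ (by positivity)
    nlinarith [mul_le_mul_of_nonneg_left e6 (sq_nonneg θ)]
  intro a ha b hb
  linarith [dist_triangle_right a b x, k3 a ha, k3 b hb]

theorem Inv.step (hN : 2 ≤ N) (h : Inv X F) {θ : ℝ} (hθ : 0 < θ) (hθ1 : θ < 1) :
    ∃ X' ⊆ X, ∃ F', Inv X' F' ∧ Small X' univ (2 * N * θ) := by
  obtain ⟨F', h', hF'⟩ := h.shrink (s := 1 + θ / 2) (by linarith)
  have key : ∀ x ∈ X, ∃ U ∈ 𝓝 x, ∀ X₁ ⊆ X, Inv X₁ F' →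
      ∃ X' ⊆ X₁, Inv X' F' ∧ Small X' U (2 * N * θ) := by
    intro x hx
    by_cases hxF : x ∈ F'
    · refine cell hN h' hx hθ (fun h1 => hF' x hxF _ (by linarith) h1.1) fun h1 => ?_
      refine hF' _ h1.2 (1 - θ)⁻¹ ?_ (by rwa [smul_smul, inv_mul_cancel₀ (by linarith), one_smul])
      rw [← one_div, lt_div_iff₀ (by linarith)]
      nlinarith
    · have e : ∀ σ : ℝ, ∀ᶠ t in 𝓝 (0 : ℝ), (1 + σ * t) • x ∉ F' := fun σ => by
        have hc : Continuous fun t : ℝ => (1 + σ * t) • x := by fun_prop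
        exact hc.continuousAt.eventually (h'.cF.isOpen_compl.mem_nhds (by simpa using hxF))
      obtain ⟨t, ⟨⟨e1, e2⟩, e3⟩, e4⟩ := (((((e 1).and (e (-1))).and (gt_mem_nhds hθ)).filter_mono
        nhdsWithin_le_nhds).and (self_mem_nhdsWithin : Ioi (0 : ℝ) ∈ 𝓝[>] (0 : ℝ))).exists
      obtain ⟨U, hU, h1⟩ := cell hN h' hx e4 (fun h1 => e1 (by simpa using h1.2))
        fun h1 => e2 (by simpa [sub_eq_add_neg] using h1.2)
      refine ⟨U, hU, fun X₁ s1 i1 => ?_⟩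
      obtain ⟨X', s2, i2, h2⟩ := h1 X₁ s1 i1
      exact ⟨X', s2, i2, fun C hC hc hne a ha b hb => (h2 C hC hc hne a ha b hb).trans (by gcongr)⟩
  choose! U hU hcut using key
  obtain ⟨T, hT, hcov⟩ := h.cX.elim_nhds_subcover U hU
  have fin : ∀ S : Finset (E N), (∀ x ∈ S, x ∈ X) →
      ∃ X' ⊆ X, Inv X' F' ∧ ∀ x ∈ S, Small X' (U x) (2 * N * θ) := by
    classical
    intro S
    induction S using Finset.induction_on with
    | empty => exact fun _ => ⟨X, subset_rfl, h', by simp⟩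
    | insert x S hx ih =>
      intro hS
      obtain ⟨X₁, s1, i1, k1⟩ := ih fun y hy => hS y (Finset.mem_insert_of_mem hy)
      obtain ⟨X₂, s2, i2, k2⟩ := hcut x (hS x (Finset.mem_insert_self _ _)) X₁ s1 i1
      refine ⟨X₂, s2.trans s1, i2, fun y hy => ?_⟩
      rcases Finset.mem_insert.1 hy with rfl | hy
      · exact k2
      · exact fun C hC => k1 y hy C (hC.trans s2)
  obtain ⟨X', s1, i1, k1⟩ := fin T hT
  refine ⟨X', s1, F', i1, fun C hC hc ⟨a, ha, _⟩ => ?_⟩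
  obtain ⟨x, hx, hax⟩ := mem_iUnion₂.1 (hcov (s1 (hC ha)))
  exact k1 x hx C hC hc ⟨a, ha, hax⟩

end Pool.Agent.Lib.MP_2a3b48_an.Star
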