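import Pool.Agent.Lib.MP_2a3b48_an.Star3

/-!
The limit set, star-shaped rational hulls, and the perfect kernel.
-/

namespace Pool.Agent.Lib.MP_2a3b48_an.Star

open Metric Set Filter Topology MvPolynomial

variable {N : ℕ}

theorem exists_limit (hN : 2 ≤ N) : ∃ X : Set (E N), IsCompact X ∧ IsTotallyDisconnected X ∧
    ∀ p : MvPolynomial (Fin N) ℂ, (∀ x ∈ X, eval x p ≠ 0) →
      (∀ z ∈ ball (0 : E N) (3 / 4), eval z p ≠ 0) ∧
      ∀ x ∈ X, ∀ μ : ℝ, 0 ≤ μ → μ ≤ 1 → eval (μ • x) p ≠ 0 := by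
  have step : ∀ (n : ℕ) (a : {q : Set (E N) × Set (E N) // Inv q.1 q.2}),
      ∃ b : {q : Set (E N) × Set (E N) // Inv q.1 q.2},
        b.1.1 ⊆ a.1.1 ∧ Small b.1.1 univ (2 * N * (1 / ((n : ℝ) + 1) / 2)) := by
    intro n a
    have h1 : (1 : ℝ) / (n + 1) ≤ 1 := by
      rw [div_le_one (by positivity)]
      linarith [Nat.cast_nonneg (α := ℝ) n]
    obtain ⟨X', h2, F', h3, h4⟩ := a.2.step hN (θ := 1 / ((n : ℝ) + 1) / 2) (by positivity)
      (by linarith)
    exact ⟨⟨(X', F'), h3⟩, h2, h4⟩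
  choose f hf1 hf2 using step
  let s : ℕ → {q : Set (E N) × Set (E N) // Inv q.1 q.2} := fun n =>
    Nat.rec ⟨(_, _), inv_init hN⟩ f n
  refine ⟨⋂ n, (s n).1.1, (s 0).2.cX.of_isClosed_subset
    (isClosed_iInter fun n => (s n).2.cX.isClosed) (iInter_subset _ 0), fun C hC hc a ha b hb => ?_,
    fun p hp => ?_⟩
  · have h1 : Tendsto (fun n : ℕ => 2 * (N : ℝ) * (1 / ((n : ℝ) + 1) / 2)) atTop
        (𝓝 (2 * N * (0 / 2))) :=
      (tendsto_one_div_add_atTop_nhds_zero_nat.div_const 2).const_mul _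
    have h2 := ge_of_tendsto' h1 fun n =>
      hf2 n (s n) C (hC.trans (iInter_subset _ (n + 1))) hc ⟨a, ha, trivial⟩ a ha b hb
    exact dist_le_zero.1 (by simpa using h2)
  obtain ⟨n, hn⟩ : ∃ n, ∀ x ∈ (s n).1.1, eval x p ≠ 0 := by
    by_contra h
    push Not at h
    have hz : IsClosed {z : E N | eval z p = 0} := isClosed_eq (cont_eval p) continuous_const
    obtain ⟨x, hx⟩ := IsCompact.nonempty_iInter_of_sequence_nonempty_isCompact_isClosed
      (fun n => (s n).1.1 ∩ {z | eval z p = 0}) (fun n => inter_subset_inter_left _ (hf1 n (s n)))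
      h ((s 0).2.cX.inter_right hz) fun n => (s n).2.cX.isClosed.inter hz
    rw [mem_iInter] at hx
    exact hp x (mem_iInter.2 fun n => (hx n).1) (hx 0).2
  obtain ⟨Y, -, hY, hq⟩ := (s n).2.q1
  have hF := hq p fun y hy => hn y (interior_subset (hY hy))
  have hB : ∀ z ∈ ball (0 : E N) (3 / 4), eval z p ≠ 0 := fun z hz h0 =>
    absurd ((s n).2.out z (hF z h0)) (not_le.2 (mem_ball_zero_iff.1 hz))
  refine ⟨hB, fun x hx μ h0 h1 hz => ?_⟩
  rcases h0.eq_or_lt with rfl | h0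
  · exact hB _ (by simp) hz
  rcases h1.eq_or_lt with rfl | h1
  · exact hp x hx (by simpa using hz)
  refine hn _ (interior_subset ((s n).2.q2 _ (hF _ hz) μ⁻¹ ((one_lt_inv₀ h0).2 h1) ?_)) hz
  rw [smul_smul, inv_mul_cancel₀ h0.ne', one_smul]
  exact mem_iInter.1 hx n

theorem mem_ratHull {X : Set (E N)} {z : E N} : z ∈ ratHull X ↔
    ∀ p : MvPolynomial (Fin N) ℂ, (∀ x ∈ X, eval x p ≠ 0) → eval z p ≠ 0 := by
  refine ⟨fun h p hp h0 => ?_, fun h p => ?_⟩
  · obtain ⟨x, hx, e⟩ := h p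
    exact hp x hx (e.trans h0)
  · by_contra hno
    refine h (p - C (eval z p)) (fun x hx h0 => hno ⟨x, hx, ?_⟩) (by simp)
    simpa [sub_eq_zero] using h0

/-- The polynomial `z ↦ p (μ z)`. -/
noncomputable def dil (μ : ℝ) (p : MvPolynomial (Fin N) ℂ) : MvPolynomial (Fin N) ℂ :=
  bind₁ (fun i => C (μ : ℂ) * X i) p

theorem eval_dil (μ : ℝ) (p : MvPolynomial (Fin N) ℂ) (z : E N) :
    eval z (dil μ p) = eval (μ • z) p := by
  rw [dil, ← coe_aeval_eq_eval, ← coe_aeval_eq_eval]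
  change aeval z _ = aeval (μ • z) p
  rw [aeval_bind₁]
  congr 2
  funext i
  simp

theorem polyHull_subset {X : Set (E N)} (hX : IsCompact X) (hne : X.Nonempty)
    (h : ∀ p : MvPolynomial (Fin N) ℂ, (∀ x ∈ X, eval x p ≠ 0) →
      ∀ x ∈ X, ∀ μ : ℝ, 0 ≤ μ → μ ≤ 1 → eval (μ • x) p ≠ 0) : polyHull X ⊆ ratHull X := by
  intro z hz
  refine mem_ratHull.2 fun p hp => ?_
  have hc : Continuous fun a : ℝ × E N => eval (a.1 • a.2) p := (cont_eval p).comp (by fun_prop)
  obtain ⟨m, hm, h1⟩ := ((isCompact_Icc (a := (0 : ℝ)) (b := 1)).prod hX).exists_forall_le'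
    hc.norm.continuousOn (a := 0) fun a ha => norm_pos_iff.2 (h p hp _ ha.2 _ ha.1.1 ha.1.2)
  let P : ℝ → Prop := fun μ =>
    ∃ g : MvPolynomial (Fin N) ℂ, ∀ x ∈ X, ‖eval x g * eval (μ • x) p - 1‖ ≤ 1 / 2
  have near : ∀ μ ∈ Icc (0 : ℝ) 1, ∀ ν : ℝ,
      (∀ x ∈ X, ‖eval (ν • x) p - eval (μ • x) p‖ ≤ m / 5) → P μ → P ν := by
    rintro μ hμ ν hν ⟨g, hg⟩
    refine ⟨g * (2 - g * dil μ p), fun x hx => ?_⟩
    have e1 := hg x hx
    have e2 := hν x hx
    have e3 : m ≤ ‖eval (μ • x) p‖ := h1 (μ, x) ⟨hμ, hx⟩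
    have e0 : eval x (2 : MvPolynomial (Fin N) ℂ) = 2 := map_ofNat _ 2
    simp only [map_mul, map_sub, eval_dil, e0]
    generalize eval x g = a at *
    generalize eval (μ • x) p = q at *
    generalize eval (ν • x) p = r at *
    have e4 : ‖a * (2 - a * q) * q - 1‖ ≤ 1 / 4 := by
      rw [show a * (2 - a * q) * q - 1 = -((a * q - 1) * (a * q - 1)) by ring, norm_neg, norm_mul]
      nlinarith [norm_nonneg (a * q - 1)]
    generalize a * (2 - a * q) = b at *
    have e5 : ‖b‖ * ‖q‖ ≤ 5 / 4 := by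
      have := norm_add_le (b * q - 1) 1
      rw [sub_add_cancel, norm_mul, norm_one] at this
      linarith
    have e6 := norm_add_le (b * q - 1) (b * (r - q))
    rw [show b * q - 1 + b * (r - q) = b * r - 1 by ring, norm_mul] at e6
    nlinarith [norm_nonneg b, mul_le_mul_of_nonneg_left e2 (norm_nonneg b),
      mul_le_mul_of_nonneg_left e3 (norm_nonneg b)]
  have h2 : P 0 → P 1 := by
    refine isPreconnected_Icc.induction₂' (fun μ ν => P μ → P ν) (fun μ hμ => ?_)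
      (fun _ _ _ _ _ _ a b c => b (a c)) (left_mem_Icc.2 zero_le_one) (right_mem_Icc.2 zero_le_one)
    have h3 : ∀ᶠ ν in 𝓝 μ, ∀ x ∈ X, ‖eval (ν • x) p - eval (μ • x) p‖ < m / 5 := by
      refine hX.eventually_forall_of_forall_eventually fun x _ => ?_
      have : Continuous fun a : ℝ × E N => ‖eval (a.1 • a.2) p - eval (μ • a.2) p‖ :=
        (hc.sub ((cont_eval p).comp (by fun_prop))).norm
      exact this.continuousAt.eventually (gt_mem_nhds (by simpa using hm))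
    filter_upwards [h3.filter_mono nhdsWithin_le_nhds, self_mem_nhdsWithin] with ν h4 hν
    exact ⟨near μ hμ ν fun x hx => (h4 x hx).le,
      near ν hν μ fun x hx => by rw [norm_sub_rev]; exact (h4 x hx).le⟩
  obtain ⟨x₀, hx₀⟩ := hne
  have h0 : eval (0 : E N) p ≠ 0 := by simpa using h p hp x₀ hx₀ 0 le_rfl zero_le_one
  obtain ⟨g, hg⟩ := h2 ⟨C (eval 0 p)⁻¹, fun x _ => by
    rw [eval_C, zero_smul, inv_mul_cancel₀ h0, sub_self, norm_zero]
    norm_num⟩
  intro hz0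
  have h5 := (hz (g * p - 1)).trans (csSup_le (a := 1 / 2) (Set.Nonempty.image _ ⟨x₀, hx₀⟩) (by
    rintro _ ⟨x, hx, rfl⟩
    simpa using hg x hx))
  simp only [map_sub, map_mul, hz0, mul_zero, map_one, zero_sub, norm_neg, norm_one] at h5
  linarith

theorem ratHull_subset {X : Set (E N)} (hX : IsCompact X) : ratHull X ⊆ polyHull X := by
  intro z hz p
  obtain ⟨x, hx, e⟩ := hz p
  rw [← e]
  exact le_csSup (hX.image (cont_eval p).norm).bddAbove ⟨x, hx, rfl⟩

theorem polyHull_mono {X D : Set (E N)} (hX : IsCompact X) (hD : D.Nonempty) (h : D ⊆ X) :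
    polyHull D ⊆ polyHull X := fun _ hz p =>
  (hz p).trans (csSup_le_csSup (hX.image (cont_eval p).norm).bddAbove (hD.image _) (image_mono h))

theorem main (hN : 2 ≤ N) : ∃ X : Set (E N),
    IsCantorSet X ∧ (interior (ratHull X)).Nonempty ∧ polyHull X = ratHull X := by
  obtain ⟨X, hX, hd, h⟩ := exists_limit hN
  obtain ⟨V, D, hV, hD, e⟩ := exists_countable_union_perfect_of_isClosed hX.isClosed
  have hDX : D ⊆ X := e ▸ subset_union_right
  have hDc : IsCompact D := hX.of_isClosed_subset hD.closed hDX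
  have hB : ball (0 : E N) (3 / 4) ⊆ ratHull X := fun z hz =>
    mem_ratHull.2 fun p hp => (h p hp).1 z hz
  have hst : StarConvex ℝ 0 (ratHull X) := by
    intro z hz a b _ hb hab
    refine mem_ratHull.2 fun p hp => ?_
    rw [smul_zero, zero_add, ← eval_dil]
    refine mem_ratHull.1 hz _ fun x hx => ?_
    rw [eval_dil]
    exact (h p hp).2 x hx b hb (by linarith)
  have hK := (hst.isPathConnected (hB (mem_ball_self (by norm_num)))).isConnected.isPreconnected
  have key : ∀ (p : MvPolynomial (Fin N) ℂ) (m : ℝ), 0 < m → (∀ x ∈ D, m ≤ ‖eval x p‖) →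
      ∀ a ∈ ratHull X, ∀ b ∈ ratHull X, eval a p = 0 → ¬ m ≤ ‖eval b p‖ := by
    intro p m hm h1 a ha b hb h2 h3
    have h4 := hK.intermediate_value ha hb (cont_eval p).norm.continuousOn
    have h5 : Ioo 0 m ⊆ (fun x => ‖eval x p‖) '' V := by
      intro t ht
      obtain ⟨y, hy, h6⟩ := h4 (show t ∈ _ from ⟨by simpa [h2] using ht.1.le, ht.2.le.trans h3⟩)
      obtain ⟨x, hx, h7⟩ := hy p
      have h8 : ‖eval x p‖ = t := (congrArg norm h7).trans h6
      rcases (e ▸ hx : x ∈ V ∪ D) with hx | hx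
      · exact ⟨x, hx, h8⟩
      · exact absurd (h1 x hx) (not_le.2 (h8 ▸ ht.2))
    have h6 := ((hV.image _).mono h5).measure_zero MeasureTheory.volume
    rw [Real.volume_Ioo, ENNReal.ofReal_eq_zero] at h6
    linarith
  have hne : D.Nonempty := by
    by_contra h1
    refine key (MvPolynomial.X ⟨0, by omega⟩) (1 / 2) (by norm_num) (fun x hx => absurd ⟨x, hx⟩ h1)
      0 (hB (mem_ball_self (by norm_num))) (fun _ => ((1 / 2 : ℝ) : ℂ)) (hB ?_) (by simp) (by simp)
    rw [mem_ball_zero_iff, pi_norm_lt_iff (by norm_num)]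
    intro i
    rw [Complex.norm_real]
    norm_num
  have hKD : ratHull X ⊆ ratHull D := fun z hz => mem_ratHull.2 fun p hp h0 => by
    obtain ⟨m, hm, h1⟩ := hDc.exists_forall_le' (cont_eval p).norm.continuousOn (a := 0)
      fun x hx => norm_pos_iff.2 (hp x hx)
    obtain ⟨x, hx⟩ := hne
    exact key p m hm h1 z hz x (fun q => ⟨x, hDX hx, rfl⟩) h0 (h1 x hx)
  refine ⟨D, ⟨hne, hDc, fun C hC => hd C (hC.trans hDX), fun x hx =>
    accPt_iff_nhds.1 (hD.acc x hx)⟩, ⟨0, interior_maximal (hB.trans hKD) isOpen_ball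
      (mem_ball_self (by norm_num))⟩, subset_antisymm ?_ (ratHull_subset hDc)⟩
  exact (polyHull_mono hX hne hDX).trans
    ((polyHull_subset hX (hne.mono hDX) fun p hp => (h p hp).2).trans hKD)

end Pool.Agent.Lib.MP_2a3b48_an.Star
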